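import Mathlib

set_option autoImplicit false

open Set MeasureTheory Filter Topology
open scoped ContDiff

namespace Pool.Agent.Helper906_NullSet

noncomputable section

/-- TARGET F0 (hitting set lemma).
Proof: by induction on `s`.  If `𝒢` is empty take `Z = ∅`.  (For `s = 0` the hypothesis says `𝒢.card < 1`.)
Otherwise double counting: `∑_{x : X} #{G ∈ 𝒢 : x ∈ G} = ∑_{G ∈ 𝒢} #G ≥ γ #X #𝒢`, so some `x` lies in at least
`γ #𝒢` members; the members not containing `x` number at most `(1 - γ) #𝒢`; apply induction to them with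
`s - 1` and insert `x`.  (Alternatively count `s`-tuples.) -/
theorem hitting {X : Type*} [Fintype X] [DecidableEq X] (γ : ℝ) (hγ : 0 < γ) (hγ1 : γ ≤ 1)
    (s : ℕ) (𝒢 : Finset (Finset X)) (hG : ∀ G ∈ 𝒢, γ * (Fintype.card X : ℝ) ≤ (G.card : ℝ))
    (hs : (𝒢.card : ℝ) * (1 - γ) ^ s < 1) (hX : 0 < Fintype.card X) :
    ∃ Z : Finset X, Z.card ≤ s ∧ ∀ G ∈ 𝒢, ∃ x ∈ Z, x ∈ G := by
  induction s generalizing 𝒢 with
  | zero =>
    have h0 : 𝒢.card = 0 := by
      have : (𝒢.card : ℝ) < 1 := by simpa using hs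
      have h1 : 𝒢.card < 1 := by exact_mod_cast this
      omega
    refine ⟨∅, by simp, fun G hGm => ?_⟩
    rw [Finset.card_eq_zero] at h0
    simp [h0] at hGm
  | succ s ih =>
    -- double counting
    have hcount : ∑ x : X, ((𝒢.filter (fun G => x ∈ G)).card : ℝ) = ∑ G ∈ 𝒢, (G.card : ℝ) := by
      have h1 : ∀ x : X, ((𝒢.filter (fun G => x ∈ G)).card : ℝ)
          = ∑ G ∈ 𝒢, (if x ∈ G then (1 : ℝ) else 0) := by
        intro x
        rw [Finset.sum_boole]
      have h2 : ∀ G ∈ 𝒢, (G.card : ℝ) = ∑ x : X, (if x ∈ G then (1 : ℝ) else 0) := by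
        intro G _
        rw [Finset.sum_boole]
        congr 2
        ext x
        simp
      rw [Finset.sum_congr rfl (fun x _ => h1 x), Finset.sum_congr rfl h2, Finset.sum_comm]
    have hXpos : (0 : ℝ) < (Fintype.card X : ℝ) := by exact_mod_cast hX
    have hne : Nonempty X := Fintype.card_pos_iff.mp hX
    have hex : ∃ x : X, γ * (𝒢.card : ℝ) ≤ ((𝒢.filter (fun G => x ∈ G)).card : ℝ) := by
      by_contra hcon
      push Not at hcon
      have h3 : ∑ x : X, ((𝒢.filter (fun G => x ∈ G)).card : ℝ) < ∑ _x : X, γ * (𝒢.card : ℝ) :=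
        Finset.sum_lt_sum_of_nonempty Finset.univ_nonempty (fun x _ => hcon x)
      have h4 : ∑ G ∈ 𝒢, γ * (Fintype.card X : ℝ) ≤ ∑ G ∈ 𝒢, (G.card : ℝ) :=
        Finset.sum_le_sum hG
      rw [hcount] at h3
      simp only [Finset.sum_const, nsmul_eq_mul, Finset.card_univ] at h3 h4
      nlinarith
    obtain ⟨x, hx⟩ := hex
    have hsplit : (𝒢.filter (fun G => x ∈ G)).card + (𝒢.filter (fun G => ¬ x ∈ G)).card = 𝒢.card :=
      Finset.card_filter_add_card_filter_not (fun G => x ∈ G)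
    have hsplit' : ((𝒢.filter (fun G => x ∈ G)).card : ℝ)
        + ((𝒢.filter (fun G => ¬ x ∈ G)).card : ℝ) = (𝒢.card : ℝ) := by exact_mod_cast hsplit
    have hle : ((𝒢.filter (fun G => ¬ x ∈ G)).card : ℝ) ≤ (𝒢.card : ℝ) * (1 - γ) := by
      nlinarith
    have hpow : 0 ≤ (1 - γ) ^ s := pow_nonneg (by linarith) s
    have hs' : ((𝒢.filter (fun G => ¬ x ∈ G)).card : ℝ) * (1 - γ) ^ s < 1 := by
      calc ((𝒢.filter (fun G => ¬ x ∈ G)).card : ℝ) * (1 - γ) ^ s
          ≤ ((𝒢.card : ℝ) * (1 - γ)) * (1 - γ) ^ s := mul_le_mul_of_nonneg_right hle hpow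
        _ = (𝒢.card : ℝ) * (1 - γ) ^ (s + 1) := by ring
        _ < 1 := hs
    obtain ⟨Z, hZc, hZ⟩ := ih (𝒢.filter (fun G => ¬ x ∈ G))
      (fun G hGm => hG G (Finset.mem_of_mem_filter G hGm)) hs'
    refine ⟨insert x Z, ?_, fun G hGm => ?_⟩
    · exact (Finset.card_insert_le x Z).trans (by omega)
    · by_cases hxG : x ∈ G
      · exact ⟨x, Finset.mem_insert_self x Z, hxG⟩
      · obtain ⟨y, hyZ, hyG⟩ := hZ G (Finset.mem_filter.mpr ⟨hGm, hxG⟩)
        exact ⟨y, Finset.mem_insert_of_mem hyZ, hyG⟩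

end

end Pool.Agent.Helper906_NullSet
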