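import Pool.Agent.Helper906_NullSet.Defs
import Pool.Agent.Helper906_NullSet.Hitting

set_option autoImplicit false

open Set MeasureTheory Filter Topology
open scoped ContDiff

namespace Pool.Agent.Helper906_NullSet

noncomputable section

set_option maxHeartbeats 4000000

/-- the set of good indices -/
def goodSet (q : ℕ) (η : ℝ) (ρ : ℕ → ℝ) : Finset (Fin q) :=
  open scoped Classical in
  Finset.univ.filter fun i : Fin q => 1 ≤ (i : ℕ) ∧ (i : ℕ) + 2 ≤ q ∧
    ρ ((i : ℕ) + 1) - ρ (i : ℕ) ≤ (1 + η / 2) * ((ρ (q - 1) - ρ 1) / q)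

theorem goodSet_card (q : ℕ) (η : ℝ) (hη : 0 < η) (hη1 : η ≤ 1) (hq : 12 / η ≤ q) (ρ : ℕ → ℝ)
    (hρ : Monotone ρ) : η / 6 * (q : ℝ) ≤ ((goodSet q η ρ).card : ℝ) := by
  classical
  have hq12 : (12 : ℝ) ≤ η * q := by
    rw [div_le_iff₀ hη] at hq; linarith
  have hq12' : (12 : ℝ) ≤ q := by nlinarith
  have hqn : 12 ≤ q := by exact_mod_cast hq12'
  have hqpos : (0 : ℝ) < q := by linarith
  set T : ℝ := (1 + η / 2) * ((ρ (q - 1) - ρ 1) / q) with hT
  set I : Finset ℕ := Finset.Ico 1 (q - 1) with hI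
  have hsum : ∑ i ∈ I, (ρ (i + 1) - ρ i) = ρ (q - 1) - ρ 1 := by
    rw [hI, Finset.sum_Ico_eq_sum_range]
    have h1 := Finset.sum_range_sub (fun i => ρ (1 + i)) (q - 1 - 1)
    have h2 : 1 + (q - 1 - 1) = q - 1 := by omega
    simp only [h2, add_zero] at h1
    rw [← h1]
    refine Finset.sum_congr rfl fun i _ => ?_
    rw [add_assoc]
  have hnn : ∀ i ∈ I, 0 ≤ ρ (i + 1) - ρ i := fun i _ => sub_nonneg.2 (hρ (Nat.le_succ i))
  have hSig : 0 ≤ ρ (q - 1) - ρ 1 := by rw [← hsum]; exact Finset.sum_nonneg hnn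
  set Bd : Finset ℕ := I.filter (fun i => ¬ (ρ (i + 1) - ρ i ≤ T)) with hBd
  set Gd : Finset ℕ := I.filter (fun i => (ρ (i + 1) - ρ i ≤ T)) with hGd
  have hcard : Gd.card + Bd.card = q - 2 := by
    rw [hGd, hBd, Finset.card_filter_add_card_filter_not, hI, Nat.card_Ico]
    omega
  have hB : (Bd.card : ℝ) * (1 + η / 2) ≤ q := by
    rcases hSig.eq_or_lt with h0 | h0
    · have : Bd = ∅ := by
        rw [hBd, Finset.filter_eq_empty_iff]
        intro i hi
        rw [not_not]
        have h1 : ρ (i + 1) - ρ i ≤ ∑ i ∈ I, (ρ (i + 1) - ρ i) :=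
          Finset.single_le_sum hnn hi
        rw [hsum] at h1
        rw [hT, ← h0]
        rw [← h0] at h1
        simpa using h1
      rw [this, Finset.card_empty]
      simp
    · have h1 : (Bd.card : ℝ) * T ≤ ρ (q - 1) - ρ 1 := by
        rw [← hsum]
        calc (Bd.card : ℝ) * T = ∑ i ∈ Bd, T := by rw [Finset.sum_const, nsmul_eq_mul]
          _ ≤ ∑ i ∈ Bd, (ρ (i + 1) - ρ i) := by
              refine Finset.sum_le_sum fun i hi => ?_
              rw [hBd, Finset.mem_filter, not_le] at hi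
              exact hi.2.le
          _ ≤ ∑ i ∈ I, (ρ (i + 1) - ρ i) :=
              Finset.sum_le_sum_of_subset_of_nonneg (Finset.filter_subset _ _)
                (fun i hi _ => hnn i hi)
      have h2 : (Bd.card : ℝ) * T = ((Bd.card : ℝ) * (1 + η / 2) / q) * (ρ (q - 1) - ρ 1) := by
        rw [hT]; ring
      rw [h2] at h1
      have h3 : (Bd.card : ℝ) * (1 + η / 2) / q ≤ 1 := by
        by_contra hcon
        rw [not_le] at hcon
        have := mul_lt_mul_of_pos_right hcon h0
        linarith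
      rwa [div_le_one hqpos] at h3
  have hB2 : (Bd.card : ℝ) ≤ q * (1 - η / 3) := by
    have h1 : (1 : ℝ) ≤ (1 - η / 3) * (1 + η / 2) := by nlinarith
    have h2 : (q : ℝ) ≤ q * ((1 - η / 3) * (1 + η / 2)) := le_mul_of_one_le_right hqpos.le h1
    have h3 : (Bd.card : ℝ) * (1 + η / 2) ≤ (q * (1 - η / 3)) * (1 + η / 2) := by linarith
    exact le_of_mul_le_mul_right h3 (by positivity)
  have hG2 : (Gd.card : ℝ) + (Bd.card : ℝ) = q - 2 := by
    have h : ((Gd.card + Bd.card : ℕ) : ℝ) = ((q - 2 : ℕ) : ℝ) := by rw [hcard]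
    rw [Nat.cast_sub (by omega)] at h
    push_cast at h
    exact h
  have hG3 : Gd.card ≤ (goodSet q η ρ).card := by
    have hsub : Gd ⊆ (goodSet q η ρ).image (fun i : Fin q => (i : ℕ)) := by
      intro i hi
      rw [hGd, Finset.mem_filter, hI, Finset.mem_Ico] at hi
      rw [Finset.mem_image]
      refine ⟨⟨i, by omega⟩, ?_, rfl⟩
      rw [goodSet, Finset.mem_filter]
      exact ⟨Finset.mem_univ _, hi.1.1, by simp only; omega, hi.2⟩
    exact (Finset.card_le_card hsub).trans Finset.card_image_le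
  have hG4 : (Gd.card : ℝ) ≤ ((goodSet q η ρ).card : ℝ) := by exact_mod_cast hG3
  linarith

/-- TARGET F1: one step of the construction of the null set. -/
theorem one_step (C : Set (ℝ → ℝ)) (hmono : ∀ c ∈ C, Monotone c) (hent : SmallEntropy C)
    (A : Finset ℝ) (hA : A.Nonempty) (l : ℝ) (hl : 0 < l) (η : ℝ) (hη : 0 < η) (hη1 : η ≤ 1) :
    ∃ (A' : Finset ℝ) (l' : ℝ), A'.Nonempty ∧ 0 < l' ∧ l' ≤ l / 2 ∧
      (∀ a' ∈ A', ∃ a ∈ A, a ≤ a' ∧ a' + l' ≤ a + l) ∧
      (A'.card : ℝ) * l' ≤ (A.card : ℝ) * l / 2 ∧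
      ∀ c ∈ C, ∀ a ∈ A, ∃ a' ∈ A', a ≤ a' ∧ a' + l' ≤ a + l ∧
        (c (a' + l') - c a') / l' ≤ (1 + η) * ((c (a + l) - c a) / l) := by
  classical
  obtain ⟨ε₀, hε₀, hε⟩ := hent (η ^ 2 * l / 1000) (by positivity)
  have hAc : (1 : ℝ) ≤ (A.card : ℝ) := by exact_mod_cast hA.card_pos
  have hlogA : 0 ≤ Real.log A.card := Real.log_nonneg hAc
  -- the number of subintervals
  obtain ⟨q, hq⟩ := exists_nat_gt (max (12 / η) (max (η * l / ε₀)
    (10 * ((6 / η) * (Real.log A.card + 1) + 2))))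
  have hq1 : 12 / η ≤ q := ((le_max_left _ _).trans hq.le)
  have hq2 : η * l / ε₀ < q := lt_of_le_of_lt ((le_max_left _ _).trans (le_max_right _ _)) hq
  have hq3 : 10 * ((6 / η) * (Real.log A.card + 1) + 2) ≤ q :=
    ((le_max_right _ _).trans (le_max_right _ _)).trans hq.le
  have hq12 : (12 : ℝ) ≤ η * q := by
    rw [div_le_iff₀ hη] at hq1; linarith
  have hq12' : (12 : ℝ) ≤ q := by nlinarith
  have hqn : 12 ≤ q := by exact_mod_cast hq12'
  have hqpos : (0 : ℝ) < q := by linarith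
  set w : ℝ := l / q with hw
  have hwpos : 0 < w := by positivity
  have hqw : (q : ℝ) * w = l := by rw [hw]; field_simp
  set ε : ℝ := η * w / 16 with hεdef
  have hεpos : 0 < ε := by positivity
  have hεw : ε ≤ w := by rw [hεdef]; nlinarith
  have hεlt : ε < ε₀ := by
    rw [div_lt_iff₀ hε₀] at hq2
    rw [hεdef, hw]
    rw [div_lt_iff₀ (by norm_num), mul_div_assoc', div_lt_iff₀ hqpos]
    nlinarith [mul_pos hε₀ hqpos]
  obtain ⟨S, hSmono, hSlog, hSC⟩ := hε ε hεpos hεlt
  -- the size of `S`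
  have hScard : (S.card : ℝ) ≤ Real.exp (0.016 * η * q) := by
    rcases Nat.eq_zero_or_pos S.card with h0 | h0
    · rw [h0]; simpa using (Real.exp_pos _).le
    · have h0' : (0 : ℝ) < S.card := by exact_mod_cast h0
      rw [← Real.log_le_iff_le_exp h0']
      have h1 : ε * (0.016 * η * q) = η ^ 2 * l / 1000 := by
        rw [hεdef]
        calc η * w / 16 * (0.016 * η * q) = η ^ 2 * (q * w) / 1000 := by ring
          _ = _ := by rw [hqw]
      rw [← h1] at hSlog
      exact le_of_mul_le_mul_left hSlog hεpos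
  -- the hitting set
  set s : ℕ := ⌈(6 / η) * (0.016 * η * q + Real.log A.card + 1)⌉₊ with hs
  have hsge : (6 / η) * (0.016 * η * q + Real.log A.card + 1) ≤ s := Nat.le_ceil _
  have hsle : (s : ℝ) ≤ (6 / η) * (0.016 * η * q + Real.log A.card + 1) + 1 := by
    apply (Nat.ceil_lt_add_one _).le
    positivity
  set 𝒢 : Finset (Finset (Fin q)) := (S ×ˢ A).image
    (fun p => goodSet q η (fun i => p.1 (p.2 + i * w))) with h𝒢
  have hρmono : ∀ r ∈ S, ∀ a : ℝ, Monotone (fun i : ℕ => r (a + i * w)) := by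
    intro r hr a i j hij
    apply hSmono r hr
    have : (i : ℝ) ≤ j := by exact_mod_cast hij
    have := mul_le_mul_of_nonneg_right this hwpos.le
    linarith
  have hGc : ∀ G ∈ 𝒢, η / 6 * (Fintype.card (Fin q) : ℝ) ≤ (G.card : ℝ) := by
    intro G hG
    rw [h𝒢, Finset.mem_image] at hG
    obtain ⟨⟨r, a⟩, hp, rfl⟩ := hG
    rw [Finset.mem_product] at hp
    rw [Fintype.card_fin]
    exact goodSet_card q η hη hη1 hq1 _ (hρmono r hp.1 a)
  have h𝒢card : (𝒢.card : ℝ) ≤ Real.exp (0.016 * η * q) * A.card := by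
    have h1 : 𝒢.card ≤ S.card * A.card := by
      rw [h𝒢]
      exact Finset.card_image_le.trans (by rw [Finset.card_product])
    have h2 : (𝒢.card : ℝ) ≤ (S.card : ℝ) * A.card := by exact_mod_cast h1
    exact h2.trans (mul_le_mul_of_nonneg_right hScard (by positivity))
  have hlt : (𝒢.card : ℝ) * (1 - η / 6) ^ s < 1 := by
    have h1 : (1 - η / 6) ^ s ≤ Real.exp (-(η / 6) * s) := by
      have h2 : 1 - η / 6 ≤ Real.exp (-(η / 6)) := by
        have := Real.add_one_le_exp (-(η / 6)); linarith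
      calc (1 - η / 6) ^ s ≤ (Real.exp (-(η / 6))) ^ s :=
            pow_le_pow_left₀ (by linarith) h2 s
        _ = Real.exp (-(η / 6) * s) := by rw [← Real.exp_nat_mul]; ring_nf
    have h3 : -(η / 6) * s ≤ -(0.016 * η * q + Real.log A.card + 1) := by
      have h4 := mul_le_mul_of_nonneg_left hsge (by positivity : (0 : ℝ) ≤ η / 6)
      have h5 : η / 6 * ((6 / η) * (0.016 * η * q + Real.log A.card + 1)) =
          0.016 * η * q + Real.log A.card + 1 := by
        field_simp
      rw [h5] at h4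
      linarith
    have h6 : Real.exp (-(η / 6) * s) ≤ Real.exp (-(0.016 * η * q + Real.log A.card + 1)) :=
      Real.exp_le_exp.2 h3
    have h7 : (0 : ℝ) ≤ (1 - η / 6) ^ s := pow_nonneg (by linarith) s
    calc (𝒢.card : ℝ) * (1 - η / 6) ^ s ≤
          (Real.exp (0.016 * η * q) * A.card) *
            Real.exp (-(0.016 * η * q + Real.log A.card + 1)) :=
            mul_le_mul h𝒢card (h1.trans h6) h7 (by positivity)
      _ = Real.exp (-1) := by
            have h8 : (A.card : ℝ) = Real.exp (Real.log A.card) :=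
              (Real.exp_log (by linarith)).symm
            conv_lhs => rw [h8]
            rw [Real.log_exp, ← Real.exp_add, ← Real.exp_add]
            congr 1
            ring
      _ < 1 := by rw [Real.exp_lt_one_iff]; norm_num
  obtain ⟨Z, hZs, hZ⟩ := hitting (X := Fin q) (η / 6) (by positivity) (by linarith) s 𝒢 hGc hlt
    (by rw [Fintype.card_fin]; omega)
  -- add one element
  set Z' : Finset (Fin q) := insert ⟨0, by omega⟩ Z with hZ'
  have hZ'ne : Z'.Nonempty := ⟨_, Finset.mem_insert_self _ _⟩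
  have hZ'card : (Z'.card : ℝ) ≤ q / 2 := by
    have h1 : Z'.card ≤ s + 1 := (Finset.card_insert_le _ _).trans (by omega)
    have h2 : (Z'.card : ℝ) ≤ s + 1 := by exact_mod_cast h1
    have h3 : (6 / η) * (0.016 * η * q + Real.log A.card + 1) =
        0.096 * q + (6 / η) * (Real.log A.card + 1) := by
      field_simp
      ring
    rw [h3] at hsle
    linarith
  refine ⟨(A ×ˢ Z').image (fun p => p.1 + (p.2 : ℕ) * w + ε), w - 2 * ε, ?_, ?_, ?_, ?_, ?_, ?_⟩
  · exact (hA.product hZ'ne).image _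
  · rw [hεdef]; nlinarith
  · have h1 : w ≤ l / 2 := by
      rw [hw, div_le_div_iff₀ hqpos (by norm_num)]
      nlinarith
    linarith
  · intro a' ha'
    rw [Finset.mem_image] at ha'
    obtain ⟨⟨a, i⟩, hp, rfl⟩ := ha'
    rw [Finset.mem_product] at hp
    refine ⟨a, hp.1, ?_, ?_⟩
    · have : (0 : ℝ) ≤ ((i : ℕ) : ℝ) * w := by positivity
      simp only
      linarith
    · have h1 : ((i : ℕ) : ℝ) + 1 ≤ q := by
        have := i.2
        exact_mod_cast this
      have h2 := mul_le_mul_of_nonneg_right h1 hwpos.le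
      rw [hqw] at h2
      simp only
      linarith
  · have h1 : ((A ×ˢ Z').image (fun p : ℝ × Fin q => p.1 + (p.2 : ℕ) * w + ε)).card ≤
        A.card * Z'.card := Finset.card_image_le.trans (by rw [Finset.card_product])
    have h2 : (((A ×ˢ Z').image (fun p : ℝ × Fin q => p.1 + (p.2 : ℕ) * w + ε)).card : ℝ) ≤
        (A.card : ℝ) * (Z'.card : ℝ) := by exact_mod_cast h1
    have h3 : 0 ≤ w - 2 * ε := by rw [hεdef]; nlinarith
    calc (((A ×ˢ Z').image (fun p : ℝ × Fin q => p.1 + (p.2 : ℕ) * w + ε)).card : ℝ) *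
          (w - 2 * ε) ≤ ((A.card : ℝ) * (Z'.card : ℝ)) * w :=
            mul_le_mul h2 (by linarith) h3 (by positivity)
      _ ≤ ((A.card : ℝ) * (q / 2)) * w := by
            apply mul_le_mul_of_nonneg_right _ hwpos.le
            exact mul_le_mul_of_nonneg_left hZ'card (by positivity)
      _ = (A.card : ℝ) * (q * w) / 2 := by ring
      _ = _ := by rw [hqw]
  · intro c hc a ha
    obtain ⟨r, hrS, hr⟩ := hSC c hc
    have hGmem : goodSet q η (fun i => r (a + i * w)) ∈ 𝒢 := by
      rw [h𝒢, Finset.mem_image]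
      exact ⟨(r, a), Finset.mem_product.2 ⟨hrS, ha⟩, rfl⟩
    obtain ⟨i, hiZ, hiG⟩ := hZ _ hGmem
    rw [goodSet, Finset.mem_filter] at hiG
    obtain ⟨-, hi1, hi2, hi3⟩ := hiG
    have hi0 : (0 : ℝ) ≤ ((i : ℕ) : ℝ) * w := by positivity
    have h1 : ((i : ℕ) : ℝ) + 1 ≤ q := by
      have := i.2
      exact_mod_cast this
    have h2 := mul_le_mul_of_nonneg_right h1 hwpos.le
    rw [hqw] at h2
    refine ⟨a + (i : ℕ) * w + ε, ?_, ?_, ?_, ?_⟩
    · rw [Finset.mem_image]
      exact ⟨(a, i), Finset.mem_product.2 ⟨ha, Finset.mem_insert_of_mem hiZ⟩, rfl⟩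
    · linarith
    · linarith
    · -- the increment of `c`
      have e1 : c (a + (i : ℕ) * w + ε + (w - 2 * ε)) ≤ r (a + ((i : ℕ) + 1 : ℕ) * w) := by
        have := (hr (a + (i : ℕ) * w + ε + (w - 2 * ε))).2
        refine this.trans (le_of_eq ?_)
        congr 1
        push_cast
        ring
      have e2 : r (a + (i : ℕ) * w) ≤ c (a + (i : ℕ) * w + ε) := by
        have := (hr (a + (i : ℕ) * w + ε)).1
        refine le_trans (le_of_eq ?_) this
        congr 1
        ring
      have e3 : r (a + ((q - 1 : ℕ) : ℝ) * w) ≤ c (a + l) := by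
        have h3 := (hr (a + ((q - 1 : ℕ) : ℝ) * w + ε)).1
        have h4 : a + ((q - 1 : ℕ) : ℝ) * w + ε - ε = a + ((q - 1 : ℕ) : ℝ) * w := by ring
        rw [h4] at h3
        refine h3.trans (hmono c hc ?_)
        have h6 : ((q - 1 : ℕ) : ℝ) * w = l - w := by
          rw [Nat.cast_sub (by omega), Nat.cast_one, sub_mul, hqw, one_mul]
        rw [h6]
        linarith
      have e4 : c a ≤ r (a + ((1 : ℕ) : ℝ) * w) := by
        have h3 := (hr (a + ((1 : ℕ) : ℝ) * w - ε)).2
        have h4 : a + ((1 : ℕ) : ℝ) * w - ε + ε = a + ((1 : ℕ) : ℝ) * w := by ring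
        rw [h4] at h3
        refine le_trans (hmono c hc ?_) h3
        push_cast
        linarith
      set D : ℝ := c (a + l) - c a with hD
      have hD0 : 0 ≤ D := sub_nonneg.2 (hmono c hc (by linarith))
      have e5 : c (a + (i : ℕ) * w + ε + (w - 2 * ε)) - c (a + (i : ℕ) * w + ε) ≤
          (1 + η / 2) * (D / q) := by
        have h5 : (1 + η / 2) * ((r (a + ((q - 1 : ℕ) : ℝ) * w) - r (a + ((1 : ℕ) : ℝ) * w)) / q) ≤
            (1 + η / 2) * (D / q) := by
          apply mul_le_mul_of_nonneg_left _ (by positivity)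
          apply div_le_div_of_nonneg_right _ hqpos.le
          linarith
        linarith
      have hl' : 0 < w - 2 * ε := by rw [hεdef]; nlinarith
      rw [div_le_iff₀ hl']
      refine e5.trans ?_
      have e6 : (1 + η) * (D / l) * (w - 2 * ε) = (1 + η) * (1 - η / 8) * (D / q) := by
        have : w - 2 * ε = (1 - η / 8) * (l / q) := by rw [hεdef, hw]; ring
        rw [this]
        field_simp
      rw [e6]
      apply mul_le_mul_of_nonneg_right _ (by positivity)
      nlinarith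

end

end Pool.Agent.Helper906_NullSet
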