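import Pool.Agent.Helper906_NullSet.Cantor1

set_option autoImplicit false

open Set MeasureTheory Filter Topology
open scoped ContDiff

namespace Pool.Agent.Helper906_NullSet

noncomputable section

theorem auxF2_log (n1 n2 : ℕ) : Real.log ((n1 + n2 : ℕ) : ℝ) ≤
    Real.log 2 + Real.log n1 + Real.log n2 := by
  have h2 : 0 < Real.log 2 := Real.log_pos (by norm_num)
  rcases Nat.eq_zero_or_pos n1 with h | h
  · subst h
    simp only [zero_add, Nat.cast_zero, Real.log_zero]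
    linarith
  rcases Nat.eq_zero_or_pos n2 with h' | h'
  · subst h'
    simp only [add_zero, Nat.cast_zero, Real.log_zero]
    linarith
  have h1' : (1 : ℝ) ≤ n1 := by exact_mod_cast h
  have h2' : (1 : ℝ) ≤ n2 := by exact_mod_cast h'
  rw [← Real.log_mul (by norm_num) (by positivity), ← Real.log_mul (by positivity) (by positivity)]
  apply Real.log_le_log (by positivity)
  push_cast
  nlinarith

theorem auxF2_union (C C' : Set (ℝ → ℝ)) (h : SmallEntropy C) (h' : SmallEntropy C') :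
    SmallEntropy (C ∪ C') := by
  classical
  intro θ hθ
  obtain ⟨e1, he1, h1⟩ := h (θ / 3) (by positivity)
  obtain ⟨e2, he2, h2⟩ := h' (θ / 3) (by positivity)
  have hl2 : 0 < Real.log 2 := Real.log_pos (by norm_num)
  refine ⟨min (min e1 e2) (θ / (3 * Real.log 2)), by positivity, ?_⟩
  intro ε hε hε'
  have hε1 : ε < e1 := lt_of_lt_of_le hε' ((min_le_left _ _).trans (min_le_left _ _))
  have hε2 : ε < e2 := lt_of_lt_of_le hε' ((min_le_left _ _).trans (min_le_right _ _))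
  have hε3 : ε < θ / (3 * Real.log 2) := lt_of_lt_of_le hε' (min_le_right _ _)
  obtain ⟨S1, a1, b1, c1⟩ := h1 ε hε hε1
  obtain ⟨S2, a2, b2, c2⟩ := h2 ε hε hε2
  refine ⟨S1 ∪ S2, ?_, ?_, ?_⟩
  · intro r hr
    rcases Finset.mem_union.mp hr with hr | hr
    · exact a1 r hr
    · exact a2 r hr
  · have h3 : ε * Real.log 2 ≤ θ / 3 := by
      rw [lt_div_iff₀ (by positivity)] at hε3
      linarith
    have h4 : Real.log ((S1 ∪ S2).card : ℝ) ≤ Real.log 2 + Real.log S1.card + Real.log S2.card := by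
      rcases Nat.eq_zero_or_pos (S1 ∪ S2).card with h0 | h0
      · have e1 : S1 ∪ S2 = ∅ := Finset.card_eq_zero.mp h0
        have e2 : S1 = ∅ := (Finset.union_eq_empty.mp e1).1
        have e3 : S2 = ∅ := (Finset.union_eq_empty.mp e1).2
        rw [e2, e3]
        simp only [Finset.union_empty, Finset.card_empty, Nat.cast_zero, Real.log_zero, add_zero]
        exact hl2.le
      · refine le_trans ?_ (auxF2_log S1.card S2.card)
        apply Real.log_le_log (by exact_mod_cast h0)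
        exact_mod_cast Finset.card_union_le S1 S2
    calc ε * Real.log ((S1 ∪ S2).card : ℝ)
        ≤ ε * (Real.log 2 + Real.log S1.card + Real.log S2.card) :=
          mul_le_mul_of_nonneg_left h4 hε.le
      _ ≤ θ := by linarith
  · rintro c (hc | hc)
    · obtain ⟨r, hr, hr'⟩ := c1 c hc
      exact ⟨r, Finset.mem_union_left _ hr, hr'⟩
    · obtain ⟨r, hr, hr'⟩ := c2 c hc
      exact ⟨r, Finset.mem_union_right _ hr, hr'⟩

theorem auxF2_entropy (C : ℕ → Set (ℝ → ℝ)) (hent : ∀ j, SmallEntropy (C j)) (m : ℕ) :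
    SmallEntropy {c | ∃ j ≤ m, c ∈ C j} := by
  induction m with
  | zero =>
    have : {c | ∃ j ≤ 0, c ∈ C j} = C 0 := by
      ext c
      simp
    rw [this]
    exact hent 0
  | succ m ih =>
    have : {c | ∃ j ≤ m + 1, c ∈ C j} = {c | ∃ j ≤ m, c ∈ C j} ∪ C (m + 1) := by
      ext c
      constructor
      · rintro ⟨j, hj, hc⟩
        rcases Nat.lt_or_ge j (m + 1) with h | h
        · exact Or.inl ⟨j, by omega, hc⟩
        · have : j = m + 1 := by omega
          exact Or.inr (this ▸ hc)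
      · rintro (⟨j, hj, hc⟩ | hc)
        · exact ⟨j, by omega, hc⟩
        · exact ⟨m + 1, le_rfl, hc⟩
    rw [this]
    exact auxF2_union _ _ ih (hent (m + 1))

/-- TARGET F2: the compact null set.
Proof.  First, `SmallEntropy` passes to unions of two classes (use `θ/2` for both, add `log 2`: `log(m+n) ≤ log 2 + max`;
beware of `card = 0`), hence to `C 0 ∪ ... ∪ C m`.  Iterate `one_step` from `A_0 = {1}`, `l_0 = 1` with `η_m = 2^{-(m+1)}` and the
class `C 0 ∪ ... ∪ C m` at stage `m`: get `(A_m, l_m)`, `l_m ≤ 2^{-m}`, `#A_m · l_m ≤ 2^{-m}`.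
`K_m = ⋃_{a ∈ A_m} [a, a+l_m]` is compact, decreasing, contained in `[1,2]`, of measure `≤ 2^{-m}`.  `K = ⋂ K_m`.
For `c ∈ C j`: choose `a_j ∈ A_j` and inductively `a_{m+1} ∈ A_{m+1}` for `m ≥ j` by the last clause of `one_step`; the quotients
`Q_m = (c(a_m+l_m) - c(a_m))/l_m` satisfy `Q_{m+1} ≤ (1+η_m) Q_m`, so `Q_m ≤ e Q_j` (`∏(1+η_m) ≤ exp(∑ η_m) ≤ e`); the intervals
`[a_m, a_m+l_m]` are nested, their common point `a` is in `K` (for `m < j` use that `K_j ⊆ K_m`), `T = e Q_j + 1`, and for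
`δ > 0` take `α = a_m`, `β = a_m + l_m` with `l_m < δ`, `m ≥ j`. -/
theorem exists_null_set (C : ℕ → Set (ℝ → ℝ)) (hmono : ∀ j, ∀ c ∈ C j, Monotone c)
    (hent : ∀ j, SmallEntropy (C j)) :
    ∃ K : Set ℝ, IsCompact K ∧ K ⊆ Icc 1 2 ∧ volume K = 0 ∧
      ∀ j, ∀ c ∈ C j, ∃ a ∈ K, ∃ T : ℝ, 0 < T ∧ ∀ δ : ℝ, 0 < δ → ∃ α β : ℝ,
        1 ≤ α ∧ α ≤ a ∧ a ≤ β ∧ β ≤ 2 ∧ α < β ∧ β - α < δ ∧ c β - c α ≤ T * (β - α) := by
  classical
  have hDmono : ∀ m, ∀ c ∈ {c | ∃ j ≤ m, c ∈ C j}, Monotone c := by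
    rintro m c ⟨j, _, hc⟩
    exact hmono j c hc
  have hDent := auxF2_entropy C hent
  -- the construction
  have step : ∀ (m : ℕ) (p : {p : Finset ℝ × ℝ // p.1.Nonempty ∧ 0 < p.2}),
      ∃ q : {p : Finset ℝ × ℝ // p.1.Nonempty ∧ 0 < p.2}, q.1.2 ≤ p.1.2 / 2 ∧
        (∀ a' ∈ q.1.1, ∃ a ∈ p.1.1, a ≤ a' ∧ a' + q.1.2 ≤ a + p.1.2) ∧
        ((q.1.1.card : ℝ) * q.1.2 ≤ (p.1.1.card : ℝ) * p.1.2 / 2) ∧
        ∀ c ∈ {c | ∃ j ≤ m, c ∈ C j}, ∀ a ∈ p.1.1, ∃ a' ∈ q.1.1, a ≤ a' ∧ a' + q.1.2 ≤ a + p.1.2 ∧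
          (c (a' + q.1.2) - c a') / q.1.2 ≤
            (1 + (1 / 2) ^ (m + 1)) * ((c (a + p.1.2) - c a) / p.1.2) := by
    rintro m ⟨⟨A, l⟩, hA, hl⟩
    obtain ⟨A', l', h1, h2, h3, h4, h5, h6⟩ := one_step _ (hDmono m) (hDent m) A hA l hl
      ((1 / 2) ^ (m + 1)) (by positivity) (pow_le_one₀ (by norm_num) (by norm_num))
    exact ⟨⟨(A', l'), h1, h2⟩, h3, h4, h5, h6⟩
  choose f hf1 hf2 hf3 hf4 using step
  let s0 : {p : Finset ℝ × ℝ // p.1.Nonempty ∧ 0 < p.2} :=
    ⟨({1}, 1), Finset.singleton_nonempty 1, one_pos⟩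
  let s : ℕ → {p : Finset ℝ × ℝ // p.1.Nonempty ∧ 0 < p.2} := fun n => Nat.rec s0 (fun m p => f m p) n
  have hs0 : s 0 = s0 := rfl
  have hs : ∀ m, s (m + 1) = f m (s m) := fun m => rfl
  obtain ⟨A, hA⟩ : ∃ A : ℕ → Finset ℝ, ∀ m, A m = (s m).1.1 := ⟨_, fun _ => rfl⟩
  obtain ⟨l, hl⟩ : ∃ l : ℕ → ℝ, ∀ m, l m = (s m).1.2 := ⟨_, fun _ => rfl⟩
  have A0 : A 0 = {1} := by rw [hA, hs0]
  have l0 : l 0 = 1 := by rw [hl, hs0]
  have Ane : ∀ m, (A m).Nonempty := fun m => by rw [hA]; exact (s m).2.1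
  have lpos : ∀ m, 0 < l m := fun m => by rw [hl]; exact (s m).2.2
  have lhalf : ∀ m, l (m + 1) ≤ l m / 2 := fun m => by rw [hl, hl, hs]; exact hf1 m (s m)
  have nest : ∀ m, ∀ a' ∈ A (m + 1), ∃ a ∈ A m, a ≤ a' ∧ a' + l (m + 1) ≤ a + l m := fun m => by
    rw [hA, hA, hl, hl, hs]; exact hf2 m (s m)
  have meas : ∀ m, ((A (m + 1)).card : ℝ) * l (m + 1) ≤ ((A m).card : ℝ) * l m / 2 := fun m => by
    rw [hA, hA, hl, hl, hs]; exact hf3 m (s m)
  have quo : ∀ m, ∀ c ∈ {c | ∃ j ≤ m, c ∈ C j}, ∀ a ∈ A m, ∃ a' ∈ A (m + 1), a ≤ a' ∧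
      a' + l (m + 1) ≤ a + l m ∧ (c (a' + l (m + 1)) - c a') / l (m + 1) ≤
        (1 + (1 / 2) ^ (m + 1)) * ((c (a + l m) - c a) / l m) := fun m => by
    rw [hA, hA, hl, hl, hs]; exact hf4 m (s m)
  clear_value s
  clear hA hl hs hs0 hf1 hf2 hf3 hf4
  have lpow : ∀ m, l m ≤ (1 / 2) ^ m := by
    intro m
    induction m with
    | zero => rw [l0]; simp
    | succ m ih =>
      rw [pow_succ]
      linarith [lhalf m]
  have mpow : ∀ m, ((A m).card : ℝ) * l m ≤ (1 / 2) ^ m := by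
    intro m
    induction m with
    | zero => rw [l0, A0]; simp
    | succ m ih =>
      rw [pow_succ]
      linarith [meas m]
  -- the sets
  let Km : ℕ → Set ℝ := fun m => ⋃ a ∈ A m, Icc a (a + l m)
  have hKmem : ∀ m x, x ∈ Km m ↔ ∃ a ∈ A m, a ≤ x ∧ x ≤ a + l m := by
    intro m x
    simp only [Km, mem_iUnion, mem_Icc, exists_prop]
  have hKc : ∀ m, IsCompact (Km m) := fun m => (A m).isCompact_biUnion fun a _ => isCompact_Icc
  have hKsub : ∀ m, Km (m + 1) ⊆ Km m := by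
    intro m x hx
    rw [hKmem] at hx ⊢
    obtain ⟨a', ha', h1, h2⟩ := hx
    obtain ⟨a, ha, h3, h4⟩ := nest m a' ha'
    exact ⟨a, ha, by linarith, by linarith⟩
  have hKanti : Antitone Km := antitone_nat_of_succ_le hKsub
  have hK0 : Km 0 = Icc 1 2 := by
    ext x
    rw [hKmem, A0, l0, mem_Icc]
    simp only [Finset.mem_singleton, exists_eq_left]
    norm_num
  have hKvol : ∀ m, volume (Km m) ≤ ENNReal.ofReal ((1 / 2) ^ m) := by
    intro m
    calc volume (Km m) ≤ ∑ a ∈ A m, volume (Icc a (a + l m)) := measure_biUnion_finset_le _ _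
      _ = ∑ a ∈ A m, ENNReal.ofReal (l m) := by
          refine Finset.sum_congr rfl fun a _ => ?_
          rw [Real.volume_Icc]
          congr 1
          ring
      _ = ENNReal.ofReal (((A m).card : ℝ) * l m) := by
          rw [Finset.sum_const, nsmul_eq_mul, ENNReal.ofReal_mul (by positivity),
            ENNReal.ofReal_natCast]
      _ ≤ ENNReal.ofReal ((1 / 2) ^ m) := ENNReal.ofReal_le_ofReal (mpow m)
  refine ⟨⋂ m, Km m, ?_, ?_, ?_, ?_⟩
  · exact (hKc 0).of_isClosed_subset (isClosed_iInter fun m => (hKc m).isClosed)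
      (iInter_subset _ 0)
  · rw [← hK0]
    exact iInter_subset _ 0
  · have hle : ∀ m, volume (⋂ m, Km m) ≤ ENNReal.ofReal ((1 / 2) ^ m) := fun m =>
      (measure_mono (iInter_subset _ m)).trans (hKvol m)
    have hlim : Tendsto (fun m : ℕ => ENNReal.ofReal ((1 / 2 : ℝ) ^ m)) atTop (𝓝 0) := by
      rw [← ENNReal.ofReal_zero]
      exact ENNReal.tendsto_ofReal (tendsto_pow_atTop_nhds_zero_of_lt_one (by norm_num)
        (by norm_num))
    exact le_antisymm (ge_of_tendsto' hlim hle) bot_le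
  · intro j c hc
    have hcm : Monotone c := hmono j c hc
    have hcD : ∀ n, c ∈ {c | ∃ i ≤ j + n, c ∈ C i} := fun n => ⟨j, by omega, hc⟩
    have step2 : ∀ (n : ℕ) (a : {a // a ∈ A (j + n)}), ∃ a' : {a // a ∈ A (j + (n + 1))},
        a.1 ≤ a'.1 ∧ a'.1 + l (j + n + 1) ≤ a.1 + l (j + n) ∧
        (c (a'.1 + l (j + n + 1)) - c a'.1) / l (j + n + 1) ≤
          (1 + (1 / 2) ^ (j + n + 1)) * ((c (a.1 + l (j + n)) - c a.1) / l (j + n)) := by
      rintro n ⟨a, ha⟩
      obtain ⟨a', ha', h1, h2, h3⟩ := quo (j + n) c (hcD n) a ha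
      exact ⟨⟨a', ha'⟩, h1, h2, h3⟩
    choose g hg1 hg2 hg3 using step2
    obtain ⟨a0, ha0⟩ := Ane j
    let t : (n : ℕ) → {a // a ∈ A (j + n)} := fun n => Nat.rec ⟨a0, ha0⟩ (fun n a => g n a) n
    have ht : ∀ n, t (n + 1) = g n (t n) := fun n => rfl
    obtain ⟨b, hb⟩ : ∃ b : ℕ → ℝ, ∀ n, b n = (t n).1 := ⟨_, fun _ => rfl⟩
    have bmem : ∀ n, b n ∈ A (j + n) := fun n => by rw [hb]; exact (t n).2
    have b1 : ∀ n, b n ≤ b (n + 1) := fun n => by rw [hb, hb, ht]; exact hg1 n (t n)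
    have b2 : ∀ n, b (n + 1) + l (j + n + 1) ≤ b n + l (j + n) := fun n => by
      rw [hb, hb, ht]; exact hg2 n (t n)
    have b3 : ∀ n, (c (b (n + 1) + l (j + n + 1)) - c (b (n + 1))) / l (j + n + 1) ≤
        (1 + (1 / 2) ^ (j + n + 1)) * ((c (b n + l (j + n)) - c (b n)) / l (j + n)) := fun n => by
      rw [hb, hb, ht]; exact hg3 n (t n)
    clear_value t
    clear ht hb hg1 hg2 hg3
    have bmono : Monotone b := monotone_nat_of_le_succ b1
    have btop : Antitone (fun n => b n + l (j + n)) := antitone_nat_of_succ_le b2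
    have bbd : ∀ n k, b k ≤ b n + l (j + n) := by
      intro n k
      rcases le_total k n with h | h
      · have := bmono h
        have := lpos (j + n)
        linarith
      · have h1 := btop h
        simp only at h1
        have := lpos (j + k)
        linarith
    have hbdd : BddAbove (range b) := ⟨b 0 + l (j + 0), by
      rintro _ ⟨k, rfl⟩
      exact bbd 0 k⟩
    set a := ⨆ n, b n with ha
    have ha1 : ∀ n, b n ≤ a := fun n => le_ciSup hbdd n
    have ha2 : ∀ n, a ≤ b n + l (j + n) := fun n => ciSup_le (bbd n)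
    have haK : ∀ m, a ∈ Km m := by
      intro m
      have h1 : a ∈ Km (j + m) := (hKmem _ _).mpr ⟨b m, bmem m, ha1 m, ha2 m⟩
      exact hKanti (by omega : m ≤ j + m) h1
    -- the quotients
    have hQ0 : ∀ n, 0 ≤ (c (b n + l (j + n)) - c (b n)) / l (j + n) := by
      intro n
      have h1 := lpos (j + n)
      have h2 : c (b n) ≤ c (b n + l (j + n)) := hcm (by linarith)
      apply div_nonneg (by linarith) h1.le
    have hQ : ∀ n, (c (b n + l (j + n)) - c (b n)) / l (j + n) ≤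
        Real.exp (1 - (1 / 2) ^ n) * ((c (b 0 + l (j + 0)) - c (b 0)) / l (j + 0)) := by
      intro n
      induction n with
      | zero => simp
      | succ n ih =>
        have h1 : (1 : ℝ) + (1 / 2) ^ (j + n + 1) ≤ Real.exp ((1 / 2) ^ (n + 1)) := by
          have h2 : ((1 : ℝ) / 2) ^ (j + n + 1) ≤ (1 / 2) ^ (n + 1) :=
            pow_le_pow_of_le_one (by norm_num) (by norm_num) (by omega)
          have h3 := Real.add_one_le_exp (((1 : ℝ) / 2) ^ (n + 1))
          linarith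
        have h4 : Real.exp (1 - (1 / 2) ^ (n + 1)) =
            Real.exp ((1 / 2) ^ (n + 1)) * Real.exp (1 - (1 / 2) ^ n) := by
          rw [← Real.exp_add]
          congr 1
          rw [pow_succ]
          ring
        calc (c (b (n + 1) + l (j + (n + 1))) - c (b (n + 1))) / l (j + (n + 1))
            ≤ (1 + (1 / 2) ^ (j + n + 1)) * ((c (b n + l (j + n)) - c (b n)) / l (j + n)) := b3 n
          _ ≤ Real.exp ((1 / 2) ^ (n + 1)) * ((c (b n + l (j + n)) - c (b n)) / l (j + n)) :=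
              mul_le_mul_of_nonneg_right h1 (hQ0 n)
          _ ≤ Real.exp ((1 / 2) ^ (n + 1)) * (Real.exp (1 - (1 / 2) ^ n) *
                ((c (b 0 + l (j + 0)) - c (b 0)) / l (j + 0))) :=
              mul_le_mul_of_nonneg_left ih (Real.exp_pos _).le
          _ = _ := by rw [h4, mul_assoc]
    refine ⟨a, mem_iInter.mpr haK,
      Real.exp 1 * ((c (b 0 + l (j + 0)) - c (b 0)) / l (j + 0)) + 1, ?_, ?_⟩
    · have := hQ0 0
      positivity
    · intro δ hδ
      obtain ⟨n, hn⟩ := exists_pow_lt_of_lt_one hδ (by norm_num : (1 / 2 : ℝ) < 1)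
      have hln : l (j + n) < δ := by
        have h1 : ((1 : ℝ) / 2) ^ (j + n) ≤ (1 / 2) ^ n :=
          pow_le_pow_of_le_one (by norm_num) (by norm_num) (by omega)
        linarith [lpow (j + n)]
      have hlp := lpos (j + n)
      have m1 : b n ∈ Km 0 := hKanti (Nat.zero_le (j + n))
        ((hKmem _ _).mpr ⟨b n, bmem n, le_rfl, by linarith⟩)
      have m2 : b n + l (j + n) ∈ Km 0 := hKanti (Nat.zero_le (j + n))
        ((hKmem _ _).mpr ⟨b n, bmem n, by linarith, le_rfl⟩)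
      rw [hK0, mem_Icc] at m1 m2
      refine ⟨b n, b n + l (j + n), m1.1, ha1 n, ha2 n, m2.2, by linarith, by linarith, ?_⟩
      have e1 : b n + l (j + n) - b n = l (j + n) := by ring
      rw [e1]
      have h5 := hQ n
      rw [div_le_iff₀ hlp] at h5
      have h6 : Real.exp (1 - (1 / 2) ^ n) ≤ Real.exp 1 := by
        apply Real.exp_le_exp.mpr
        have : (0 : ℝ) ≤ (1 / 2) ^ n := by positivity
        linarith
      have h7 := mul_le_mul_of_nonneg_right h6 (hQ0 0)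
      have h8 : Real.exp (1 - (1 / 2) ^ n) * ((c (b 0 + l (j + 0)) - c (b 0)) / l (j + 0)) *
          l (j + n) ≤ Real.exp 1 * ((c (b 0 + l (j + 0)) - c (b 0)) / l (j + 0)) * l (j + n) :=
        mul_le_mul_of_nonneg_right h7 hlp.le
      nlinarith

end

end Pool.Agent.Helper906_NullSet
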