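import Mathlib

/-!
Definitions for the disproof of the null set version of the Hamiltonian Seifert problem.
`E` is a finite dimensional complex inner product space, considered also with its real inner
product `re ⟪x, y⟫`; the Hamiltonian vector field of `F` is `i ∇F`.
-/

set_option autoImplicit false

open Set MeasureTheory Filter Topology
open scoped ContDiff

namespace Pool.Agent.Helper906_NullSet

noncomputable section

/-- A class of functions of one real variable has small entropy: for every `θ > 0` and every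
small `ε > 0` it is covered by finitely many monotone functions, in the sense of shifts of the
argument by `ε`, the logarithm of their number being at most `θ / ε`. -/
def SmallEntropy (C : Set (ℝ → ℝ)) : Prop :=
  ∀ θ : ℝ, 0 < θ → ∃ ε₀ : ℝ, 0 < ε₀ ∧ ∀ ε : ℝ, 0 < ε → ε < ε₀ →
    ∃ S : Finset (ℝ → ℝ), (∀ r ∈ S, Monotone r) ∧ ε * Real.log S.card ≤ θ ∧
      ∀ c ∈ C, ∃ r ∈ S, ∀ b : ℝ, r (b - ε) ≤ c b ∧ c b ≤ r (b + ε)

section

attribute [local instance] InnerProductSpace.complexToReal

variable {E : Type*} [NormedAddCommGroup E] [InnerProductSpace ℂ E] [CompleteSpace E]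

/-- The gradient of a real function for the real inner product `re ⟪x, y⟫`. -/
def grad (F : E → ℝ) (x : E) : E := (InnerProductSpace.toDual ℝ E).symm (fderiv ℝ F x)

theorem inner_grad (F : E → ℝ) (x w : E) : inner ℝ (grad F x) w = fderiv ℝ F x w := by
  simp [grad]

theorem re_inner_grad (F : E → ℝ) (x w : E) : (inner ℂ (grad F x) w).re = fderiv ℝ F x w :=
  inner_grad F x w

/-- `x` is a trajectory of the Hamiltonian vector field `i ∇F`. -/
def IsTraj (F : E → ℝ) (x : ℝ → E) : Prop :=
  ∀ t, HasDerivAt x (Complex.I • grad F (x t)) t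

/-- `m` is the oscillation of an admissible function for `U`. -/
def Adm (U : Set E) (m : ℝ) : Prop :=
  ∃ F : E → ℝ, ContDiff ℝ ∞ F ∧ (∀ x, 0 ≤ F x ∧ F x ≤ m) ∧ (∃ z : E, ∀ᶠ x in 𝓝 z, F x = 0) ∧
    (∃ C : Set E, IsCompact C ∧ C ⊆ U ∧ ∀ x, x ∉ C → F x = m) ∧
    ∀ (x : ℝ → E) (τ : ℝ), 0 < τ → τ ≤ 1 → IsTraj F x → (∀ t, x (t + τ) = x t) →
      ∀ t, x t = x 0

/-- The (Hofer-Zehnder) capacity. -/
def cap (U : Set E) : ℝ := sSup {m | Adm U m}

/-- The capacity of the sublevel sets of `H` in the ball of radius `R`. -/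
def capH (R : ℝ) (H : E → ℝ) (b : ℝ) : ℝ := cap ({x | H x < b} ∩ Metric.ball (0 : E) R)

end

end

end Pool.Agent.Helper906_NullSet
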