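import Mathlib

set_option autoImplicit false

open Set MeasureTheory Filter Topology
open scoped ContDiff

namespace Pool.Agent.Helper906_NullSet

noncomputable section

/-- Rounding in a finite dimensional normed space. -/
theorem rounding {V : Type*} [NormedAddCommGroup V] [NormedSpace ℝ V] [FiniteDimensional ℝ V]
    (B : ℝ) : ∃ C : ℝ, 1 ≤ C ∧ ∀ σ : ℝ, 0 < σ → σ ≤ 1 →
      ∃ (N : ℕ) (r : V → Fin N), (N : ℝ) ≤ (C / σ) ^ Module.finrank ℝ V ∧
        ∀ v w : V, ‖v‖ ≤ B → ‖w‖ ≤ B → r v = r w → ‖v - w‖ ≤ σ := by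
  classical
  set d := Module.finrank ℝ V with hd
  let e : V ≃L[ℝ] (Fin d → ℝ) :=
    ContinuousLinearEquiv.ofFinrankEq (by rw [Module.finrank_fin_fun])
  obtain ⟨K, hK1, hK⟩ : ∃ K : ℝ, 1 ≤ K ∧ ∀ v : V, ‖e v‖ ≤ K * ‖v‖ := by
    refine ⟨max 1 ‖(e : V →L[ℝ] (Fin d → ℝ))‖, le_max_left _ _, fun v => ?_⟩
    exact ((e : V →L[ℝ] (Fin d → ℝ)).le_opNorm v).trans
      (mul_le_mul_of_nonneg_right (le_max_right _ _) (norm_nonneg _))
  obtain ⟨K', hK1', hK'⟩ : ∃ K' : ℝ, 1 ≤ K' ∧ ∀ v : V, ‖v‖ ≤ K' * ‖e v‖ := by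
    refine ⟨max 1 ‖(e.symm : (Fin d → ℝ) →L[ℝ] V)‖, le_max_left _ _, fun v => ?_⟩
    have h := (e.symm : (Fin d → ℝ) →L[ℝ] V).le_opNorm (e v)
    have h' : (e.symm : (Fin d → ℝ) →L[ℝ] V) (e v) = v := e.symm_apply_apply v
    rw [h'] at h
    exact h.trans (mul_le_mul_of_nonneg_right (le_max_right _ _) (norm_nonneg _))
  set B' : ℝ := max B 0 with hB'
  have hB'0 : 0 ≤ B' := le_max_right _ _
  refine ⟨2 * K * K' * B' + 3, by positivity |> fun (h : 0 ≤ 2 * K * K' * B') => by linarith,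
    fun σ hσ hσ1 => ?_⟩
  have hδ : 0 < σ / K' := by positivity
  set δ := σ / K' with hδd
  set m : ℕ := ⌈K * B' / δ⌉₊ with hm
  let r0 : V → (Fin d → Fin (2 * m + 1)) := fun v i =>
    ⟨min (⌊e v i / δ⌋ + m).toNat (2 * m), by omega⟩
  let r : V → Fin (Fintype.card (Fin d → Fin (2 * m + 1))) := fun v => Fintype.equivFin _ (r0 v)
  refine ⟨_, r, ?_, ?_⟩
  · rw [Fintype.card_fun, Fintype.card_fin, Fintype.card_fin]
    push_cast
    refine pow_le_pow_left₀ (by positivity) ?_ d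
    have h1 : (m : ℝ) < K * B' / δ + 1 := Nat.ceil_lt_add_one (by positivity)
    have h2 : K * B' / δ = K * K' * B' / σ := by
      rw [hδd]
      field_simp
    rw [h2] at h1
    have h3 : (2 * K * K' * B' + 3) / σ = 2 * (K * K' * B' / σ) + 3 / σ := by ring
    have h4 : 3 ≤ 3 / σ := by
      rw [le_div_iff₀ hσ]
      nlinarith
    rw [h3]
    linarith
  · intro v w hv hw hvw
    have hvw' : r0 v = r0 w := (Fintype.equivFin _).injective hvw
    have key : ∀ u : V, ‖u‖ ≤ B → ∀ i, (-(m : ℤ) ≤ ⌊e u i / δ⌋ ∧ ⌊e u i / δ⌋ ≤ m) := by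
      intro u hu i
      have h1 : |e u i| ≤ K * B' := by
        have := norm_le_pi_norm (e u) i
        rw [Real.norm_eq_abs] at this
        refine this.trans ((hK u).trans ?_)
        exact mul_le_mul_of_nonneg_left (hu.trans (le_max_left _ _)) (by linarith)
      have h2 : |e u i / δ| ≤ m := by
        rw [abs_div, abs_of_pos hδ]
        exact (div_le_div_of_nonneg_right h1 hδ.le).trans (Nat.le_ceil _)
      rw [abs_le] at h2
      constructor
      · rw [Int.le_floor]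
        push_cast
        exact h2.1
      · have := Int.floor_le (e u i / δ)
        have h3 : ((⌊e u i / δ⌋ : ℤ) : ℝ) ≤ (m : ℤ) := by
          push_cast
          linarith [h2.2]
        exact_mod_cast h3
    have hcomp : ∀ i, |e v i - e w i| ≤ δ := by
      intro i
      have h1 := congrFun hvw' i
      simp only [r0, Fin.mk.injEq] at h1
      obtain ⟨a1, a2⟩ := key v hv i
      obtain ⟨b1, b2⟩ := key w hw i
      have h2 : ⌊e v i / δ⌋ = ⌊e w i / δ⌋ := by omega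
      have h3 := Int.abs_sub_lt_one_of_floor_eq_floor h2
      rw [← sub_div, abs_div, abs_of_pos hδ, div_lt_one hδ] at h3
      exact h3.le
    have h1 : ‖e (v - w)‖ ≤ δ := by
      rw [pi_norm_le_iff_of_nonneg hδ.le]
      intro i
      rw [map_sub, Pi.sub_apply, Real.norm_eq_abs]
      exact hcomp i
    calc ‖v - w‖ ≤ K' * ‖e (v - w)‖ := hK' _
      _ ≤ K' * δ := mul_le_mul_of_nonneg_left h1 (by linarith)
      _ = σ := by rw [hδd]; field_simp

theorem natCast_lt_infty (n : ℕ) : ((n : ℕ) : WithTop ℕ∞) < ∞ :=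
  WithTop.coe_lt_coe.2 (ENat.natCast_lt_top n)

/-- Descent from the derivative of order `k` to the function. -/
theorem descent {E : Type*} [NormedAddCommGroup E] [NormedSpace ℝ E]
    (F : E → ℝ) (hF : ContDiff ℝ ∞ F) (S : Set E) (hS : Convex ℝ S) (p : E) (hp : p ∈ S)
    (ρ σ M' : ℝ) (hρ : 0 ≤ ρ) (hρ1 : ρ ≤ 1) (hσ : 0 ≤ σ) (hM : 0 ≤ M')
    (hSρ : ∀ y ∈ S, ‖y - p‖ ≤ ρ) (k : ℕ)
    (h0 : ∀ j < k, ‖iteratedFDeriv ℝ j F p‖ ≤ σ)
    (hk : ∀ y ∈ S, ‖iteratedFDeriv ℝ k F y‖ ≤ M') :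
    ∀ i ≤ k, ∀ y ∈ S, ‖iteratedFDeriv ℝ (k - i) F y‖ ≤ i * σ + M' * ρ ^ i := by
  intro i
  induction i with
  | zero =>
    intro _ y hy
    simpa using hk y hy
  | succ i ih =>
    intro hi y hy
    have ih' := ih (by omega)
    have hki : k - i = (k - (i + 1)) + 1 := by omega
    have hlip : ‖iteratedFDeriv ℝ (k - (i + 1)) F y - iteratedFDeriv ℝ (k - (i + 1)) F p‖ ≤
        (i * σ + M' * ρ ^ i) * ‖y - p‖ := by
      refine hS.norm_image_sub_le_of_norm_fderiv_le (𝕜 := ℝ) ?_ ?_ hp hy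
      · intro x _
        exact (hF.differentiable_iteratedFDeriv (natCast_lt_infty _)) x
      · intro x hx
        rw [norm_fderiv_iteratedFDeriv, ← hki]
        exact ih' x hx
    have h1 : ‖iteratedFDeriv ℝ (k - (i + 1)) F p‖ ≤ σ := h0 _ (by omega)
    have hnn : 0 ≤ i * σ + M' * ρ ^ i := by positivity
    have h2 : (i * σ + M' * ρ ^ i) * ‖y - p‖ ≤ (i * σ + M' * ρ ^ i) * ρ :=
      mul_le_mul_of_nonneg_left (hSρ y hy) hnn
    have h3 : ‖iteratedFDeriv ℝ (k - (i + 1)) F y‖ ≤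
        ‖iteratedFDeriv ℝ (k - (i + 1)) F y - iteratedFDeriv ℝ (k - (i + 1)) F p‖ +
          ‖iteratedFDeriv ℝ (k - (i + 1)) F p‖ := by
      have := norm_add_le (iteratedFDeriv ℝ (k - (i + 1)) F y - iteratedFDeriv ℝ (k - (i + 1)) F p)
        (iteratedFDeriv ℝ (k - (i + 1)) F p)
      rwa [sub_add_cancel] at this
    have h4 : (i : ℝ) * σ * ρ ≤ i * σ := by
      have : (0 : ℝ) ≤ i * σ := by positivity
      nlinarith
    push_cast
    calc ‖iteratedFDeriv ℝ (k - (i + 1)) F y‖ ≤ (i * σ + M' * ρ ^ i) * ρ + σ := by linarith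
      _ = i * σ * ρ + M' * ρ ^ (i + 1) + σ := by ring
      _ ≤ (i + 1) * σ + M' * ρ ^ (i + 1) := by linarith

instance finDimCMM {E : Type*} [NormedAddCommGroup E] [NormedSpace ℝ E]
    [FiniteDimensional ℝ E] (n : ℕ) :
    FiniteDimensional ℝ (ContinuousMultilinearMap ℝ (fun _ : Fin n => E) ℝ) := by
  have : FiniteDimensional ℝ (MultilinearMap ℝ (fun _ : Fin n => E) ℝ) := inferInstance
  exact FiniteDimensional.of_injective
    (ContinuousMultilinearMap.toMultilinearMapLinear (R' := ℝ) (A := ℝ)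
      (M₁ := fun _ : Fin n => E) (M₂ := ℝ))
    (fun a b h => ContinuousMultilinearMap.toMultilinearMap_injective h)

/-- The limit which bounds the entropy. -/
theorem entropy_limit (A Bc s : ℝ) (hs : 0 < s) (hB : 0 < Bc) :
    Tendsto (fun ε : ℝ => A * (ε ^ s * Real.log (Bc / ε))) (𝓝[>] 0) (𝓝 0) := by
  have h1 : Tendsto (fun ε : ℝ => ε ^ s) (𝓝[>] 0) (𝓝 0) := by
    have h := (Real.continuousAt_rpow_const 0 s (Or.inr hs.le)).tendsto
    rw [Real.zero_rpow hs.ne'] at h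
    exact h.mono_left nhdsWithin_le_nhds
  have h2 : Tendsto (fun ε : ℝ => Real.log ε * ε ^ s) (𝓝[>] 0) (𝓝 0) :=
    tendsto_log_mul_rpow_nhdsGT_zero hs
  have h3 : Tendsto (fun ε : ℝ => A * (Real.log Bc * ε ^ s - Real.log ε * ε ^ s)) (𝓝[>] 0)
      (𝓝 (A * (Real.log Bc * 0 - 0))) := ((h1.const_mul _).sub h2).const_mul A
  have h4 : A * (Real.log Bc * 0 - 0) = 0 := by ring
  rw [h4] at h3
  refine h3.congr' ?_
  filter_upwards [self_mem_nhdsWithin] with ε hε
  have hε' : (0 : ℝ) < ε := hε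
  rw [Real.log_div hB.ne' hε'.ne']
  ring

/-- TARGET E: metric entropy of classes of smooth functions (Kolmogorov), weak form. -/
theorem entropy_smooth {E : Type*} [NormedAddCommGroup E] [NormedSpace ℝ E]
    [FiniteDimensional ℝ E] (R M : ℝ) (θ : ℝ) (hθ : 0 < θ) :
    ∃ ε₀ : ℝ, 0 < ε₀ ∧ ∀ ε : ℝ, 0 < ε → ε < ε₀ →
      ∃ (N : ℕ) (q : (E → ℝ) → Fin N), ε * Real.log N ≤ θ ∧
        ∀ g h : E → ℝ, ContDiff ℝ ∞ g → ContDiff ℝ ∞ h →
          (∀ j ≤ 2 * Module.finrank ℝ E + 1, ∀ x, ‖x‖ ≤ R → ‖iteratedFDeriv ℝ j g x‖ ≤ M) →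
          (∀ j ≤ 2 * Module.finrank ℝ E + 1, ∀ x, ‖x‖ ≤ R → ‖iteratedFDeriv ℝ j h x‖ ≤ M) →
          q g = q h → ∀ x, ‖x‖ ≤ R → |g x - h x| ≤ ε := by
  classical
  rcases lt_or_ge R 0 with hR | hR
  · refine ⟨1, one_pos, fun ε hε _ => ⟨1, fun _ => 0, by simp [hθ.le], ?_⟩⟩
    intro g h _ _ _ _ _ x hx
    exact absurd (norm_nonneg x) (by linarith)
  set d := Module.finrank ℝ E with hd
  set k := 2 * d + 1 with hk
  set M1 : ℝ := max M 1 with hM1
  have hM1pos : 1 ≤ M1 := le_max_right _ _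
  let T := (j : Fin k) → ContinuousMultilinearMap ℝ (fun _ : Fin (j : ℕ) => E) ℝ
  set D := Module.finrank ℝ T with hD
  obtain ⟨C1, hC1, hround1⟩ := rounding (V := E) R
  obtain ⟨C2, hC2, hround2⟩ := rounding (V := T) M1
  have hkpos : (0 : ℝ) < k := by rw [hk]; positivity
  set s : ℝ := 1 - d / k with hs
  have hspos : 0 < s := by
    rw [hs, sub_pos, div_lt_one hkpos, hk]
    push_cast
    linarith [(Nat.cast_nonneg d : (0 : ℝ) ≤ d)]
  set A : ℝ := C1 ^ d * (4 * M1) ^ ((d : ℝ) / k) * D with hA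
  set Bc : ℝ := 2 * k * C2 with hBc
  have hBcpos : 0 < Bc := by rw [hBc]; positivity
  have hlim := entropy_limit A Bc s hspos hBcpos
  have hev : ∀ᶠ ε : ℝ in 𝓝[>] 0, A * (ε ^ s * Real.log (Bc / ε)) < θ :=
    hlim.eventually (gt_mem_nhds hθ)
  obtain ⟨ε₁, hε₁, hε₁'⟩ := mem_nhdsGT_iff_exists_Ioo_subset.1 hev
  refine ⟨min ε₁ 1, lt_min hε₁ one_pos, fun ε hε hεlt => ?_⟩
  have hε1 : ε < 1 := hεlt.trans_le (min_le_right _ _)
  have hbound : A * (ε ^ s * Real.log (Bc / ε)) < θ := hε₁' ⟨hε, hεlt.trans_le (min_le_left _ _)⟩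
  -- the parameters
  set ρ : ℝ := (ε / (4 * M1)) ^ ((1 : ℝ) / k) with hρ
  have hbase : 0 < ε / (4 * M1) := by positivity
  have hbase1 : ε / (4 * M1) ≤ 1 := by
    rw [div_le_one (by positivity)]
    linarith
  have hρpos : 0 < ρ := Real.rpow_pos_of_pos hbase _
  have hρ1 : ρ ≤ 1 := Real.rpow_le_one hbase.le hbase1 (by positivity)
  have hρk : ρ ^ k = ε / (4 * M1) := by
    rw [hρ, ← Real.rpow_natCast, ← Real.rpow_mul hbase.le, one_div, inv_mul_cancel₀ hkpos.ne',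
      Real.rpow_one]
  set σ : ℝ := ε / (2 * k) with hσ
  have hσpos : 0 < σ := by positivity
  have hk1 : (1 : ℝ) ≤ k := by
    rw [hk]
    push_cast
    linarith [(Nat.cast_nonneg d : (0 : ℝ) ≤ d)]
  have hσ1 : σ ≤ 1 := by
    rw [hσ, div_le_one (by positivity)]
    linarith
  obtain ⟨N1, r1, hN1, hr1⟩ := hround1 ρ hρpos hρ1
  obtain ⟨N2, r2, hN2, hr2⟩ := hround2 σ hσpos hσ1
  -- centres
  have hcent : ∀ c : Fin N1, ∃ p : E, ‖p‖ ≤ R ∧ ∀ x : E, ‖x‖ ≤ R → r1 x = c → r1 p = c := by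
    intro c
    by_cases hc : ∃ x : E, ‖x‖ ≤ R ∧ r1 x = c
    · obtain ⟨x, hx, hxc⟩ := hc
      exact ⟨x, hx, fun _ _ _ => hxc⟩
    · refine ⟨0, by simpa using hR, fun x hx hxc => absurd ⟨x, hx, hxc⟩ hc⟩
  choose p hpR hpc using hcent
  let jet : (E → ℝ) → E → T := fun g y j => iteratedFDeriv ℝ (j : ℕ) g y
  let q0 : (E → ℝ) → (Fin N1 → Fin N2) := fun g c => r2 (jet g (p c))
  let q : (E → ℝ) → Fin (Fintype.card (Fin N1 → Fin N2)) := fun g => Fintype.equivFin _ (q0 g)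
  have hN2pos : 0 < N2 := (r2 0).pos
  have hN1pos : 0 < N1 := (r1 0).pos
  refine ⟨_, q, ?_, ?_⟩
  · rw [Fintype.card_fun, Fintype.card_fin, Fintype.card_fin]
    push_cast
    rw [Real.log_pow]
    refine le_trans ?_ hbound.le
    have hlogN2 : Real.log N2 ≤ D * Real.log (C2 / σ) := by
      rw [← Real.log_pow]
      exact Real.log_le_log (by exact_mod_cast hN2pos) hN2
    have hC2σ : C2 / σ = Bc / ε := by
      rw [hσ, hBc]
      field_simp
    have hlogpos : 0 ≤ Real.log (Bc / ε) := by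
      refine Real.log_nonneg ?_
      rw [← hC2σ, le_div_iff₀ hσpos]
      linarith
    have hlogN2' : 0 ≤ Real.log N2 := Real.log_natCast_nonneg _
    have hρd : (C1 / ρ) ^ d = C1 ^ d * (4 * M1) ^ ((d : ℝ) / k) * ε ^ (-((d : ℝ) / k)) := by
      have e1 : ρ ^ d = (ε / (4 * M1)) ^ ((d : ℝ) / k) := by
        rw [hρ, ← Real.rpow_natCast, ← Real.rpow_mul hbase.le]
        congr 1
        ring
      rw [div_pow, e1, Real.div_rpow hε.le (by positivity), Real.rpow_neg hε.le]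
      field_simp
    have hεs : ε * ε ^ (-((d : ℝ) / k)) = ε ^ s := by
      rw [hs, sub_eq_add_neg, Real.rpow_add hε, Real.rpow_one]
    calc ε * (N1 * Real.log N2) ≤ ε * ((C1 / ρ) ^ d * (D * Real.log (C2 / σ))) := by
          refine mul_le_mul_of_nonneg_left ?_ hε.le
          exact mul_le_mul hN1 hlogN2 hlogN2' (by positivity)
      _ = (C1 ^ d * (4 * M1) ^ ((d : ℝ) / k) * D) * ((ε * ε ^ (-((d : ℝ) / k))) *
            Real.log (Bc / ε)) := by
          rw [hρd, hC2σ]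
          ring
      _ = A * (ε ^ s * Real.log (Bc / ε)) := by rw [hεs, hA]
  · intro g h hg hh hgM hhM hq x hx
    have hq' : q0 g = q0 h := (Fintype.equivFin _).injective hq
    set c := r1 x with hc
    have hpx : ‖x - p c‖ ≤ ρ := hr1 x (p c) hx (hpR c) (hpc c x hx hc.symm).symm
    -- the jets at the centre are close
    have hjet : ∀ (u : E → ℝ), (∀ j ≤ k, ∀ x, ‖x‖ ≤ R → ‖iteratedFDeriv ℝ j u x‖ ≤ M) →
        ‖jet u (p c)‖ ≤ M1 := by
      intro u hu
      rw [pi_norm_le_iff_of_nonneg (by linarith)]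
      intro j
      exact (hu j j.2.le _ (hpR c)).trans (le_max_left _ _)
    have hclose : ‖jet g (p c) - jet h (p c)‖ ≤ σ :=
      hr2 _ _ (hjet g hgM) (hjet h hhM) (congrFun hq' c)
    -- descent
    set F : E → ℝ := g - h with hF
    have hFs : ContDiff ℝ ∞ F := hg.sub hh
    have hFj : ∀ (j : ℕ) (y : E), iteratedFDeriv ℝ j F y =
        iteratedFDeriv ℝ j g y - iteratedFDeriv ℝ j h y := by
      intro j y
      exact iteratedFDeriv_sub_apply ((hg.of_le (by exact_mod_cast le_top)).contDiffAt)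
        ((hh.of_le (by exact_mod_cast le_top)).contDiffAt)
    have hconv : Convex ℝ (segment ℝ (p c) x) := convex_segment _ _
    have hball : ∀ y ∈ segment ℝ (p c) x, ‖y‖ ≤ R := by
      intro y hy
      have : y ∈ Metric.closedBall (0 : E) R :=
        (convex_closedBall (0 : E) R).segment_subset (by simpa using hpR c) (by simpa using hx) hy
      simpa using this
    have hnear : ∀ y ∈ segment ℝ (p c) x, ‖y - p c‖ ≤ ρ := by
      intro y hy
      have : y ∈ Metric.closedBall (p c) ρ :=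
        (convex_closedBall (p c) ρ).segment_subset (by simpa using hρpos.le)
          (by rw [mem_closedBall_iff_norm]; exact hpx) hy
      rwa [mem_closedBall_iff_norm] at this
    have hdesc := descent F hFs _ hconv (p c) (left_mem_segment ℝ _ _) ρ σ (2 * M1) hρpos.le hρ1
      hσpos.le (by linarith) hnear k
      (fun j hj => by
        rw [hFj]
        have := norm_le_pi_norm (jet g (p c) - jet h (p c)) (⟨j, hj⟩ : Fin k)
        exact this.trans hclose)
      (fun y hy => by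
        rw [hFj]
        refine (norm_sub_le _ _).trans ?_
        have a1 := (hgM k le_rfl y (hball y hy)).trans (le_max_left M 1)
        have a2 := (hhM k le_rfl y (hball y hy)).trans (le_max_left M 1)
        rw [← hM1] at a1 a2
        linarith)
      k le_rfl x (right_mem_segment ℝ _ _)
    rw [Nat.sub_self, norm_iteratedFDeriv_zero, Real.norm_eq_abs, hρk] at hdesc
    have e1 : (k : ℝ) * σ + 2 * M1 * (ε / (4 * M1)) = ε := by
      rw [hσ]
      field_simp
      ring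
    rw [e1] at hdesc
    exact hdesc

end

end Pool.Agent.Helper906_NullSet
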