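import Pool.Agent.Helper906_NullSet.FourDefs

set_option autoImplicit false

open Set MeasureTheory Filter Topology
open scoped ContDiff

namespace Pool.Agent.Helper906_NullSet

noncomputable section

attribute [local instance] InnerProductSpace.complexToReal

variable {E : Type*} [NormedAddCommGroup E] [InnerProductSpace ℂ E] [FiniteDimensional ℂ E]
  [CompleteSpace E]

theorem ex_add (k l : ℤ) (t : ℝ) : ex (k + l) t = ex k t * ex l t := by
  unfold ex
  rw [← Complex.exp_add]
  congr 1
  push_cast
  ring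

theorem ex_zero (t : ℝ) : ex 0 t = 1 := by simp [ex]

theorem continuous_ex (k : ℤ) : Continuous (ex k) := by
  unfold ex
  fun_prop

theorem norm_ex (k : ℤ) (t : ℝ) : ‖ex k t‖ = 1 := by
  unfold ex
  have : (2 * Real.pi * Complex.I * k * t : ℂ) = ((2 * Real.pi * k * t : ℝ) : ℂ) * Complex.I := by
    push_cast
    ring
  rw [this, Complex.norm_exp_ofReal_mul_I]

theorem conj_ex (k : ℤ) (t : ℝ) : (starRingEnd ℂ) (ex k t) = ex (-k) t := by
  unfold ex
  rw [← Complex.exp_conj]
  congr 1
  simp only [map_mul, Complex.conj_ofReal, Complex.conj_I, Complex.conj_ofNat, map_intCast]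
  push_cast
  ring

theorem integral_ex (k : ℤ) : ∫ t in (0 : ℝ)..1, ex k t = if k = 0 then 1 else 0 := by
  split_ifs with h
  · subst h
    simp [ex_zero]
  · unfold ex
    have hc : (2 * Real.pi * Complex.I * k : ℂ) ≠ 0 := by
      have hpi : (Real.pi : ℂ) ≠ 0 := by exact_mod_cast Real.pi_ne_zero
      have hk : (k : ℂ) ≠ 0 := by exact_mod_cast h
      simp [hpi, hk, Complex.I_ne_zero]
    rw [integral_exp_mul_complex hc]
    have h1 : Complex.exp (2 * Real.pi * Complex.I * k * (1 : ℝ)) = 1 := by
      have := Complex.exp_int_mul_two_pi_mul_I k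
      rw [← this]
      congr 1
      push_cast
      ring
    rw [h1]
    simp

theorem coef_smul_const (k l : ℤ) (a : E) :
    ∫ t in (0 : ℝ)..1, ex (-k) t • (ex l t • a) = if k = l then a else 0 := by
  have h1 : ∀ t : ℝ, ex (-k) t • (ex l t • a) = ex (l - k) t • a := by
    intro t
    rw [smul_smul, ← ex_add]
    congr 2
    ring
  simp_rw [h1]
  rw [intervalIntegral.integral_smul_const, integral_ex]
  by_cases h : k = l
  · subst h
    simp
  · have : ¬ (l - k = 0) := fun h' => h (by omega)
    simp [h, this]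

theorem continuous_tr (N : ℕ) (x : ℤ → E) : Continuous (tr N x) := by
  unfold tr
  exact continuous_finsetSum _ fun k _ => (continuous_ex k).smul continuous_const

theorem coef_tr (N : ℕ) (x : ℤ → E) (k : ℤ) (hk : |k| ≤ N) : coef (tr N x) k = x k := by
  unfold coef tr
  simp_rw [Finset.smul_sum]
  rw [intervalIntegral.integral_finsetSum]
  · simp_rw [coef_smul_const]
    rw [Finset.sum_ite_eq]
    rw [if_pos]
    rw [Finset.mem_Icc]
    exact abs_le.1 hk
  · intro l _
    apply Continuous.intervalIntegrable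
    exact (continuous_ex _).smul ((continuous_ex _).smul continuous_const)

theorem inner_ex (a b : E) (k : ℤ) (t : ℝ) :
    inner ℝ a (ex k t • b) = inner ℝ (ex (-k) t • a) b := by
  rw [real_inner_eq_re_inner ℂ, real_inner_eq_re_inner ℂ, inner_smul_right, inner_smul_left,
    conj_ex, neg_neg]

/-- the pairing of a continuous function with a trigonometric polynomial -/
theorem integral_inner_tr (N : ℕ) (y : ℝ → E) (hy : Continuous y) (x : ℤ → E) :
    ∫ t in (0 : ℝ)..1, inner ℝ (y t) (tr N x t) =
      ∑ k ∈ Finset.Icc (-(N : ℤ)) N, inner ℝ (coef y k) (x k) := by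
  unfold tr
  simp_rw [inner_sum, inner_ex]
  rw [intervalIntegral.integral_finsetSum]
  · refine Finset.sum_congr rfl fun k _ => ?_
    have h1 : IntervalIntegrable (fun t => ex (-k) t • y t) volume 0 1 :=
      ((continuous_ex _).smul hy).intervalIntegrable _ _
    have h2 := (innerSL ℝ (E := E) (x k)).intervalIntegral_comp_comm h1
    simp only [innerSL_apply_apply] at h2
    simp_rw [real_inner_comm (x k)]
    exact h2
  · intro k _
    apply Continuous.intervalIntegrable
    exact ((continuous_ex _).smul hy).inner continuous_const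

/-- Parseval for trigonometric polynomials -/
theorem integral_norm_tr (N : ℕ) (x : ℤ → E) :
    ∫ t in (0 : ℝ)..1, ‖tr N x t‖ ^ 2 = ∑ k ∈ Finset.Icc (-(N : ℤ)) N, ‖x k‖ ^ 2 := by
  have h := integral_inner_tr N (tr N x) (continuous_tr N x) x
  simp_rw [real_inner_self_eq_norm_sq] at h
  rw [h]
  refine Finset.sum_congr rfl fun k hk => ?_
  rw [coef_tr N x k (abs_le.2 (Finset.mem_Icc.1 hk)), real_inner_self_eq_norm_sq]

/-- Bessel's inequality -/
theorem bessel (N : ℕ) (y : ℝ → E) (hy : Continuous y) :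
    ∑ k ∈ Finset.Icc (-(N : ℤ)) N, ‖coef y k‖ ^ 2 ≤ ∫ t in (0 : ℝ)..1, ‖y t‖ ^ 2 := by
  have h0 : 0 ≤ ∫ t in (0 : ℝ)..1, ‖y t - tr N (coef y) t‖ ^ 2 :=
    intervalIntegral.integral_nonneg (by norm_num) fun t _ => by positivity
  have h1 : ∀ t, ‖y t - tr N (coef y) t‖ ^ 2 =
      ‖y t‖ ^ 2 - 2 * inner ℝ (y t) (tr N (coef y) t) + ‖tr N (coef y) t‖ ^ 2 := fun t =>
    norm_sub_sq_real _ _
  have hc := continuous_tr N (coef y)
  have i1 : IntervalIntegrable (fun t => ‖y t‖ ^ 2) volume 0 1 :=
    (hy.norm.pow 2).intervalIntegrable _ _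
  have i2 : IntervalIntegrable (fun t => 2 * inner ℝ (y t) (tr N (coef y) t)) volume 0 1 :=
    (continuous_const.mul (hy.inner hc)).intervalIntegrable _ _
  have i3 : IntervalIntegrable (fun t => ‖tr N (coef y) t‖ ^ 2) volume 0 1 :=
    (hc.norm.pow 2).intervalIntegrable _ _
  simp_rw [h1] at h0
  rw [intervalIntegral.integral_add (i1.sub i2) i3, intervalIntegral.integral_sub i1 i2,
    intervalIntegral.integral_const_mul, integral_inner_tr N y hy, integral_norm_tr] at h0
  simp_rw [real_inner_self_eq_norm_sq] at h0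
  linarith

end

end Pool.Agent.Helper906_NullSet
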