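import Pool.Agent.Helper906_NullSet.Defs

set_option autoImplicit false

open Set MeasureTheory Filter Topology
open scoped ContDiff

namespace Pool.Agent.Helper906_NullSet

noncomputable section

attribute [local instance] InnerProductSpace.complexToReal

variable {E : Type*} [NormedAddCommGroup E] [InnerProductSpace ℂ E] [FiniteDimensional ℂ E]
  [CompleteSpace E]

/-- the exponential `e^{2 π i k t}` -/
def ex (k : ℤ) (t : ℝ) : ℂ := Complex.exp (2 * Real.pi * Complex.I * k * t)

/-- the Fourier coefficient of a vector valued function -/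
def coef (y : ℝ → E) (k : ℤ) : E := ∫ t in (0 : ℝ)..1, ex (-k) t • y t

/-- trigonometric polynomial with coefficients `x k`, `|k| ≤ N` -/
def tr (N : ℕ) (x : ℤ → E) (t : ℝ) : E := ∑ k ∈ Finset.Icc (-(N : ℤ)) N, ex k t • x k

end

end Pool.Agent.Helper906_NullSet
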