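import Pool.Agent.Helper906_NullSet.FourBasic

set_option autoImplicit false

open Set MeasureTheory Filter Topology
open scoped ContDiff

namespace Pool.Agent.Helper906_NullSet

noncomputable section

attribute [local instance] InnerProductSpace.complexToReal

variable {E : Type*} [NormedAddCommGroup E] [InnerProductSpace ℂ E] [FiniteDimensional ℂ E]
  [CompleteSpace E]

lemma b2b_inv_sq (N : ℕ) : ∑ k ∈ Finset.Icc (1 : ℤ) N, 1 / (k : ℝ) ^ 2 ≤ 2 - 1 / (N : ℝ) := by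
  induction N with
  | zero => simp
  | succ N ih =>
    have h1 : Finset.Icc (1 : ℤ) ((N + 1 : ℕ) : ℤ) = insert ((N + 1 : ℕ) : ℤ) (Finset.Icc 1 (N : ℤ)) := by
      ext k
      simp only [Finset.mem_Icc, Finset.mem_insert]
      push_cast
      omega
    rw [h1, Finset.sum_insert (by simp)]
    rcases Nat.eq_zero_or_pos N with h0 | hpos
    · subst h0; norm_num
    · have hN : (0 : ℝ) < N := by exact_mod_cast hpos
      have h2 : 1 / (((N + 1 : ℕ) : ℤ) : ℝ) ^ 2 ≤ 1 / (N : ℝ) - 1 / ((N + 1 : ℕ) : ℝ) := by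
        push_cast
        rw [div_sub_div _ _ hN.ne' (by positivity), div_le_div_iff₀ (by positivity) (by positivity)]
        nlinarith
      linarith

/-- the sum over pairs with a given difference -/
lemma b2b_inner (N : ℕ) (m : ℤ) :
    ∑ q ∈ Finset.Icc (1 : ℤ) N ×ˢ Finset.Icc (1 : ℤ) N,
      (if m = q.2 - q.1 then 1 / ((q.1 : ℝ) * (q.2 : ℝ)) else 0) ≤ 2 := by
  set P := Finset.Icc (1 : ℤ) N with hP
  have hpos : ∀ k ∈ P, (0 : ℝ) < (k : ℝ) := by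
    intro k hk
    rw [hP, Finset.mem_Icc] at hk
    exact_mod_cast (by omega : 0 < k)
  have hsq : ∑ k ∈ P, 1 / (k : ℝ) ^ 2 ≤ 2 := by
    have h1 := b2b_inv_sq N
    have h2 : 0 ≤ 1 / (N : ℝ) := by positivity
    linarith
  have h1 : ∀ q ∈ P ×ˢ P, (if m = q.2 - q.1 then 1 / ((q.1 : ℝ) * (q.2 : ℝ)) else 0) ≤
      (if m = q.2 - q.1 then 1 / (q.1 : ℝ) ^ 2 else 0) / 2 +
        (if m = q.2 - q.1 then 1 / (q.2 : ℝ) ^ 2 else 0) / 2 := by
    intro q hq
    rw [Finset.mem_product] at hq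
    have ha := hpos _ hq.1
    have hb := hpos _ hq.2
    split_ifs with h
    · have e1 : 1 / ((q.1 : ℝ) * (q.2 : ℝ)) = (1 / (q.1 : ℝ)) * (1 / (q.2 : ℝ)) := by
        rw [div_mul_div_comm, one_mul]
      have e2 : 1 / (q.1 : ℝ) ^ 2 = (1 / (q.1 : ℝ)) ^ 2 := by rw [div_pow, one_pow]
      have e3 : 1 / (q.2 : ℝ) ^ 2 = (1 / (q.2 : ℝ)) ^ 2 := by rw [div_pow, one_pow]
      rw [e1, e2, e3]
      nlinarith [sq_nonneg (1 / (q.1 : ℝ) - 1 / (q.2 : ℝ))]
    · simp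
  refine (Finset.sum_le_sum h1).trans ?_
  rw [Finset.sum_add_distrib, ← Finset.sum_div, ← Finset.sum_div]
  have h2 : ∑ q ∈ P ×ˢ P, (if m = q.2 - q.1 then 1 / (q.1 : ℝ) ^ 2 else 0) ≤ 2 := by
    rw [Finset.sum_product]
    refine (Finset.sum_le_sum (fun k hk => ?_)).trans hsq
    have h3 : ∀ l ∈ P, (if m = l - k then 1 / (k : ℝ) ^ 2 else 0) =
        if l = m + k then 1 / (k : ℝ) ^ 2 else 0 := by
      intro l _
      congr 1
      apply propext
      constructor <;> intro h <;> omega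
    rw [Finset.sum_congr rfl h3, Finset.sum_ite_eq']
    have h4 : 0 ≤ 1 / (k : ℝ) ^ 2 := by positivity
    split_ifs
    · exact le_rfl
    · exact h4
  have h5 : ∑ q ∈ P ×ˢ P, (if m = q.2 - q.1 then 1 / (q.2 : ℝ) ^ 2 else 0) ≤ 2 := by
    rw [Finset.sum_product_right]
    refine (Finset.sum_le_sum (fun l hl => ?_)).trans hsq
    have h3 : ∀ k ∈ P, (if m = l - k then 1 / (l : ℝ) ^ 2 else 0) =
        if k = l - m then 1 / (l : ℝ) ^ 2 else 0 := by
      intro k _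
      congr 1
      apply propext
      constructor <;> intro h <;> omega
    rw [Finset.sum_congr rfl h3, Finset.sum_ite_eq']
    have h4 : 0 ≤ 1 / (l : ℝ) ^ 2 := by positivity
    split_ifs
    · exact le_rfl
    · exact h4
  linarith

/-- the combinatorial inequality -/
lemma b2b_real (N : ℕ) (u : ℤ → ℝ) :
    ∑ p ∈ Finset.Icc (1 : ℤ) N ×ˢ Finset.Icc (1 : ℤ) N,
      ∑ q ∈ Finset.Icc (1 : ℤ) N ×ˢ Finset.Icc (1 : ℤ) N,
        (if p.2 - p.1 = q.2 - q.1 then (u p.1 * u p.2) * (u q.1 * u q.2) else 0) ≤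
      2 * (∑ k ∈ Finset.Icc (1 : ℤ) N, (k : ℝ) * u k ^ 2) ^ 2 := by
  set P := Finset.Icc (1 : ℤ) N with hP
  have hpos : ∀ k ∈ P, (0 : ℝ) < (k : ℝ) := by
    intro k hk
    rw [hP, Finset.mem_Icc] at hk
    exact_mod_cast (by omega : 0 < k)
  set A : ℤ × ℤ → ℝ := fun p => ((p.1 : ℝ) * u p.1 ^ 2) * ((p.2 : ℝ) * u p.2 ^ 2) with hA
  set W : ℤ × ℤ → ℝ := fun p => 1 / ((p.1 : ℝ) * (p.2 : ℝ)) with hW
  have h1 : ∀ p ∈ P ×ˢ P, ∀ q ∈ P ×ˢ P,
      (if p.2 - p.1 = q.2 - q.1 then (u p.1 * u p.2) * (u q.1 * u q.2) else 0) ≤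
      (if p.2 - p.1 = q.2 - q.1 then A p * W q else 0) / 2 +
        (if q.2 - q.1 = p.2 - p.1 then A q * W p else 0) / 2 := by
    intro p hp q hq
    rw [Finset.mem_product] at hp hq
    have hp1 := hpos _ hp.1
    have hp2 := hpos _ hp.2
    have hq1 := hpos _ hq.1
    have hq2 := hpos _ hq.2
    by_cases h : p.2 - p.1 = q.2 - q.1
    · rw [if_pos h, if_pos h, if_pos h.symm]
      simp only [hA, hW]
      set a := (p.1 : ℝ)
      set b := (p.2 : ℝ)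
      set c := (q.1 : ℝ)
      set d := (q.2 : ℝ)
      have e1 : a * u p.1 ^ 2 * (b * u p.2 ^ 2) * (1 / (c * d)) / 2 +
          c * u q.1 ^ 2 * (d * u q.2 ^ 2) * (1 / (a * b)) / 2 =
          ((a * b * (u p.1 * u p.2)) ^ 2 + (c * d * (u q.1 * u q.2)) ^ 2) / (2 * (a * b) * (c * d)) := by
        field_simp
      rw [e1, le_div_iff₀ (by positivity)]
      nlinarith [sq_nonneg (a * b * (u p.1 * u p.2) - c * d * (u q.1 * u q.2))]
    · rw [if_neg h, if_neg h, if_neg (fun h' => h h'.symm)]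
      simp
  have h2 : ∑ p ∈ P ×ˢ P, ∑ q ∈ P ×ˢ P,
      (if p.2 - p.1 = q.2 - q.1 then (u p.1 * u p.2) * (u q.1 * u q.2) else 0) ≤
      ∑ p ∈ P ×ˢ P, ∑ q ∈ P ×ˢ P, (if p.2 - p.1 = q.2 - q.1 then A p * W q else 0) := by
    calc _ ≤ ∑ p ∈ P ×ˢ P, ∑ q ∈ P ×ˢ P,
          ((if p.2 - p.1 = q.2 - q.1 then A p * W q else 0) / 2 +
            (if q.2 - q.1 = p.2 - p.1 then A q * W p else 0) / 2) :=
          Finset.sum_le_sum (fun p hp => Finset.sum_le_sum (fun q hq => h1 p hp q hq))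
      _ = (∑ p ∈ P ×ˢ P, ∑ q ∈ P ×ˢ P, (if p.2 - p.1 = q.2 - q.1 then A p * W q else 0)) / 2 +
          (∑ p ∈ P ×ˢ P, ∑ q ∈ P ×ˢ P, (if q.2 - q.1 = p.2 - p.1 then A q * W p else 0)) / 2 := by
          simp only [Finset.sum_add_distrib, Finset.sum_div]
      _ = _ := by
          rw [Finset.sum_comm (f := fun p q => if q.2 - q.1 = p.2 - p.1 then A q * W p else 0)]
          ring
  refine h2.trans ?_
  have h3 : ∀ p ∈ P ×ˢ P, ∑ q ∈ P ×ˢ P, (if p.2 - p.1 = q.2 - q.1 then A p * W q else 0) ≤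
      A p * 2 := by
    intro p hp
    rw [Finset.mem_product] at hp
    have hp1 := hpos _ hp.1
    have hp2 := hpos _ hp.2
    have hA0 : 0 ≤ A p := by simp only [hA]; positivity
    have h4 : ∀ q ∈ P ×ˢ P, (if p.2 - p.1 = q.2 - q.1 then A p * W q else 0) =
        A p * (if p.2 - p.1 = q.2 - q.1 then 1 / ((q.1 : ℝ) * (q.2 : ℝ)) else 0) := by
      intro q _
      simp only [hW]
      split_ifs <;> simp
    rw [Finset.sum_congr rfl h4, ← Finset.mul_sum]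
    exact mul_le_mul_of_nonneg_left (b2b_inner N _) hA0
  refine (Finset.sum_le_sum h3).trans ?_
  rw [← Finset.sum_mul, Finset.sum_product]
  simp only [hA]
  rw [sq, Finset.sum_mul_sum]
  linarith

lemma b2b_ex_mul (a b : ℤ) (t : ℝ) : ex a t * ex b t = ex (a + b) t := by
  unfold ex
  rw [← Complex.exp_add]
  congr 1
  push_cast
  ring

lemma b2b_ex_conj (a : ℤ) (t : ℝ) : (starRingEnd ℂ) (ex a t) = ex (-a) t := by
  unfold ex
  rw [← Complex.exp_conj]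
  congr 1
  simp only [map_mul, Complex.conj_I, Complex.conj_ofReal, map_ofNat, map_intCast]
  push_cast
  ring

lemma b2b_ex_cont (a : ℤ) : Continuous (ex a) := by
  unfold ex
  fun_prop

lemma b2b_ex_int (a : ℤ) : ∫ t in (0 : ℝ)..1, ex a t = if a = 0 then 1 else 0 := by
  split_ifs with h
  · subst h
    simp [ex]
  · unfold ex
    have hc : (2 * Real.pi * Complex.I * a : ℂ) ≠ 0 := by
      have h1 : (a : ℂ) ≠ 0 := by exact_mod_cast h
      have h2 : (Real.pi : ℂ) ≠ 0 := by exact_mod_cast Real.pi_ne_zero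
      simp [h1, h2, Complex.I_ne_zero]
    rw [integral_exp_mul_complex hc]
    have h3 : Complex.exp (2 * Real.pi * Complex.I * a * (1 : ℝ)) = 1 := by
      rw [Complex.ofReal_one, mul_one, mul_comm]
      exact Complex.exp_int_mul_two_pi_mul_I a
    rw [h3]
    simp

omit [FiniteDimensional ℂ E] [CompleteSpace E] in
lemma b2b_sq (N : ℕ) (x : ℤ → E) (hx : ∀ k : ℤ, k ≤ 0 → x k = 0) (t : ℝ) :
    ((‖tr N x t‖ : ℂ)) ^ 2 = ∑ p ∈ Finset.Icc (1 : ℤ) N ×ˢ Finset.Icc (1 : ℤ) N,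
      ex (p.2 - p.1) t * inner ℂ (x p.1) (x p.2) := by
  have h1 : tr N x t = ∑ k ∈ Finset.Icc (1 : ℤ) N, ex k t • x k := by
    unfold tr
    symm
    apply Finset.sum_subset
    · intro k hk
      rw [Finset.mem_Icc] at hk ⊢
      omega
    · intro k hk hk'
      rw [Finset.mem_Icc] at hk hk'
      rw [hx k (by omega), smul_zero]
  have h2 : ((‖tr N x t‖ : ℂ)) ^ 2 = inner ℂ (tr N x t) (tr N x t) :=
    (inner_self_eq_norm_sq_to_K (𝕜 := ℂ) (tr N x t)).symm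
  rw [h2, h1, sum_inner, Finset.sum_product]
  refine Finset.sum_congr rfl (fun k _ => ?_)
  rw [inner_sum]
  refine Finset.sum_congr rfl (fun l _ => ?_)
  rw [inner_smul_left, inner_smul_right, b2b_ex_conj, ← mul_assoc, b2b_ex_mul]
  congr 2
  ring

/-- TARGET B2b: the `L⁴` bound for trigonometric polynomials with positive frequencies (a weak form of `H^{1/2} ⊂ L⁴`).
Proof.  `‖tr x t‖² = ∑_{k,l} ex (l-k) t * z k l` with `z k l = inner ℂ (x k) (x l)`, `|z k l| ≤ ‖x k‖‖x l‖`.  So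
`∫ ‖tr x t‖⁴ = re ∑_{k,l,k',l' : l-k = l'-k'} z k l * conj (z k' l') ≤ ∑_{l-k = l'-k'} ‖x k‖‖x l‖‖x k'‖‖x l'‖`.
With `a k = √k ‖x k‖` (`1 ≤ k ≤ N`) and `uv ≤ (u²+v²)/2`, `u = a_k a_l/√(k' l')`, `v = a_k' a_l'/√(k l)`:
`≤ ∑_{k,l} a_k² a_l² ∑_{k',l' : l'-k' = l-k} 1/(k' l') ≤ 2 (∑ a_k²)²` since `∑_{l'-k'=m} 1/(k'l') ≤ ∑_{k'≥1} 1/k'² ≤ 2` (by
`1/(k'l') ≤ (1/k'² + 1/l'²)/2`).  (Use `Finset.Icc 1 N` or the given index set; prove `∑_{k=1}^N 1/k² ≤ 2 - 1/N ≤ 2` by induction.) -/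
theorem integral_tr_four (N : ℕ) (x : ℤ → E) (hx : ∀ k : ℤ, k ≤ 0 → x k = 0) :
    ∫ t in (0 : ℝ)..1, ‖tr N x t‖ ^ 4 ≤
      2 * (∑ k ∈ Finset.Icc (-(N : ℤ)) N, (k : ℝ) * ‖x k‖ ^ 2) ^ 2 := by
  have hR : ∑ k ∈ Finset.Icc (-(N : ℤ)) N, (k : ℝ) * ‖x k‖ ^ 2 =
      ∑ k ∈ Finset.Icc (1 : ℤ) N, (k : ℝ) * ‖x k‖ ^ 2 := by
    symm
    apply Finset.sum_subset
    · intro k hk
      rw [Finset.mem_Icc] at hk ⊢
      omega
    · intro k hk hk'
      rw [Finset.mem_Icc] at hk hk'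
      rw [hx k (by omega)]
      simp
  rw [hR]
  refine le_trans ?_ (b2b_real N (fun k => ‖x k‖))
  set S := Finset.Icc (1 : ℤ) N ×ˢ Finset.Icc (1 : ℤ) N with hS
  set z : ℤ × ℤ → ℂ := fun p => inner ℂ (x p.1) (x p.2) with hz
  have h4 : ∀ t : ℝ, ((‖tr N x t‖ ^ 4 : ℝ) : ℂ) = ∑ p ∈ S, ∑ q ∈ S,
      ex ((p.2 - p.1) - (q.2 - q.1)) t * (z p * (starRingEnd ℂ) (z q)) := by
    intro t
    have e1 : ((‖tr N x t‖ ^ 4 : ℝ) : ℂ) =
        ((‖tr N x t‖ : ℂ)) ^ 2 * (starRingEnd ℂ) (((‖tr N x t‖ : ℂ)) ^ 2) := by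
      rw [map_pow, Complex.conj_ofReal]
      push_cast
      ring
    rw [e1, b2b_sq N x hx t, map_sum, Finset.sum_mul_sum]
    refine Finset.sum_congr rfl (fun p _ => ?_)
    refine Finset.sum_congr rfl (fun q _ => ?_)
    rw [map_mul, b2b_ex_conj, sub_eq_add_neg (p.2 - p.1) (q.2 - q.1), ← b2b_ex_mul]
    simp only [hz]
    ring
  have h5 : ((∫ t in (0 : ℝ)..1, ‖tr N x t‖ ^ 4 : ℝ) : ℂ) = ∑ p ∈ S, ∑ q ∈ S,
      (if p.2 - p.1 = q.2 - q.1 then (z p * (starRingEnd ℂ) (z q)) else 0) := by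
    rw [← intervalIntegral.integral_ofReal]
    simp_rw [h4]
    rw [intervalIntegral.integral_finsetSum]
    · refine Finset.sum_congr rfl (fun p _ => ?_)
      rw [intervalIntegral.integral_finsetSum]
      · refine Finset.sum_congr rfl (fun q _ => ?_)
        rw [intervalIntegral.integral_mul_const, b2b_ex_int]
        by_cases h : p.2 - p.1 = q.2 - q.1
        · rw [if_pos h, if_pos (sub_eq_zero.2 h), one_mul]
        · rw [if_neg h, if_neg (fun h' => h (sub_eq_zero.1 h')), zero_mul]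
      · intro q _
        exact ((b2b_ex_cont _).mul continuous_const).intervalIntegrable _ _
    · intro p _
      apply Continuous.intervalIntegrable
      exact continuous_finsetSum _ (fun q _ => (b2b_ex_cont _).mul continuous_const)
  calc ∫ t in (0 : ℝ)..1, ‖tr N x t‖ ^ 4
      ≤ ‖((∫ t in (0 : ℝ)..1, ‖tr N x t‖ ^ 4 : ℝ) : ℂ)‖ := by
        rw [Complex.norm_real]
        exact le_abs_self _
    _ = ‖∑ p ∈ S, ∑ q ∈ S,
          (if p.2 - p.1 = q.2 - q.1 then (z p * (starRingEnd ℂ) (z q)) else 0)‖ := by rw [h5]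
    _ ≤ ∑ p ∈ S, ‖∑ q ∈ S,
          (if p.2 - p.1 = q.2 - q.1 then (z p * (starRingEnd ℂ) (z q)) else 0)‖ := norm_sum_le _ _
    _ ≤ ∑ p ∈ S, ∑ q ∈ S,
        (if p.2 - p.1 = q.2 - q.1 then (‖x p.1‖ * ‖x p.2‖) * (‖x q.1‖ * ‖x q.2‖) else 0) := by
        refine Finset.sum_le_sum (fun p _ => (norm_sum_le _ _).trans ?_)
        refine Finset.sum_le_sum (fun q _ => ?_)
        split_ifs
        · rw [norm_mul, RCLike.norm_conj]
          exact mul_le_mul (norm_inner_le_norm _ _) (norm_inner_le_norm _ _) (norm_nonneg _)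
            (by positivity)
        · simp

end

end Pool.Agent.Helper906_NullSet
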