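import Pool.Agent.Helper906_NullSet.FourDefs

set_option autoImplicit false

open Set MeasureTheory Filter Topology
open scoped ContDiff

namespace Pool.Agent.Helper906_NullSet

noncomputable section

attribute [local instance] InnerProductSpace.complexToReal

variable {E : Type*} [NormedAddCommGroup E] [InnerProductSpace ℂ E] [FiniteDimensional ℂ E]
  [CompleteSpace E]

namespace B3

/-! ### Real estimates -/

theorem summable_w : Summable (fun k : ℤ => 1 / (1 + (k : ℝ) ^ 2)) := by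
  have h : Summable (fun k : ℤ => 1 / (k : ℝ) ^ 2) := Real.summable_one_div_int_pow.mpr (by norm_num)
  refine Summable.of_norm_bounded_eventually h ?_
  have : ∀ᶠ k : ℤ in cofinite, k ≠ 0 := by
    rw [Filter.eventually_cofinite]; simp
  filter_upwards [this] with k hk
  have hk' : (0 : ℝ) < (k : ℝ) ^ 2 := by positivity
  rw [Real.norm_eq_abs, abs_of_pos (by positivity)]
  exact one_div_le_one_div_of_le hk' (by linarith)

theorem amgm {a w c : ℝ} (hw : 0 < w) (hc : 0 < c) : a ≤ c / 2 * (1 / w) + w * a ^ 2 / (2 * c) := by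
  have h : c / 2 * (1 / w) + w * a ^ 2 / (2 * c) - a = (c - w * a) ^ 2 / (2 * w * c) := by
    field_simp; ring
  have h2 : 0 ≤ (c - w * a) ^ 2 / (2 * w * c) := by positivity
  linarith

theorem sum_norm_le {X : ℤ → E} {B : ℝ} (hX : ∀ S : Finset ℤ, ∑ k ∈ S, (1 + (k : ℝ) ^ 2) * ‖X k‖ ^ 2 ≤ B)
    {c : ℝ} (hc : 0 < c) (S : Finset ℤ) :
    ∑ k ∈ S, ‖X k‖ ≤ c / 2 * ∑ k ∈ S, 1 / (1 + (k : ℝ) ^ 2) + B / (2 * c) := by
  calc ∑ k ∈ S, ‖X k‖
      ≤ ∑ k ∈ S, (c / 2 * (1 / (1 + (k : ℝ) ^ 2)) + (1 + (k : ℝ) ^ 2) * ‖X k‖ ^ 2 / (2 * c)) :=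
        Finset.sum_le_sum fun k _ => amgm (by positivity) hc
    _ = c / 2 * ∑ k ∈ S, 1 / (1 + (k : ℝ) ^ 2) +
          (∑ k ∈ S, (1 + (k : ℝ) ^ 2) * ‖X k‖ ^ 2) / (2 * c) := by
        rw [Finset.sum_add_distrib, ← Finset.mul_sum, Finset.sum_div]
    _ ≤ _ := by
        gcongr
        exact hX S

/-- the constant bounding `∑ ‖X k‖` -/
def WW : ℝ := ∑' k : ℤ, 1 / (1 + (k : ℝ) ^ 2)

theorem sum_w_le (S : Finset ℤ) : ∑ k ∈ S, 1 / (1 + (k : ℝ) ^ 2) ≤ WW :=
  summable_w.sum_le_tsum S (fun k _ => by positivity)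

theorem sum_norm_le' {X : ℤ → E} {B : ℝ}
    (hX : ∀ S : Finset ℤ, ∑ k ∈ S, (1 + (k : ℝ) ^ 2) * ‖X k‖ ^ 2 ≤ B) (S : Finset ℤ) :
    ∑ k ∈ S, ‖X k‖ ≤ WW / 2 + B / 2 := by
  have h := sum_norm_le hX one_pos S
  have h2 := sum_w_le S
  linarith

theorem summable_norm {X : ℤ → E} {B : ℝ}
    (hX : ∀ S : Finset ℤ, ∑ k ∈ S, (1 + (k : ℝ) ^ 2) * ‖X k‖ ^ 2 ≤ B) :
    Summable (fun k => ‖X k‖) :=
  summable_of_sum_le (fun _ => norm_nonneg _) (sum_norm_le' hX)

theorem B_nonneg {X : ℤ → E} {B : ℝ}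
    (hX : ∀ S : Finset ℤ, ∑ k ∈ S, (1 + (k : ℝ) ^ 2) * ‖X k‖ ^ 2 ≤ B) : 0 ≤ B := by
  have := hX ∅
  simpa using this

/-- convergence of the coefficients implies `ℓ¹` convergence -/
theorem tendsto_l1 {X : ℕ → ℤ → E} {z : ℤ → E} {B : ℝ}
    (hX : ∀ n, ∀ S : Finset ℤ, ∑ k ∈ S, (1 + (k : ℝ) ^ 2) * ‖X n k‖ ^ 2 ≤ B)
    (hz : ∀ k, Tendsto (fun n => X n k) atTop (𝓝 (z k))) :
    (∀ S : Finset ℤ, ∑ k ∈ S, (1 + (k : ℝ) ^ 2) * ‖z k‖ ^ 2 ≤ B) ∧
      Tendsto (fun n => ∑' k, ‖X n k - z k‖) atTop (𝓝 0) := by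
  have hzB : ∀ S : Finset ℤ, ∑ k ∈ S, (1 + (k : ℝ) ^ 2) * ‖z k‖ ^ 2 ≤ B := by
    intro S
    have h : Tendsto (fun n => ∑ k ∈ S, (1 + (k : ℝ) ^ 2) * ‖X n k‖ ^ 2) atTop
        (𝓝 (∑ k ∈ S, (1 + (k : ℝ) ^ 2) * ‖z k‖ ^ 2)) :=
      tendsto_finsetSum _ fun k _ => ((hz k).norm.pow 2).const_mul _
    exact le_of_tendsto' h fun n => hX n S
  refine ⟨hzB, ?_⟩
  have hB0 : 0 ≤ B := B_nonneg (hX 0)
  -- the differences
  have hd : ∀ n, ∀ S : Finset ℤ, ∑ k ∈ S, (1 + (k : ℝ) ^ 2) * ‖X n k - z k‖ ^ 2 ≤ 4 * B := by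
    intro n S
    have h1 : ∀ k ∈ S, (1 + (k : ℝ) ^ 2) * ‖X n k - z k‖ ^ 2 ≤
        2 * ((1 + (k : ℝ) ^ 2) * ‖X n k‖ ^ 2) + 2 * ((1 + (k : ℝ) ^ 2) * ‖z k‖ ^ 2) := by
      intro k _
      have h2 := norm_sub_le (X n k) (z k)
      have h3 : ‖X n k - z k‖ ^ 2 ≤ 2 * ‖X n k‖ ^ 2 + 2 * ‖z k‖ ^ 2 := by
        nlinarith [norm_nonneg (X n k - z k), norm_nonneg (X n k), norm_nonneg (z k),
          sq_nonneg (‖X n k‖ - ‖z k‖)]
      have h4 : (0 : ℝ) < 1 + (k : ℝ) ^ 2 := by positivity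
      nlinarith
    calc ∑ k ∈ S, (1 + (k : ℝ) ^ 2) * ‖X n k - z k‖ ^ 2
        ≤ ∑ k ∈ S, (2 * ((1 + (k : ℝ) ^ 2) * ‖X n k‖ ^ 2) + 2 * ((1 + (k : ℝ) ^ 2) * ‖z k‖ ^ 2)) :=
          Finset.sum_le_sum h1
      _ = 2 * ∑ k ∈ S, (1 + (k : ℝ) ^ 2) * ‖X n k‖ ^ 2 +
          2 * ∑ k ∈ S, (1 + (k : ℝ) ^ 2) * ‖z k‖ ^ 2 := by
          rw [Finset.sum_add_distrib, ← Finset.mul_sum, ← Finset.mul_sum]
      _ ≤ 4 * B := by linarith [hX n S, hzB S]
  rw [Metric.tendsto_atTop]
  intro ε hε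
  -- choice of `c` and `S`
  obtain ⟨c, hc, hc2⟩ : ∃ c : ℝ, 0 < c ∧ 4 * B / (2 * c) ≤ ε / 4 := by
    refine ⟨8 * (B + 1) / ε, by positivity, ?_⟩
    rw [div_le_div_iff₀ (by positivity) (by norm_num)]
    field_simp
    nlinarith
  obtain ⟨S, hS⟩ : ∃ S : Finset ℤ, ∀ T : Finset ℤ, Disjoint T S →
      c / 2 * ∑ k ∈ T, 1 / (1 + (k : ℝ) ^ 2) ≤ ε / 4 := by
    have h := summable_iff_vanishing_norm.mp summable_w (ε / (2 * c)) (by positivity)
    obtain ⟨S, hS⟩ := h
    refine ⟨S, fun T hT => ?_⟩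
    have h1 := (le_abs_self _).trans (hS T hT).le
    calc c / 2 * ∑ k ∈ T, 1 / (1 + (k : ℝ) ^ 2) ≤ c / 2 * (ε / (2 * c)) := by gcongr
      _ = ε / 4 := by field_simp; ring
  have hfin : Tendsto (fun n => ∑ k ∈ S, ‖X n k - z k‖) atTop (𝓝 0) := by
    have : Tendsto (fun n => ∑ k ∈ S, ‖X n k - z k‖) atTop (𝓝 (∑ k ∈ S, ‖z k - z k‖)) :=
      tendsto_finsetSum _ fun k _ => ((hz k).sub_const _).norm
    simpa using this
  rw [Metric.tendsto_atTop] at hfin
  obtain ⟨n0, hn0⟩ := hfin (ε / 4) (by positivity)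
  refine ⟨n0, fun n hn => ?_⟩
  have h1 := hn0 n hn
  rw [Real.dist_eq, sub_zero] at h1 ⊢
  have h1' := (le_abs_self _).trans h1.le
  have h2 : ∑' k, ‖X n k - z k‖ ≤ 3 * (ε / 4) := by
    apply Real.tsum_le_of_sum_le (fun k => norm_nonneg _)
    intro T
    have h3 : ∑ k ∈ T, ‖X n k - z k‖ ≤ ∑ k ∈ S, ‖X n k - z k‖ + ∑ k ∈ T \ S, ‖X n k - z k‖ := by
      classical
      rw [← Finset.sum_inter_add_sum_sdiff T S]
      gcongr
      · exact Finset.inter_subset_right
    have h4 := sum_norm_le (hd n) hc (T \ S)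
    have h5 := hS (T \ S) Finset.sdiff_disjoint
    linarith
  rw [abs_of_nonneg (tsum_nonneg fun k => norm_nonneg _)]
  linarith

/-! ### Exponentials -/

theorem ex_eq (k : ℤ) (t : ℝ) : ex k t = Complex.exp (((2 * Real.pi * k * t : ℝ) : ℂ) * Complex.I) := by
  unfold ex; congr 1; push_cast; ring

theorem norm_ex (k : ℤ) (t : ℝ) : ‖ex k t‖ = 1 := by
  rw [ex_eq, Complex.norm_exp_ofReal_mul_I]

theorem continuous_ex (k : ℤ) : Continuous (ex k) := by
  unfold ex; fun_prop

theorem hasDerivAt_ex (k : ℤ) (t : ℝ) :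
    HasDerivAt (ex k) (2 * Real.pi * Complex.I * k * ex k t) t := by
  have h1 : HasDerivAt (fun s : ℝ => 2 * Real.pi * Complex.I * k * (s : ℂ))
      (2 * Real.pi * Complex.I * k) t := by
    simpa using (Complex.ofRealCLM.hasDerivAt (x := t)).const_mul (2 * Real.pi * Complex.I * k)
  exact h1.cexp.congr_deriv (mul_comm _ _)

theorem ex_add_one (k : ℤ) (t : ℝ) : ex k (t + 1) = ex k t := by
  unfold ex
  have : (2 * Real.pi * Complex.I * k * ((t + 1 : ℝ) : ℂ)) =
      2 * Real.pi * Complex.I * k * t + k * (2 * Real.pi * Complex.I) := by push_cast; ring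
  rw [this, Complex.exp_add, Complex.exp_int_mul_two_pi_mul_I, mul_one]

theorem ex_zero (k : ℤ) : ex k 0 = 1 := by
  unfold ex; simp

theorem ex_one (k : ℤ) : ex k 1 = 1 := by
  have := ex_add_one k 0
  rw [zero_add] at this
  rw [this, ex_zero]

theorem ex_zero_left (t : ℝ) : ex 0 t = 1 := by
  unfold ex; simp

theorem tr_eq_tsum {N : ℕ} {x : ℤ → E} (h : ∀ k : ℤ, (N : ℤ) < |k| → x k = 0) (t : ℝ) :
    tr N x t = ∑' k, ex k t • x k := by
  unfold tr
  rw [tsum_eq_sum]
  intro k hk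
  rw [Finset.mem_Icc, not_and_or] at hk
  rw [h k, smul_zero]
  rcases hk with hk | hk
  · rw [abs_of_neg (by omega)]; omega
  · rw [abs_of_pos (by omega)]; omega

theorem continuous_tr (N : ℕ) (x : ℤ → E) : Continuous (tr N x) := by
  unfold tr
  exact continuous_finsetSum _ fun k _ => (continuous_ex k).smul continuous_const

theorem norm_tr_le {N : ℕ} {x : ℤ → E} {B : ℝ}
    (hX : ∀ S : Finset ℤ, ∑ k ∈ S, (1 + (k : ℝ) ^ 2) * ‖x k‖ ^ 2 ≤ B) (t : ℝ) :
    ‖tr N x t‖ ≤ WW / 2 + B / 2 := by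
  unfold tr
  refine (norm_sum_le _ _).trans ?_
  simp_rw [norm_smul, norm_ex, one_mul]
  exact sum_norm_le' hX _

/-- the limit function -/
def yy (z : ℤ → E) (t : ℝ) : E := ∑' k, ex k t • z k

theorem summable_yy {z : ℤ → E} (hz : Summable (fun k => ‖z k‖)) (t : ℝ) :
    Summable (fun k => ex k t • z k) := by
  apply Summable.of_norm
  simp_rw [norm_smul, norm_ex, one_mul]
  exact hz

theorem continuous_yy {z : ℤ → E} (hz : Summable (fun k => ‖z k‖)) : Continuous (yy z) := by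
  unfold yy
  refine continuous_tsum (fun k => (continuous_ex k).smul continuous_const) hz fun k t => ?_
  rw [norm_smul, norm_ex, one_mul]

theorem yy_add_one (z : ℤ → E) (t : ℝ) : yy z (t + 1) = yy z t := by
  unfold yy
  simp_rw [ex_add_one]

theorem norm_yy_le {z : ℤ → E} {B : ℝ}
    (hX : ∀ S : Finset ℤ, ∑ k ∈ S, (1 + (k : ℝ) ^ 2) * ‖z k‖ ^ 2 ≤ B) (t : ℝ) :
    ‖yy z t‖ ≤ WW / 2 + B / 2 := by
  unfold yy
  have hs := summable_norm hX
  have h1 : Summable (fun k => ‖ex k t • z k‖) := by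
    simp_rw [norm_smul, norm_ex, one_mul]; exact hs
  refine (norm_tsum_le_tsum_norm h1).trans ?_
  simp_rw [norm_smul, norm_ex, one_mul]
  exact Real.tsum_le_of_sum_le (fun _ => norm_nonneg _) (sum_norm_le' hX)

theorem tendsto_yy {X : ℕ → ℤ → E} {z : ℤ → E} {B : ℝ} {N : ℕ → ℕ}
    (hs : ∀ n, ∀ k : ℤ, (N n : ℤ) < |k| → X n k = 0)
    (hX : ∀ n, ∀ S : Finset ℤ, ∑ k ∈ S, (1 + (k : ℝ) ^ 2) * ‖X n k‖ ^ 2 ≤ B)
    (hz : ∀ k, Tendsto (fun n => X n k) atTop (𝓝 (z k))) (t : ℝ) :
    Tendsto (fun n => tr (N n) (X n) t) atTop (𝓝 (yy z t)) := by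
  obtain ⟨hzB, hl⟩ := tendsto_l1 hX hz
  rw [tendsto_iff_norm_sub_tendsto_zero]
  refine squeeze_zero (fun n => norm_nonneg _) (fun n => ?_) hl
  rw [tr_eq_tsum (hs n), yy, ← (summable_yy (summable_norm (hX n)) t).tsum_sub
    (summable_yy (summable_norm hzB) t)]
  have h1 : Summable (fun k => ‖X n k - z k‖) := by
    refine Summable.of_nonneg_of_le (fun k => norm_nonneg _) (fun k => norm_sub_le _ _)
      ((summable_norm (hX n)).add (summable_norm hzB))
  have h2 : ∀ k, ‖ex k t • X n k - ex k t • z k‖ = ‖X n k - z k‖ := by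
    intro k; rw [← smul_sub, norm_smul, norm_ex, one_mul]
  refine (norm_tsum_le_tsum_norm (by simp_rw [h2]; exact h1)).trans ?_
  simp_rw [h2]; exact le_rfl

/-! ### Fourier series on the circle -/

/-- a continuous periodic function with summable Fourier coefficients -/
theorem scalar_key (h : ℝ → ℂ) (hc : Continuous h) (hp : ∀ t, h (t + 1) = h t) (b : ℤ → ℂ)
    (hb : Summable b) (hab : ∀ k : ℤ, k ≠ 0 → ∫ t in (0 : ℝ)..1, ex (-k) t * h t = b k) :
    ∃ c : ℂ, ∀ t, h t = c + ∑' k, b k * ex k t := by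
  have hper : Function.Periodic h 1 := hp
  have : Fact ((0 : ℝ) < 1) := ⟨one_pos⟩
  let H : C(AddCircle (1 : ℝ), ℂ) := ⟨hper.lift, by
    apply continuous_coinduced_dom.mpr
    exact hc⟩
  have hH : ∀ t : ℝ, H (t : AddCircle (1 : ℝ)) = h t := fun t => rfl
  have hf : ∀ (k : ℤ) (t : ℝ), fourier k (t : AddCircle (1 : ℝ)) = ex k t := by
    intro k t
    rw [fourier_coe_apply]
    unfold ex
    simp
  have hcoef : ∀ k : ℤ, fourierCoeff H k = ∫ t in (0 : ℝ)..1, ex (-k) t * h t := by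
    intro k
    rw [fourierCoeff_eq_intervalIntegral _ _ 0]
    simp only [hf, hH, smul_eq_mul, zero_add, one_div, inv_one, one_smul]
  have hsum : Summable (fourierCoeff H) := by
    refine hb.congr_cofinite ?_
    have : ∀ᶠ k : ℤ in cofinite, k ≠ 0 := by
      rw [Filter.eventually_cofinite]; simp
    filter_upwards [this] with k hk
    rw [hcoef, hab k hk]
  refine ⟨fourierCoeff H 0 - b 0, fun t => ?_⟩
  have h1 := has_pointwise_sum_fourier_series_of_summable hsum (t : AddCircle (1 : ℝ))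
  simp only [hf, hH, smul_eq_mul] at h1
  have hb' : Summable (fun k => b k * ex k t) := by
    apply Summable.of_norm
    simp_rw [norm_mul, norm_ex, mul_one]
    exact hb.norm
  have h2 := h1.sub hb'.hasSum
  have h3 : ∀ k, fourierCoeff H k * ex k t - b k * ex k t =
      if k = 0 then fourierCoeff H 0 - b 0 else 0 := by
    intro k
    split_ifs with hk
    · subst hk; rw [ex_zero_left]; ring
    · rw [hcoef, hab k hk]; ring
  simp_rw [h3] at h2
  have h4 := h2.unique (hasSum_ite_eq 0 _)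
  rw [← h4]; ring

/-- a function given by its Fourier series solves the equation -/
theorem ode {z : ℤ → E} (hz : Summable (fun k => ‖z k‖)) (g : ℝ → E) (hg : Continuous g)
    (hgp : ∀ t, g (t + 1) = g t) (hzg : ∀ k : ℤ, (2 * Real.pi * k) • z k = coef g k) (t : ℝ) :
    HasDerivAt (yy z) (Complex.I • g t) t := by
  let G : ℝ → E := fun t => ∫ s in (0 : ℝ)..t, g s
  have hG : ∀ t, HasDerivAt G (g t) t := fun t =>
    intervalIntegral.integral_hasDerivAt_right (hg.intervalIntegrable _ _)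
      hg.stronglyMeasurable.stronglyMeasurableAtFilter hg.continuousAt
  have hGc : Continuous G := continuous_iff_continuousAt.mpr fun t => (hG t).continuousAt
  have hG0 : G 0 = 0 := intervalIntegral.integral_same
  have hg0 : ∫ s in (0 : ℝ)..1, g s = 0 := by
    have h := hzg 0
    unfold coef at h
    simp only [neg_zero, ex_zero_left, one_smul] at h
    rw [← h]; simp
  have hGp : ∀ t, G (t + 1) = G t := by
    intro t
    have hper : Function.Periodic g 1 := hgp
    have h1 := hper.intervalIntegral_add_eq t 0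
    rw [zero_add, hg0] at h1
    have h2 := intervalIntegral.integral_add_adjacent_intervals (hg.intervalIntegrable 0 t)
      (hg.intervalIntegrable t (t + 1)) (μ := volume)
    rw [h1, add_zero] at h2
    exact h2.symm
  have key : ∀ (v : E) (t : ℝ), inner ℂ v (G t + Complex.I • yy z t) =
      inner ℂ v (Complex.I • yy z 0) := by
    intro v
    let l : E →L[ℂ] ℂ := innerSL ℂ v
    have hl : ∀ w, l w = inner ℂ v w := fun w => rfl
    have hd : ∀ t, HasDerivAt (fun s => l (G s)) (l (g t)) t := fun t =>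
      (l.restrictScalars ℝ).hasFDerivAt.comp_hasDerivAt t (hG t)
    have hlz : Summable (fun k => -Complex.I * l (z k)) := by
      apply Summable.mul_left
      apply Summable.of_norm
      refine Summable.of_nonneg_of_le (fun k => norm_nonneg _) (fun k => l.le_opNorm _)
        (hz.mul_left _)
    obtain ⟨c, hc⟩ := scalar_key (fun s => l (G s)) (l.continuous.comp hGc)
      (fun t => by simp only [hGp]) (fun k => -Complex.I * l (z k)) hlz (by
        intro k hk
        have h1 := intervalIntegral.integral_mul_deriv_eq_deriv_mul (a := (0 : ℝ)) (b := 1)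
          (u := ex (-k)) (v := fun s => l (G s))
          (u' := fun s => 2 * Real.pi * Complex.I * ((-k : ℤ) : ℂ) * ex (-k) s)
          (v' := fun s => l (g s))
          (fun s _ => hasDerivAt_ex (-k) s) (fun s _ => hd s)
          ((continuous_const.mul (continuous_ex (-k))).intervalIntegrable _ _)
          ((l.continuous.comp hg).intervalIntegrable _ _)
        have hG1 : G 1 = 0 := hg0
        simp only [hG1, hG0, map_zero, mul_zero, sub_zero, zero_sub] at h1
        have h2 : ∫ s in (0 : ℝ)..1, ex (-k) s * l (g s) = l (coef g k) := by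
          unfold coef
          rw [← ContinuousLinearMap.intervalIntegral_comp_comm (L := l)]
          · simp only [map_smul, smul_eq_mul]
          · exact ((continuous_ex (-k)).smul hg).intervalIntegrable _ _
        have h3 : l (coef g k) = 2 * Real.pi * k * l (z k) := by
          rw [← hzg k]
          have h4 := (l.restrictScalars ℝ).map_smul (2 * Real.pi * k) (z k)
          rw [ContinuousLinearMap.coe_restrictScalars'] at h4
          rw [h4, Complex.real_smul]
          push_cast; ring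
        have h5 : ∫ s in (0 : ℝ)..1, 2 * Real.pi * Complex.I * ((-k : ℤ) : ℂ) * ex (-k) s * l (G s)
            = 2 * Real.pi * Complex.I * ((-k : ℤ) : ℂ) * ∫ s in (0 : ℝ)..1, ex (-k) s * l (G s) := by
          rw [← intervalIntegral.integral_const_mul]
          congr 1
          ext s; ring
        rw [h2, h3, h5] at h1
        have hk' : (k : ℂ) ≠ 0 := by exact_mod_cast hk
        have hpi : (Real.pi : ℂ) ≠ 0 := by exact_mod_cast Real.pi_ne_zero
        have h6 : (2 * Real.pi * k : ℂ) * (Complex.I * ∫ s in (0 : ℝ)..1, ex (-k) s * l (G s)) =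
            (2 * Real.pi * k : ℂ) * l (z k) := by
          rw [h1]; push_cast; ring
        have h7 := mul_left_cancel₀ (by
          exact mul_ne_zero (mul_ne_zero two_ne_zero hpi) hk') h6
        rw [← h7]
        rw [← mul_assoc]
        simp)
    have hy : ∀ t, ∑' k, -Complex.I * l (z k) * ex k t = -Complex.I * l (yy z t) := by
      intro t
      unfold yy
      rw [l.map_tsum (summable_yy hz t), ← tsum_mul_left]
      congr 1
      ext k
      rw [map_smul, smul_eq_mul]; ring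
    intro t
    have e1 := hc t
    have e0 := hc 0
    rw [hy] at e1 e0
    rw [hG0, map_zero] at e0
    rw [← hl, ← hl, map_add, map_smul, map_smul, smul_eq_mul, smul_eq_mul, e1]
    linear_combination (-1 : ℂ) * e0
  have key2 : ∀ t, yy z t = yy z 0 + Complex.I • G t := by
    intro t
    have h1 : G t + Complex.I • yy z t = Complex.I • yy z 0 := ext_inner_left ℂ fun v => key v t
    have h2 : yy z t = -Complex.I • (Complex.I • yy z t) := by
      rw [smul_smul]; simp
    rw [h2, eq_sub_of_add_eq' h1, smul_sub, smul_smul]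
    simp [sub_eq_add_neg]
  have h3 : yy z = fun t => yy z 0 + Complex.I • G t := funext key2
  rw [h3]
  exact ((hG t).const_smul Complex.I).const_add _

/-- convergence of integrals of continuous functions along a bounded pointwise convergent sequence -/
theorem int_tendsto {G : Type*} [NormedAddCommGroup G] [NormedSpace ℝ G] [NormedSpace ℂ G]
    [IsScalarTower ℝ ℂ G]
    (h : E → G) (hh : Continuous h) (c : ℝ → ℂ) (hc : Continuous c) (hc1 : ∀ t, ‖c t‖ = 1)
    (u : ℕ → ℝ → E) (hu : ∀ n, Continuous (u n)) (C : ℝ) (hC : ∀ n t, ‖u n t‖ ≤ C)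
    (y : ℝ → E) (hy : ∀ t, Tendsto (fun n => u n t) atTop (𝓝 (y t))) :
    Tendsto (fun n => ∫ t in (0 : ℝ)..1, c t • h (u n t)) atTop
      (𝓝 (∫ t in (0 : ℝ)..1, c t • h (y t))) := by
  have : ProperSpace E := FiniteDimensional.proper ℂ E
  obtain ⟨M, hM⟩ := (isCompact_closedBall (0 : E) C).exists_bound_of_continuousOn hh.continuousOn
  apply intervalIntegral.tendsto_integral_filter_of_dominated_convergence (fun _ => M)
  · exact Eventually.of_forall fun n => (hc.smul (hh.comp (hu n))).aestronglyMeasurable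
  · refine Eventually.of_forall fun n => Eventually.of_forall fun t _ => ?_
    rw [norm_smul, hc1, one_mul]
    apply hM
    rw [mem_closedBall_zero_iff]
    exact hC n t
  · exact intervalIntegrable_const
  · refine Eventually.of_forall fun t _ => ?_
    exact ((hh.tendsto _).comp (hy t)).const_smul _

end B3

open B3 in
/-- TARGET B3: passage to the limit in the Galerkin approximation. -/
theorem galerkin_limit (F : E → ℝ) (f : E → E) (hF : Continuous F) (L : NNReal)
    (hf : LipschitzWith L f) (β : ℝ) (B : ℝ)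
    (x : ℕ → ℤ → E) (hsupp : ∀ N : ℕ, ∀ k : ℤ, (N : ℤ) < |k| → x N k = 0)
    (heq : ∀ N : ℕ, 1 ≤ N → ∀ k : ℤ, |k| ≤ N →
      (2 * Real.pi * k) • x N k = coef (fun t => f (tr N (x N) t)) k)
    (hB : ∀ N : ℕ, 1 ≤ N → ∑ k ∈ Finset.Icc (-(N : ℤ)) N, (1 + (k : ℝ) ^ 2) * ‖x N k‖ ^ 2 ≤ B)
    (hβ : ∀ N : ℕ, 1 ≤ N → β ≤ ∫ t in (0 : ℝ)..1,
      (1 / 2 * inner ℝ (f (tr N (x N) t)) (tr N (x N) t) - F (tr N (x N) t))) :
    ∃ y : ℝ → E, (∀ t, HasDerivAt y (Complex.I • f (y t)) t) ∧ (∀ t, y (t + 1) = y t) ∧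
      β ≤ ∫ t in (0 : ℝ)..1, (1 / 2 * inner ℝ (f (y t)) (y t) - F (y t)) := by
  have hprop : ProperSpace E := FiniteDimensional.proper ℂ E
  -- bounds on finite sets
  have hS : ∀ N : ℕ, 1 ≤ N → ∀ S : Finset ℤ, ∑ k ∈ S, (1 + (k : ℝ) ^ 2) * ‖x N k‖ ^ 2 ≤ B := by
    intro N hN S
    refine le_trans ?_ (hB N hN)
    rw [← Finset.sum_inter_add_sum_sdiff S (Finset.Icc (-(N : ℤ)) N)]
    have h0 : ∑ k ∈ S \ Finset.Icc (-(N : ℤ)) N, (1 + (k : ℝ) ^ 2) * ‖x N k‖ ^ 2 = 0 := by
      apply Finset.sum_eq_zero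
      intro k hk
      rw [Finset.mem_sdiff, Finset.mem_Icc, not_and_or] at hk
      have : x N k = 0 := by
        apply hsupp
        rcases hk.2 with hk | hk
        · rw [abs_of_neg (by omega)]; omega
        · rw [abs_of_pos (by omega)]; omega
      rw [this]; simp
    rw [h0, add_zero]
    exact Finset.sum_le_sum_of_subset_of_nonneg Finset.inter_subset_right
      (fun k _ _ => by positivity)
  have hB0 : 0 ≤ B := by simpa using hS 1 le_rfl ∅
  -- the subsequence
  have hcomp : IsCompact (Set.pi Set.univ (fun _ : ℤ => Metric.closedBall (0 : E) (Real.sqrt B))) :=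
    isCompact_univ_pi fun _ => isCompact_closedBall _ _
  obtain ⟨z, -, φ, hφ, hz⟩ := hcomp.tendsto_subseq (x := fun n => x (n + 1)) (fun n k _ => by
    rw [mem_closedBall_zero_iff]
    apply Real.le_sqrt_of_sq_le
    have h1 := hS (n + 1) (by omega) {k}
    rw [Finset.sum_singleton] at h1
    have h2 : 0 ≤ (k : ℝ) ^ 2 * ‖x (n + 1) k‖ ^ 2 := by positivity
    linarith)
  have hz' : ∀ k, Tendsto (fun n => x (φ n + 1) k) atTop (𝓝 (z k)) := fun k =>
    (tendsto_pi_nhds.mp hz) k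
  have hX : ∀ n, ∀ S : Finset ℤ, ∑ k ∈ S, (1 + (k : ℝ) ^ 2) * ‖x (φ n + 1) k‖ ^ 2 ≤ B :=
    fun n => hS (φ n + 1) (by omega)
  obtain ⟨hzB, -⟩ := tendsto_l1 hX hz'
  have hzs := summable_norm hzB
  have hlim : ∀ t, Tendsto (fun n => tr (φ n + 1) (x (φ n + 1)) t) atTop (𝓝 (yy z t)) := fun t =>
    tendsto_yy (N := fun n => φ n + 1) (X := fun n => x (φ n + 1))
      (fun n k hk => hsupp (φ n + 1) k hk) hX hz' t
  have hyc := continuous_yy hzs
  -- limits of the integrals
  have hcoef : ∀ k : ℤ, (2 * Real.pi * k) • z k = coef (fun t => f (yy z t)) k := by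
    intro k
    have h1 : Tendsto (fun n => coef (fun t => f (tr (φ n + 1) (x (φ n + 1)) t)) k) atTop
        (𝓝 (coef (fun t => f (yy z t)) k)) :=
      int_tendsto f hf.continuous (ex (-k)) (continuous_ex _) (norm_ex _)
        (fun n => tr (φ n + 1) (x (φ n + 1))) (fun n => continuous_tr _ _) (WW / 2 + B / 2)
        (fun n t => norm_tr_le (hX n) t) (yy z) hlim
    have h2 : Tendsto (fun n => (2 * Real.pi * k) • x (φ n + 1) k) atTop
        (𝓝 ((2 * Real.pi * k) • z k)) := (hz' k).const_smul _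
    refine tendsto_nhds_unique (h2.congr' ?_) h1
    filter_upwards [eventually_ge_atTop k.natAbs] with n hn
    apply heq (φ n + 1) (by omega)
    have := hφ.id_le n
    simp only [id] at this
    rw [Int.abs_eq_natAbs]
    omega
  refine ⟨yy z, fun t => ?_, yy_add_one z, ?_⟩
  · exact ode hzs (fun t => f (yy z t)) (hf.continuous.comp hyc)
      (fun t => by simp only [yy_add_one]) hcoef t
  · let H : E → ℝ := fun v => 1 / 2 * inner ℝ (f v) v - F v
    have hH : Continuous H := by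
      have := hf.continuous
      fun_prop
    have h1 : Tendsto (fun n => ∫ t in (0 : ℝ)..1, H (tr (φ n + 1) (x (φ n + 1)) t)) atTop
        (𝓝 (∫ t in (0 : ℝ)..1, H (yy z t))) := by
      obtain ⟨M, hM⟩ := (isCompact_closedBall (0 : E) (WW / 2 + B / 2)).exists_bound_of_continuousOn
        hH.continuousOn
      apply intervalIntegral.tendsto_integral_filter_of_dominated_convergence (fun _ => M)
      · exact Eventually.of_forall fun n => (hH.comp (continuous_tr _ _)).aestronglyMeasurable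
      · refine Eventually.of_forall fun n => Eventually.of_forall fun t _ => ?_
        apply hM
        rw [mem_closedBall_zero_iff]
        exact norm_tr_le (hX n) t
      · exact intervalIntegrable_const
      · exact Eventually.of_forall fun t _ => (hH.tendsto _).comp (hlim t)
    exact ge_of_tendsto' h1 fun n => hβ (φ n + 1) (by omega)

end

end Pool.Agent.Helper906_NullSet
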