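import Mathlib
import Pool.Agent.Helper608.Brouwer

set_option autoImplicit false

open Set MeasureTheory Filter Topology
open scoped ContDiff

namespace Pool.Agent.Helper906_NullSet

noncomputable section

/-- TARGET B1: the finite dimensional minimax principle (linking), with discrete gradient descent.
(Copy `Pool/Agent/Helper608/Brouwer.lean` from the starting tree; it has
`Pool.Agent.Helper608.Brouwer.brouwer : Continuous f → (∀ x, ‖f x‖ ≤ R) → ∃ x, f x = x` in any finite dimensional normed space.)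
Proof.  Suppose not.  The set `Z = {x : β ≤ Φ x ≤ C, ‖g x‖ ≤ 1}` is compact (closed, bounded by `hco`) and `g ≠ 0` on it, so there is
`d > 0` with `‖g x‖ ≥ d` whenever `β ≤ Φ x ≤ C`.  Let `χ x = max 0 (min 1 (Φ x / β))`, `D x = x - (h * χ x) • g x`.
`D` is continuous, `D x = x` if `Φ x ≤ 0`, `Φ (D x) ≤ Φ x - (h χ x / 2) ‖g x‖²`; if `β ≤ Φ x ≤ C` then `Φ (D x) ≤ Φ x - h d²/2`.
So for `m` large (`C - m h d²/2 < β`) `Φ (D^[m] x) < β` whenever `Φ x ≤ C`, and `D^[m] x = x` if `Φ x ≤ 0`.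
Linking: let `η = D^[m]` and `u ↦ k u` on `ℝ × W`, `k (s,w) = (ν (η (s⁺ • e + i w)) - α - s⁻, p (η (s⁺ • e + i w)))` with
`s⁺ = max s 0`, `s⁻ = max (-s) 0`.  For `s ≤ 0`: `Φ (i w) ≤ 0` so `η` fixes it and `k (s,w) = (s - α, w)`.  For `s ≥ 0` and
`max s ‖w‖ ≥ ρ` the same.  So `(s,w) ↦ (s,w) - k (s,w) - (α,0)` is continuous and vanishes outside a ball, hence bounded; apply Brouwer's
theorem to `u ↦ u - k u` (bounded range): there is `u = (s,w)` with `k u = 0`.  Then `s > 0` (else `k u = (s-α, w) ≠ 0`),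
`p (η x) = 0`, `ν (η x) = α` for `x = s • e + i w`, so `β ≤ Φ (η x)` by `hΓ`, but `Φ x ≤ C` gives `Φ (η x) < β`.  Contradiction. -/
theorem minimax {V W : Type*} [NormedAddCommGroup V] [NormedSpace ℝ V] [FiniteDimensional ℝ V]
    [NormedAddCommGroup W] [NormedSpace ℝ W] [FiniteDimensional ℝ W]
    (i : W →ₗ[ℝ] V) (e : V) (p : V → W) (hp : Continuous p)
    (hpi : ∀ s : ℝ, 0 ≤ s → ∀ w, p (s • e + i w) = w)
    (ν : V → ℝ) (hν : Continuous ν) (hνi : ∀ s : ℝ, 0 ≤ s → ∀ w, ν (s • e + i w) = s)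
    (Φ : V → ℝ) (hΦ : Continuous Φ) (g : V → V) (hg : Continuous g)
    (h : ℝ) (hh : 0 < h)
    (hdesc : ∀ x, ∀ s : ℝ, 0 ≤ s → s ≤ h → Φ (x - s • g x) ≤ Φ x - s / 2 * ‖g x‖ ^ 2)
    (R : ℝ) (hco : ∀ x, ‖g x‖ ≤ 1 → ‖x‖ ≤ R)
    (α β C : ℝ) (hα : 0 < α) (hβ : 0 < β) (hΓ : ∀ x, p x = 0 → ν x = α → β ≤ Φ x)
    (h0 : ∀ w, Φ (i w) ≤ 0) (ρ : ℝ)
    (h1 : ∀ s : ℝ, 0 ≤ s → ∀ w, ρ ≤ max s ‖w‖ → Φ (s • e + i w) ≤ 0)
    (hC : ∀ s : ℝ, 0 ≤ s → ∀ w, Φ (s • e + i w) ≤ C) :
    ∃ x, g x = 0 ∧ β ≤ Φ x ∧ Φ x ≤ C := by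
  by_contra hcon
  push Not at hcon
  -- lower bound on the gradient
  obtain ⟨d, hd, hdg⟩ : ∃ d : ℝ, 0 < d ∧ ∀ x, β ≤ Φ x → Φ x ≤ C → d ≤ ‖g x‖ := by
    set Z : Set V := {x | (β ≤ Φ x ∧ Φ x ≤ C) ∧ ‖g x‖ ≤ 1} with hZ
    have hZcl : IsClosed Z := by
      rw [hZ]
      apply IsClosed.inter
      · exact (isClosed_le continuous_const hΦ).inter (isClosed_le hΦ continuous_const)
      · exact isClosed_le hg.norm continuous_const
    have hZb : Bornology.IsBounded Z := by
      refine (Metric.isBounded_closedBall (x := (0 : V)) (r := R)).subset ?_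
      intro x hx
      rw [Metric.mem_closedBall, dist_zero_right]
      exact hco x hx.2
    have hZc : IsCompact Z := Metric.isCompact_of_isClosed_isBounded hZcl hZb
    rcases Z.eq_empty_or_nonempty with hZe | hZne
    · refine ⟨1, one_pos, ?_⟩
      intro x h1x h2x
      by_contra hlt
      push Not at hlt
      have : x ∈ Z := ⟨⟨h1x, h2x⟩, hlt.le⟩
      rw [hZe] at this
      exact this
    · obtain ⟨z, hz, hzmin⟩ := hZc.exists_isMinOn hZne hg.norm.continuousOn
      have hzpos : 0 < ‖g z‖ := by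
        rw [norm_pos_iff]
        intro h0z
        exact absurd hz.1.2 (not_le.mpr (hcon z h0z hz.1.1))
      refine ⟨min 1 ‖g z‖, lt_min one_pos hzpos, ?_⟩
      intro x h1x h2x
      by_cases hle : ‖g x‖ ≤ 1
      · exact (min_le_right _ _).trans (hzmin (show x ∈ Z from ⟨⟨h1x, h2x⟩, hle⟩))
      · exact (min_le_left _ _).trans (not_le.mp hle).le
  -- the descent step
  set χ : V → ℝ := fun x => max 0 (min 1 (Φ x / β)) with hχ
  have hχc : Continuous χ := by
    rw [hχ]
    exact continuous_const.max (continuous_const.min (hΦ.div_const β))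
  have hχ0 : ∀ x, 0 ≤ χ x := fun x => le_max_left _ _
  have hχ1 : ∀ x, χ x ≤ 1 := fun x => max_le zero_le_one (min_le_left _ _)
  set D : V → V := fun x => x - (h * χ x) • g x with hD
  have hDc : Continuous D := by
    rw [hD]
    exact continuous_id.sub ((continuous_const.mul hχc).smul hg)
  have hDfix : ∀ x, Φ x ≤ 0 → D x = x := by
    intro x hx
    have : χ x = 0 := by
      apply max_eq_left
      exact (min_le_right _ _).trans (div_nonpos_of_nonpos_of_nonneg hx hβ.le)
    simp only [hD, this, mul_zero, zero_smul, sub_zero]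
  have hDdesc : ∀ x, Φ (D x) ≤ Φ x - (h * χ x) / 2 * ‖g x‖ ^ 2 := by
    intro x
    apply hdesc
    · exact mul_nonneg hh.le (hχ0 x)
    · calc h * χ x ≤ h * 1 := mul_le_mul_of_nonneg_left (hχ1 x) hh.le
        _ = h := mul_one h
  have hDmono : ∀ x, Φ (D x) ≤ Φ x := by
    intro x
    have := hDdesc x
    have h2 : 0 ≤ (h * χ x) / 2 * ‖g x‖ ^ 2 := by
      have := hχ0 x
      positivity
    linarith
  have hDstrong : ∀ x, β ≤ Φ x → Φ x ≤ C → Φ (D x) ≤ Φ x - h / 2 * d ^ 2 := by
    intro x h1x h2x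
    have h3 := hDdesc x
    have h4 : χ x = 1 := by
      have h5 : 1 ≤ Φ x / β := by rw [le_div_iff₀ hβ, one_mul]; exact h1x
      show max 0 (min 1 (Φ x / β)) = 1
      rw [min_eq_left h5]
      exact max_eq_right zero_le_one
    rw [h4, mul_one] at h3
    have h5 := hdg x h1x h2x
    have h6 : d ^ 2 ≤ ‖g x‖ ^ 2 := by
      apply pow_le_pow_left₀ hd.le h5
    have h7 : h / 2 * d ^ 2 ≤ h / 2 * ‖g x‖ ^ 2 := mul_le_mul_of_nonneg_left h6 (by positivity)
    linarith
  -- iterates
  have hitfix : ∀ m : ℕ, ∀ x, Φ x ≤ 0 → D^[m] x = x := by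
    intro m
    induction m with
    | zero => intro x _; rfl
    | succ m ih =>
      intro x hx
      rw [Function.iterate_succ_apply, hDfix x hx]
      exact ih x hx
  have hitmono : ∀ m : ℕ, ∀ x, Φ (D^[m] x) ≤ Φ x := by
    intro m
    induction m with
    | zero => intro x; exact le_rfl
    | succ m ih =>
      intro x
      rw [Function.iterate_succ_apply']
      exact (hDmono _).trans (ih x)
  have hitstrong : ∀ m : ℕ, ∀ x, Φ x ≤ C → β ≤ Φ (D^[m] x) →
      Φ (D^[m] x) ≤ C - m * (h / 2 * d ^ 2) := by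
    intro m
    induction m with
    | zero => intro x hx _; simpa using hx
    | succ m ih =>
      intro x hx hβx
      rw [Function.iterate_succ_apply'] at hβx ⊢
      have h3 : β ≤ Φ (D^[m] x) := hβx.trans (hDmono _)
      have h4 := ih x hx h3
      have h5 := hDstrong (D^[m] x) h3 ((hitmono m x).trans hx)
      push_cast
      linarith
  obtain ⟨m, hm⟩ : ∃ m : ℕ, C - m * (h / 2 * d ^ 2) < β := by
    obtain ⟨m, hm⟩ := exists_nat_gt ((C - β) / (h / 2 * d ^ 2))
    refine ⟨m, ?_⟩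
    rw [div_lt_iff₀ (by positivity)] at hm
    linarith
  set η : V → V := D^[m] with hη
  have hηc : Continuous η := hDc.iterate m
  have hηfix : ∀ x, Φ x ≤ 0 → η x = x := hitfix m
  have hηlt : ∀ x, Φ x ≤ C → Φ (η x) < β := by
    intro x hx
    by_contra hge
    push Not at hge
    have := hitstrong m x hx hge
    linarith
  -- the linking map
  set γ : ℝ × W → V := fun u => (max u.1 0) • e + i u.2 with hγ
  have hγc : Continuous γ := by
    rw [hγ]
    have hi : Continuous i := LinearMap.continuous_of_finiteDimensional i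
    exact ((continuous_fst.max continuous_const).smul continuous_const).add
      (hi.comp continuous_snd)
  set k : ℝ × W → ℝ × W := fun u => (ν (η (γ u)) - α - max (-u.1) 0, p (η (γ u))) with hk
  have hkc : Continuous k := by
    rw [hk]
    exact (((hν.comp (hηc.comp hγc)).sub continuous_const).sub
      (continuous_fst.neg.max continuous_const)).prodMk (hp.comp (hηc.comp hγc))
  have hkneg : ∀ u : ℝ × W, u.1 ≤ 0 → k u = (u.1 - α, u.2) := by
    intro u hu
    have h3 : γ u = i u.2 := by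
      simp only [hγ, max_eq_right hu, zero_smul, zero_add]
    have h4 : η (γ u) = i u.2 := by
      rw [h3]; exact hηfix _ (h0 _)
    have h5 : ν (i u.2) = 0 := by
      have := hνi 0 le_rfl u.2
      rwa [zero_smul, zero_add] at this
    have h6 : p (i u.2) = u.2 := by
      have := hpi 0 le_rfl u.2
      rwa [zero_smul, zero_add] at this
    simp only [hk, h4, h5, h6]
    rw [max_eq_left (by linarith : (0 : ℝ) ≤ -u.1)]
    congr 1
    ring
  have hkfar : ∀ u : ℝ × W, 0 ≤ u.1 → ρ ≤ max u.1 ‖u.2‖ → k u = (u.1 - α, u.2) := by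
    intro u hu hρu
    have h3 : γ u = u.1 • e + i u.2 := by
      simp only [hγ, max_eq_left hu]
    have h4 : η (γ u) = u.1 • e + i u.2 := by
      rw [h3]; exact hηfix _ (h1 _ hu _ hρu)
    simp only [hk, h4, hνi _ hu, hpi _ hu]
    rw [max_eq_right (by linarith : -u.1 ≤ (0 : ℝ)), sub_zero]
  have hkout : ∀ u : ℝ × W, |ρ| < ‖u‖ → k u = (u.1 - α, u.2) := by
    intro u hu
    rcases le_total u.1 0 with h3 | h3
    · exact hkneg u h3
    · apply hkfar u h3
      have h4 : ‖u‖ = max u.1 ‖u.2‖ := by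
        rw [Prod.norm_def, Real.norm_eq_abs, abs_of_nonneg h3]
      rw [← h4]
      exact (le_abs_self ρ).trans hu.le
  -- bounded perturbation
  set f : ℝ × W → ℝ × W := fun u => u - k u with hf
  have hfc : Continuous f := continuous_id.sub hkc
  obtain ⟨M, hM⟩ : ∃ M : ℝ, ∀ u, ‖f u‖ ≤ M := by
    obtain ⟨M, hM⟩ := (isCompact_closedBall (0 : ℝ × W) |ρ|).exists_bound_of_continuousOn
      hfc.continuousOn
    refine ⟨max M ‖((α, 0) : ℝ × W)‖, ?_⟩
    intro u
    by_cases hu : ‖u‖ ≤ |ρ|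
    · exact (hM u (by rw [Metric.mem_closedBall, dist_zero_right]; exact hu)).trans
        (le_max_left _ _)
    · push Not at hu
      have h3 : f u = (α, 0) := by
        show u - k u = (α, 0)
        rw [hkout u hu]
        ext
        · simp
        · simp
      rw [h3]
      exact le_max_right _ _
  obtain ⟨u, hu⟩ := Pool.Agent.Helper608.Brouwer.brouwer f hfc M hM
  have hku : k u = 0 := by
    have : u - k u = u := hu
    rwa [sub_eq_self] at this
  have hu1 : 0 < u.1 := by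
    by_contra hle
    push Not at hle
    have h3 := hkneg u hle
    rw [hku] at h3
    have h4 : (0 : ℝ) = u.1 - α := congrArg Prod.fst h3
    linarith
  have h3 : ν (η (γ u)) = α := by
    have h4 : (k u).1 = 0 := by rw [hku]; rfl
    have h5 : ν (η (γ u)) - α - max (-u.1) 0 = 0 := h4
    rw [max_eq_right (by linarith : -u.1 ≤ (0 : ℝ))] at h5
    linarith
  have h4 : p (η (γ u)) = 0 := by
    have h5 : (k u).2 = 0 := by rw [hku]; rfl
    exact h5
  have h5 := hΓ _ h4 h3
  have h6 : Φ (γ u) ≤ C := by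
    have h7 : γ u = u.1 • e + i u.2 := by
      simp only [hγ, max_eq_left hu1.le]
    rw [h7]
    exact hC _ hu1.le _
  exact absurd h5 (not_le.mpr (hηlt _ h6))

end

end Pool.Agent.Helper906_NullSet

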