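import Pool.Agent.Helper906_NullSet.FourL4
import Pool.Agent.Helper906_NullSet.Minimax

set_option autoImplicit false

open Set MeasureTheory Filter Topology
open scoped ContDiff

namespace Pool.Agent.Helper906_NullSet

noncomputable section

attribute [local instance] InnerProductSpace.complexToReal

variable {E : Type*} [NormedAddCommGroup E] [InnerProductSpace ℂ E] [FiniteDimensional ℂ E]
  [CompleteSpace E]

theorem tr_add (N : ℕ) (x y : ℤ → E) (t : ℝ) : tr N (x + y) t = tr N x t + tr N y t := by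
  simp [tr, smul_add, Finset.sum_add_distrib]

/-- the reduced action functional -/
def Phi (F : E → ℝ) (N : ℕ) (y : ℤ → E) : ℝ :=
  Real.pi * ∑ k ∈ Finset.Icc (-(N : ℤ)) N, (k : ℝ) * ‖y k‖ ^ 2 -
    ∫ t in (0 : ℝ)..1, F (tr N y t)

/-- the gradient of the reduced action functional -/
def Gr (f : E → E) (N : ℕ) (y : ℤ → E) (k : ℤ) : E :=
  (2 * Real.pi * k) • y k - coef (fun t => f (tr N y t)) k

theorem Phi_add_le (F : E → ℝ) (f : E → E) (hF : Continuous F) (hf : Continuous f) (L : ℝ)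
    (hlow : ∀ x v, F x + inner ℝ (f x) v - L * ‖v‖ ^ 2 ≤ F (x + v)) (N : ℕ) (y v : ℤ → E) :
    Phi F N (y + v) ≤ Phi F N y +
      ∑ k ∈ Finset.Icc (-(N : ℤ)) N, inner ℝ (Gr f N y k) (v k) +
      (Real.pi * N + L) * ∑ k ∈ Finset.Icc (-(N : ℤ)) N, ‖v k‖ ^ 2 := by
  have cy := continuous_tr N y
  have cv := continuous_tr N v
  have h1 : ∫ t in (0 : ℝ)..1, F (tr N (y + v) t) ≥
      (∫ t in (0 : ℝ)..1, F (tr N y t)) +
        (∑ k ∈ Finset.Icc (-(N : ℤ)) N, inner ℝ (coef (fun t => f (tr N y t)) k) (v k)) -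
        L * ∑ k ∈ Finset.Icc (-(N : ℤ)) N, ‖v k‖ ^ 2 := by
    rw [← integral_inner_tr N (fun t => f (tr N y t)) (hf.comp cy) v, ← integral_norm_tr N v,
      ← intervalIntegral.integral_const_mul, ← intervalIntegral.integral_add,
      ← intervalIntegral.integral_sub]
    · apply intervalIntegral.integral_mono_on zero_le_one
      · exact (((hF.comp cy).add ((hf.comp cy).inner cv)).sub
          ((cv.norm.pow 2).const_mul L)).intervalIntegrable _ _
      · exact (hF.comp (continuous_tr N (y + v))).intervalIntegrable _ _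
      · intro t _
        rw [tr_add]
        exact hlow _ _
    · exact ((hF.comp cy).add ((hf.comp cy).inner cv)).intervalIntegrable _ _
    · exact ((cv.norm.pow 2).const_mul L).intervalIntegrable _ _
    · exact (hF.comp cy).intervalIntegrable _ _
    · exact ((hf.comp cy).inner cv).intervalIntegrable _ _
  have h2 : Real.pi * ∑ k ∈ Finset.Icc (-(N : ℤ)) N, (k : ℝ) * ‖(y + v) k‖ ^ 2 ≤
      Real.pi * ∑ k ∈ Finset.Icc (-(N : ℤ)) N, (k : ℝ) * ‖y k‖ ^ 2 +
      ∑ k ∈ Finset.Icc (-(N : ℤ)) N, inner ℝ ((2 * Real.pi * (k : ℝ)) • y k) (v k) +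
      Real.pi * N * ∑ k ∈ Finset.Icc (-(N : ℤ)) N, ‖v k‖ ^ 2 := by
    rw [Finset.mul_sum, Finset.mul_sum, Finset.mul_sum, ← Finset.sum_add_distrib,
      ← Finset.sum_add_distrib]
    apply Finset.sum_le_sum
    intro k hk
    rw [Finset.mem_Icc] at hk
    have hkN : (k : ℝ) ≤ N := by exact_mod_cast hk.2
    rw [Pi.add_apply, @norm_add_sq_real, inner_smul_left]
    simp only [conj_trivial]
    have h3 : Real.pi * ((k : ℝ) * ‖v k‖ ^ 2) ≤ Real.pi * N * ‖v k‖ ^ 2 := by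
      rw [mul_assoc]
      exact mul_le_mul_of_nonneg_left (mul_le_mul_of_nonneg_right hkN (by positivity))
        Real.pi_pos.le
    nlinarith [h3]
  have h4 : ∑ k ∈ Finset.Icc (-(N : ℤ)) N, inner ℝ (Gr f N y k) (v k) =
      ∑ k ∈ Finset.Icc (-(N : ℤ)) N, inner ℝ ((2 * Real.pi * (k : ℝ)) • y k) (v k) -
      ∑ k ∈ Finset.Icc (-(N : ℤ)) N, inner ℝ (coef (fun t => f (tr N y t)) k) (v k) := by
    rw [← Finset.sum_sub_distrib]
    apply Finset.sum_congr rfl
    intro k _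
    rw [Gr, inner_sub_left]
  unfold Phi
  rw [h4]
  linarith

theorem Phi_desc (F : E → ℝ) (f : E → E) (hF : Continuous F) (hf : Continuous f) (L : ℝ)
    (hL : 0 ≤ L) (hlow : ∀ x v, F x + inner ℝ (f x) v - L * ‖v‖ ^ 2 ≤ F (x + v)) (N : ℕ)
    (hN : 1 ≤ N) (y v : ℤ → E) (s : ℝ) (hs : 0 ≤ s) (hs1 : s ≤ 1 / (2 * (Real.pi * N + L)))
    (hv : ∀ k ∈ Finset.Icc (-(N : ℤ)) N, v k = -(s • Gr f N y k)) :
    Phi F N (y + v) ≤ Phi F N y - s / 2 * ∑ k ∈ Finset.Icc (-(N : ℤ)) N, ‖Gr f N y k‖ ^ 2 := by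
  have h := Phi_add_le F f hF hf L hlow N y v
  have e1 : ∑ k ∈ Finset.Icc (-(N : ℤ)) N, inner ℝ (Gr f N y k) (v k) =
      -(s * ∑ k ∈ Finset.Icc (-(N : ℤ)) N, ‖Gr f N y k‖ ^ 2) := by
    rw [Finset.mul_sum, ← Finset.sum_neg_distrib]
    apply Finset.sum_congr rfl
    intro k hk
    rw [hv k hk, inner_neg_right, inner_smul_right, real_inner_self_eq_norm_sq]
  have e2 : ∑ k ∈ Finset.Icc (-(N : ℤ)) N, ‖v k‖ ^ 2 =
      s ^ 2 * ∑ k ∈ Finset.Icc (-(N : ℤ)) N, ‖Gr f N y k‖ ^ 2 := by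
    rw [Finset.mul_sum]
    apply Finset.sum_congr rfl
    intro k hk
    rw [hv k hk, norm_neg, norm_smul, Real.norm_of_nonneg hs, mul_pow]
  rw [e1, e2] at h
  have hpos : 0 ≤ ∑ k ∈ Finset.Icc (-(N : ℤ)) N, ‖Gr f N y k‖ ^ 2 :=
    Finset.sum_nonneg fun k _ => by positivity
  have hNr : (1 : ℝ) ≤ N := by exact_mod_cast hN
  have hc : 0 < Real.pi * N + L := by
    have := Real.pi_pos
    positivity
  have h3 : (Real.pi * N + L) * s ≤ 1 / 2 := by
    rw [le_div_iff₀ (by positivity)] at hs1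
    linarith
  have h4 : (Real.pi * N + L) * (s ^ 2 * ∑ k ∈ Finset.Icc (-(N : ℤ)) N, ‖Gr f N y k‖ ^ 2) ≤
      s / 2 * ∑ k ∈ Finset.Icc (-(N : ℤ)) N, ‖Gr f N y k‖ ^ 2 := by
    have : (Real.pi * N + L) * (s ^ 2 * ∑ k ∈ Finset.Icc (-(N : ℤ)) N, ‖Gr f N y k‖ ^ 2) =
        ((Real.pi * N + L) * s) * (s * ∑ k ∈ Finset.Icc (-(N : ℤ)) N, ‖Gr f N y k‖ ^ 2) := by
      ring
    rw [this]
    calc _ ≤ 1 / 2 * (s * ∑ k ∈ Finset.Icc (-(N : ℤ)) N, ‖Gr f N y k‖ ^ 2) :=
          mul_le_mul_of_nonneg_right h3 (by positivity)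
      _ = _ := by ring
  linarith

/-- the norm of a Fourier coefficient -/
theorem norm_coef_le (y : ℝ → E) (C : ℝ) (hC : ∀ t, ‖y t‖ ≤ C) (k : ℤ) : ‖coef y k‖ ≤ C := by
  have := intervalIntegral.norm_integral_le_of_norm_le_const (a := (0 : ℝ)) (b := 1)
    (f := fun t => ex (-k) t • y t) (C := C) (by
      intro t _
      rw [norm_smul, norm_ex, one_mul]
      exact hC t)
  simpa [coef] using this

theorem coef_sub (y z : ℝ → E) (hy : Continuous y) (hz : Continuous z) (k : ℤ) :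
    coef (fun t => y t - z t) k = coef y k - coef z k := by
  unfold coef
  rw [← intervalIntegral.integral_sub]
  · apply intervalIntegral.integral_congr
    intro t _
    simp [smul_sub]
  · exact ((continuous_ex (-k)).smul hy).intervalIntegrable _ _
  · exact ((continuous_ex (-k)).smul hz).intervalIntegrable _ _

theorem coef_smul (c : ℝ) (y : ℝ → E) (k : ℤ) :
    coef (fun t => c • y t) k = c • coef y k := by
  unfold coef
  rw [← intervalIntegral.integral_smul]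
  apply intervalIntegral.integral_congr
  intro t _
  simp only
  rw [smul_comm]

/-- the equation in shifted form -/
theorem Gr_eq (f : E → E) (hf : Continuous f) (κ : ℝ) (N : ℕ) (y : ℤ → E) (k : ℤ)
    (hk : |k| ≤ N) :
    Gr f N y k = (2 * Real.pi * k - 2 * κ) • y k -
      coef (fun t => f (tr N y t) - (2 * κ) • tr N y t) k := by
  have cy := continuous_tr N y
  rw [coef_sub (fun t => f (tr N y t)) (fun t => (2 * κ) • tr N y t) (hf.comp cy)
    (cy.const_smul (2 * κ)), coef_smul (2 * κ) (tr N y), coef_tr N y k hk, Gr, sub_smul]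
  abel

theorem shift_lower (κ : ℝ) (hκ : Real.pi < κ) (hκ2 : κ < 2 * Real.pi) (k : ℤ) :
    2 * min (κ - Real.pi) (2 * Real.pi - κ) ≤ |2 * Real.pi * k - 2 * κ| := by
  have hpi := Real.pi_pos
  rcases le_or_gt k 1 with h | h
  · have hk : (k : ℝ) ≤ 1 := by exact_mod_cast h
    rw [abs_of_nonpos (by nlinarith)]
    have := min_le_left (κ - Real.pi) (2 * Real.pi - κ)
    nlinarith
  · have hk : (2 : ℝ) ≤ k := by exact_mod_cast h
    rw [abs_of_nonneg (by nlinarith)]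
    have := min_le_right (κ - Real.pi) (2 * Real.pi - κ)
    nlinarith

end

end Pool.Agent.Helper906_NullSet
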