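import Pool.Agent.Helper906_NullSet.Galerkin

set_option autoImplicit false

open Set MeasureTheory Filter Topology
open scoped ContDiff

namespace Pool.Agent.Helper906_NullSet

noncomputable section

attribute [local instance] InnerProductSpace.complexToReal

variable {E : Type*} [NormedAddCommGroup E] [InnerProductSpace ℂ E] [FiniteDimensional ℂ E]
  [CompleteSpace E]

theorem integral_le_const (φ : ℝ → ℝ) (hφ : Continuous φ) (C : ℝ) (h : ∀ t, φ t ≤ C) :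
    ∫ t in (0 : ℝ)..1, φ t ≤ C := by
  have := intervalIntegral.integral_mono_on (zero_le_one' ℝ) (hφ.intervalIntegrable 0 1)
    (continuous_const.intervalIntegrable (μ := volume) (u := fun _ : ℝ => C) 0 1)
    (fun t _ => h t)
  simpa using this

theorem crit_bound (f : E → E) (hf : Continuous f) (κ C1 δ : ℝ) (hδ : 0 < δ) (N : ℕ)
    (hδ1 : ∀ k : ℤ, δ ≤ |2 * Real.pi * k - 2 * κ|)
    (h5 : ∀ x, ‖f x - (2 * κ) • x‖ ≤ C1) (y : ℤ → E)
    (hy : ∀ k ∈ Finset.Icc (-(N : ℤ)) N, Gr f N y k = 0) :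
    ∑ k ∈ Finset.Icc (-(N : ℤ)) N, ‖y k‖ ^ 2 ≤ (C1 / δ) ^ 2 := by
  have cy := continuous_tr N y
  have hz : Continuous (fun t => f (tr N y t) - (2 * κ) • tr N y t) :=
    (hf.comp cy).sub (cy.const_smul _)
  have hb := bessel N _ hz
  have hi : ∫ t in (0 : ℝ)..1, ‖f (tr N y t) - (2 * κ) • tr N y t‖ ^ 2 ≤ C1 ^ 2 := by
    apply integral_le_const _ (hz.norm.pow 2)
    intro t
    exact pow_le_pow_left₀ (norm_nonneg _) (h5 _) 2
  have h1 : δ ^ 2 * ∑ k ∈ Finset.Icc (-(N : ℤ)) N, ‖y k‖ ^ 2 ≤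
      ∑ k ∈ Finset.Icc (-(N : ℤ)) N,
        ‖coef (fun t => f (tr N y t) - (2 * κ) • tr N y t) k‖ ^ 2 := by
    rw [Finset.mul_sum]
    apply Finset.sum_le_sum
    intro k hk
    have hk' : |k| ≤ N := by
      rw [Finset.mem_Icc] at hk
      exact abs_le.2 hk
    have e := Gr_eq f hf κ N y k hk'
    rw [hy k hk] at e
    have e' : coef (fun t => f (tr N y t) - (2 * κ) • tr N y t) k =
        (2 * Real.pi * k - 2 * κ) • y k := (sub_eq_zero.1 e.symm).symm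
    rw [e', norm_smul, mul_pow, Real.norm_eq_abs]
    exact mul_le_mul_of_nonneg_right (pow_le_pow_left₀ hδ.le (hδ1 k) 2) (by positivity)
  rw [div_pow, le_div_iff₀ (by positivity), mul_comm]
  linarith

theorem crit_bound2 (f : E → E) (hf : Continuous f) (κ C1 : ℝ) (hκ : 0 < κ) (N : ℕ)
    (h5 : ∀ x, ‖f x - (2 * κ) • x‖ ≤ C1) (y : ℤ → E)
    (hy : ∀ k ∈ Finset.Icc (-(N : ℤ)) N, Gr f N y k = 0) (S : ℝ)
    (hS : ∑ k ∈ Finset.Icc (-(N : ℤ)) N, ‖y k‖ ^ 2 ≤ S) :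
    ∑ k ∈ Finset.Icc (-(N : ℤ)) N, (1 + (k : ℝ) ^ 2) * ‖y k‖ ^ 2 ≤
      S + (2 * C1 ^ 2 + 8 * κ ^ 2 * S) := by
  have cy := continuous_tr N y
  have hz : Continuous (fun t => f (tr N y t)) := hf.comp cy
  have hb := bessel N _ hz
  have hpt : ∀ t, ‖f (tr N y t)‖ ^ 2 ≤ 2 * C1 ^ 2 + 8 * κ ^ 2 * ‖tr N y t‖ ^ 2 := by
    intro t
    have h1 := h5 (tr N y t)
    have h2 : ‖f (tr N y t)‖ ≤ C1 + 2 * κ * ‖tr N y t‖ := by
      calc ‖f (tr N y t)‖ = ‖(f (tr N y t) - (2 * κ) • tr N y t) + (2 * κ) • tr N y t‖ := by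
            rw [sub_add_cancel]
        _ ≤ ‖f (tr N y t) - (2 * κ) • tr N y t‖ + ‖(2 * κ) • tr N y t‖ := norm_add_le _ _
        _ ≤ C1 + 2 * κ * ‖tr N y t‖ := by
            rw [norm_smul, Real.norm_of_nonneg (by positivity)]
            linarith
    have h3 : 0 ≤ ‖f (tr N y t)‖ := norm_nonneg _
    nlinarith [sq_nonneg (C1 - 2 * κ * ‖tr N y t‖)]
  have hi : ∫ t in (0 : ℝ)..1, ‖f (tr N y t)‖ ^ 2 ≤
      2 * C1 ^ 2 + 8 * κ ^ 2 * ∑ k ∈ Finset.Icc (-(N : ℤ)) N, ‖y k‖ ^ 2 := by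
    rw [← integral_norm_tr N y]
    have : (2 * C1 ^ 2 + 8 * κ ^ 2 * ∫ t in (0 : ℝ)..1, ‖tr N y t‖ ^ 2) =
        ∫ t in (0 : ℝ)..1, (2 * C1 ^ 2 + 8 * κ ^ 2 * ‖tr N y t‖ ^ 2) := by
      rw [intervalIntegral.integral_add, intervalIntegral.integral_const_mul]
      · simp
      · exact continuous_const.intervalIntegrable _ _
      · exact ((cy.norm.pow 2).const_mul _).intervalIntegrable _ _
    rw [this]
    apply intervalIntegral.integral_mono_on zero_le_one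
    · exact (hz.norm.pow 2).intervalIntegrable _ _
    · exact (continuous_const.add ((cy.norm.pow 2).const_mul _)).intervalIntegrable _ _
    · intro t _
      exact hpt t
  have h1 : ∑ k ∈ Finset.Icc (-(N : ℤ)) N, (k : ℝ) ^ 2 * ‖y k‖ ^ 2 ≤
      ∑ k ∈ Finset.Icc (-(N : ℤ)) N, ‖coef (fun t => f (tr N y t)) k‖ ^ 2 := by
    apply Finset.sum_le_sum
    intro k hk
    have e := hy k hk
    rw [Gr, sub_eq_zero] at e
    rw [← e, norm_smul, mul_pow, Real.norm_eq_abs, sq_abs]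
    have h2 : (k : ℝ) ^ 2 ≤ (2 * Real.pi * k) ^ 2 := by
      have h3 : 1 ≤ 2 * Real.pi := by linarith [Real.pi_gt_three]
      have h4 : 1 ≤ (2 * Real.pi) ^ 2 := by nlinarith
      rw [mul_pow (2 * Real.pi)]
      nlinarith [sq_nonneg (k : ℝ)]
    exact mul_le_mul_of_nonneg_right h2 (by positivity)
  have h2 : ∑ k ∈ Finset.Icc (-(N : ℤ)) N, (1 + (k : ℝ) ^ 2) * ‖y k‖ ^ 2 =
      ∑ k ∈ Finset.Icc (-(N : ℤ)) N, ‖y k‖ ^ 2 +
      ∑ k ∈ Finset.Icc (-(N : ℤ)) N, (k : ℝ) ^ 2 * ‖y k‖ ^ 2 := by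
    rw [← Finset.sum_add_distrib]
    exact Finset.sum_congr rfl fun k _ => by ring
  have h3 : 8 * κ ^ 2 * ∑ k ∈ Finset.Icc (-(N : ℤ)) N, ‖y k‖ ^ 2 ≤ 8 * κ ^ 2 * S :=
    mul_le_mul_of_nonneg_left hS (by positivity)
  rw [h2]
  linarith

/-- lower bound of the functional on the positive sphere -/
theorem Phi_lower (F : E → ℝ) (hF : Continuous F) (C4 : ℝ) (hC4 : 0 ≤ C4)
    (h4 : ∀ x, F x ≤ C4 * ‖x‖ ^ 4)
    (N : ℕ) (y : ℤ → E) (hy : ∀ k : ℤ, k ≤ 0 → y k = 0) :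
    Real.pi * (∑ k ∈ Finset.Icc (-(N : ℤ)) N, (k : ℝ) * ‖y k‖ ^ 2) -
      2 * C4 * (∑ k ∈ Finset.Icc (-(N : ℤ)) N, (k : ℝ) * ‖y k‖ ^ 2) ^ 2 ≤ Phi F N y := by
  have cy := continuous_tr N y
  have h1 : ∫ t in (0 : ℝ)..1, F (tr N y t) ≤ C4 * ∫ t in (0 : ℝ)..1, ‖tr N y t‖ ^ 4 := by
    rw [← intervalIntegral.integral_const_mul]
    apply intervalIntegral.integral_mono_on zero_le_one
    · exact (hF.comp cy).intervalIntegrable _ _
    · exact ((cy.norm.pow 4).const_mul _).intervalIntegrable _ _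
    · intro t _
      exact h4 _
  have h2 := mul_le_mul_of_nonneg_left (integral_tr_four N y hy) hC4
  unfold Phi
  nlinarith

theorem integral_lower (F : E → ℝ) (hF : Continuous F) (κ' C' : ℝ)
    (h6 : ∀ x, κ' * ‖x‖ ^ 2 - C' ≤ F x) (N : ℕ) (y : ℤ → E) :
    κ' * (∑ k ∈ Finset.Icc (-(N : ℤ)) N, ‖y k‖ ^ 2) - C' ≤
      ∫ t in (0 : ℝ)..1, F (tr N y t) := by
  have cy := continuous_tr N y
  rw [← integral_norm_tr N y]
  have : (κ' * (∫ t in (0 : ℝ)..1, ‖tr N y t‖ ^ 2) - C') =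
      ∫ t in (0 : ℝ)..1, (κ' * ‖tr N y t‖ ^ 2 - C') := by
    rw [intervalIntegral.integral_sub, intervalIntegral.integral_const_mul]
    · simp
    · exact ((cy.norm.pow 2).const_mul _).intervalIntegrable _ _
    · exact continuous_const.intervalIntegrable _ _
  rw [this]
  apply intervalIntegral.integral_mono_on zero_le_one
  · exact (((cy.norm.pow 2).const_mul _).sub continuous_const).intervalIntegrable _ _
  · exact (hF.comp cy).intervalIntegrable _ _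
  · intro t _
    exact h6 _

/-- upper bound on the half space -/
theorem Phi_upper (F : E → ℝ) (hF : Continuous F) (κ' C' : ℝ)
    (h6 : ∀ x, κ' * ‖x‖ ^ 2 - C' ≤ F x) (N : ℕ) (y : ℤ → E)
    (hy : ∀ k : ℤ, 2 ≤ k → y k = 0) :
    Phi F N y ≤ -((κ' - Real.pi) * ∑ k ∈ Finset.Icc (-(N : ℤ)) N, ‖y k‖ ^ 2) + C' := by
  have h1 := integral_lower F hF κ' C' h6 N y
  have h2 : ∑ k ∈ Finset.Icc (-(N : ℤ)) N, (k : ℝ) * ‖y k‖ ^ 2 ≤
      ∑ k ∈ Finset.Icc (-(N : ℤ)) N, ‖y k‖ ^ 2 := by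
    apply Finset.sum_le_sum
    intro k _
    rcases le_or_gt 2 k with h | h
    · simp [hy k h]
    · have hk : (k : ℝ) ≤ 1 := by exact_mod_cast (by omega : k ≤ 1)
      nlinarith [sq_nonneg ‖y k‖]
  have h3 := mul_le_mul_of_nonneg_left h2 Real.pi_pos.le
  unfold Phi
  linarith

theorem Phi_nonpos (F : E → ℝ) (hpos : ∀ x, 0 ≤ F x) (N : ℕ) (y : ℤ → E)
    (hy : ∀ k : ℤ, 1 ≤ k → y k = 0) : Phi F N y ≤ 0 := by
  have h1 : 0 ≤ ∫ t in (0 : ℝ)..1, F (tr N y t) :=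
    intervalIntegral.integral_nonneg zero_le_one fun t _ => hpos _
  have h2 : ∑ k ∈ Finset.Icc (-(N : ℤ)) N, (k : ℝ) * ‖y k‖ ^ 2 ≤ 0 := by
    apply Finset.sum_nonpos
    intro k _
    rcases le_or_gt 1 k with h | h
    · simp [hy k h]
    · have hk : (k : ℝ) ≤ 0 := by exact_mod_cast (by omega : k ≤ 0)
      exact mul_nonpos_of_nonpos_of_nonneg hk (by positivity)
  have h3 := mul_nonpos_of_nonneg_of_nonpos Real.pi_pos.le h2
  unfold Phi
  linarith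

/-- the action of a critical point -/
theorem Phi_crit (F : E → ℝ) (f : E → E) (hF : Continuous F) (hf : Continuous f) (N : ℕ)
    (y : ℤ → E) (hy : ∀ k ∈ Finset.Icc (-(N : ℤ)) N, Gr f N y k = 0) :
    Phi F N y =
      ∫ t in (0 : ℝ)..1, (1 / 2 * inner ℝ (f (tr N y t)) (tr N y t) - F (tr N y t)) := by
  have cy := continuous_tr N y
  rw [intervalIntegral.integral_sub, intervalIntegral.integral_const_mul,
    integral_inner_tr N (fun t => f (tr N y t)) (hf.comp cy) y]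
  · unfold Phi
    congr 1
    rw [Finset.mul_sum, Finset.mul_sum]
    apply Finset.sum_congr rfl
    intro k hk
    have e := hy k hk
    rw [Gr, sub_eq_zero] at e
    rw [← e, inner_smul_left, real_inner_self_eq_norm_sq]
    simp only [conj_trivial]
    ring
  · exact (((hf.comp cy).inner cy).const_mul _).intervalIntegrable _ _
  · exact (hF.comp cy).intervalIntegrable _ _

end

end Pool.Agent.Helper906_NullSet
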