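import Pool.Agent.Helper906_NullSet.Galerkin2

set_option autoImplicit false

open Set MeasureTheory Filter Topology
open scoped ContDiff

namespace Pool.Agent.Helper906_NullSet

noncomputable section

attribute [local instance] InnerProductSpace.complexToReal

variable {E : Type*} [NormedAddCommGroup E] [InnerProductSpace ℂ E] [FiniteDimensional ℂ E]
  [CompleteSpace E]

/-- extension of a finite family by zero -/
def ext (N : ℕ) (x : {k : ℤ // k ∈ Finset.Icc (-(N : ℤ)) N} → E) (k : ℤ) : E :=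
  if h : k ∈ Finset.Icc (-(N : ℤ)) N then x ⟨k, h⟩ else 0

theorem ext_of_mem (N : ℕ) (x : {k : ℤ // k ∈ Finset.Icc (-(N : ℤ)) N} → E) (k : ℤ)
    (h : k ∈ Finset.Icc (-(N : ℤ)) N) : ext N x k = x ⟨k, h⟩ := by
  simp only [ext, dif_pos h]

theorem ext_of_not_mem (N : ℕ) (x : {k : ℤ // k ∈ Finset.Icc (-(N : ℤ)) N} → E) (k : ℤ)
    (h : k ∉ Finset.Icc (-(N : ℤ)) N) : ext N x k = 0 := by
  simp only [ext, dif_neg h]

theorem continuous_ext (N : ℕ) (k : ℤ) :
    Continuous (fun x : {k : ℤ // k ∈ Finset.Icc (-(N : ℤ)) N} → E => ext N x k) := by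
  by_cases h : k ∈ Finset.Icc (-(N : ℤ)) N
  · simp only [ext, dif_pos h]
    exact continuous_apply _
  · simp only [ext, dif_neg h]
    exact continuous_const

theorem continuous_tr_ext (N : ℕ) : Continuous (fun q :
    ({k : ℤ // k ∈ Finset.Icc (-(N : ℤ)) N} → E) × ℝ => tr N (ext N q.1) q.2) := by
  unfold tr
  apply continuous_finsetSum
  intro k _
  exact ((continuous_ex k).comp continuous_snd).smul ((continuous_ext N k).comp continuous_fst)

theorem continuous_Phi (F : E → ℝ) (hF : Continuous F) (N : ℕ) :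
    Continuous (fun x : {k : ℤ // k ∈ Finset.Icc (-(N : ℤ)) N} → E => Phi F N (ext N x)) := by
  unfold Phi
  apply Continuous.sub
  · apply Continuous.mul continuous_const
    apply continuous_finsetSum
    intro k _
    exact continuous_const.mul ((continuous_ext N k).norm.pow 2)
  · apply intervalIntegral.continuous_parametric_intervalIntegral_of_continuous'
    exact hF.comp (continuous_tr_ext N)

theorem continuous_Gr (f : E → E) (hf : Continuous f) (N : ℕ) (k : ℤ) :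
    Continuous (fun x : {k : ℤ // k ∈ Finset.Icc (-(N : ℤ)) N} → E => Gr f N (ext N x) k) := by
  unfold Gr
  apply Continuous.sub
  · exact (continuous_ext N k).const_smul (2 * Real.pi * (k : ℝ))
  · unfold coef
    apply intervalIntegral.continuous_parametric_intervalIntegral_of_continuous'
    exact ((continuous_ex (-k)).comp continuous_snd).smul (hf.comp (continuous_tr_ext N))

theorem norm_sq_le_sum {ι : Type*} [Fintype ι] (x : ι → E) : ‖x‖ ^ 2 ≤ ∑ k, ‖x k‖ ^ 2 := by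
  have h0 : 0 ≤ ∑ k, ‖x k‖ ^ 2 := Finset.sum_nonneg fun k _ => by positivity
  have h1 : ‖x‖ ≤ Real.sqrt (∑ k, ‖x k‖ ^ 2) := by
    rw [pi_norm_le_iff_of_nonneg (Real.sqrt_nonneg _)]
    intro k
    apply Real.le_sqrt_of_sq_le
    exact Finset.single_le_sum (f := fun k => ‖x k‖ ^ 2) (fun k _ => by positivity)
      (Finset.mem_univ k)
  calc ‖x‖ ^ 2 ≤ Real.sqrt (∑ k, ‖x k‖ ^ 2) ^ 2 := pow_le_pow_left₀ (norm_nonneg _) h1 2
    _ = _ := Real.sq_sqrt h0

/-- the inclusion of the nonpositive frequencies -/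
def iW (N : ℕ) : ({k : ℤ // k ∈ Finset.Icc (-(N : ℤ)) 0} → E) →ₗ[ℝ]
    ({k : ℤ // k ∈ Finset.Icc (-(N : ℤ)) N} → E) where
  toFun w k := if h : (k : ℤ) ∈ Finset.Icc (-(N : ℤ)) 0 then w ⟨k, h⟩ else 0
  map_add' w w' := by
    funext k
    by_cases h : (k : ℤ) ∈ Finset.Icc (-(N : ℤ)) 0
    · simp only [Pi.add_apply, dif_pos h]
    · simp only [Pi.add_apply, dif_neg h, add_zero]
  map_smul' c w := by
    funext k
    by_cases h : (k : ℤ) ∈ Finset.Icc (-(N : ℤ)) 0
    · simp only [Pi.smul_apply, dif_pos h, RingHom.id_apply]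
    · simp only [Pi.smul_apply, dif_neg h, RingHom.id_apply, smul_zero]

theorem mem_of_mem (N : ℕ) (k : ℤ) (h : k ∈ Finset.Icc (-(N : ℤ)) 0) :
    k ∈ Finset.Icc (-(N : ℤ)) N := by
  rw [Finset.mem_Icc] at h ⊢
  omega

/-- the projection to the nonpositive frequencies -/
def pW (N : ℕ) (x : {k : ℤ // k ∈ Finset.Icc (-(N : ℤ)) N} → E) :
    {k : ℤ // k ∈ Finset.Icc (-(N : ℤ)) 0} → E :=
  fun k => x ⟨k, mem_of_mem N k k.2⟩

/-- the first positive mode -/
def eW (N : ℕ) (e₁ : E) : {k : ℤ // k ∈ Finset.Icc (-(N : ℤ)) N} → E :=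
  fun k => if (k : ℤ) = 1 then e₁ else 0

/-- the gauge of the positive part -/
def nuW (N : ℕ) (x : {k : ℤ // k ∈ Finset.Icc (-(N : ℤ)) N} → E) : ℝ :=
  Real.sqrt (∑ k ∈ Finset.Icc (-(N : ℤ)) N, (max (k : ℝ) 0) * ‖ext N x k‖ ^ 2)

theorem ext_sum (N : ℕ) (hN : 1 ≤ N) (e₁ : E) (s : ℝ)
    (w : {k : ℤ // k ∈ Finset.Icc (-(N : ℤ)) 0} → E) (k : ℤ) :
    ext N (s • eW N e₁ + iW N w) k =
      if h : k ∈ Finset.Icc (-(N : ℤ)) 0 then w ⟨k, h⟩ else if k = 1 then s • e₁ else 0 := by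
  by_cases h : k ∈ Finset.Icc (-(N : ℤ)) 0
  · have h1 : k ≠ 1 := by
      rw [Finset.mem_Icc] at h
      omega
    rw [ext_of_mem N _ k (mem_of_mem N k h), dif_pos h]
    have e1 : eW N e₁ ⟨k, mem_of_mem N k h⟩ = 0 := if_neg h1
    have e2 : iW N w ⟨k, mem_of_mem N k h⟩ = w ⟨k, h⟩ := dif_pos h
    rw [Pi.add_apply, Pi.smul_apply, e1, e2, smul_zero, zero_add]
  · rw [dif_neg h]
    by_cases h1 : k = 1
    · have h2 : k ∈ Finset.Icc (-(N : ℤ)) N := by
        rw [Finset.mem_Icc]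
        omega
      rw [ext_of_mem N _ k h2, if_pos h1]
      have e1 : eW N e₁ ⟨k, h2⟩ = e₁ := if_pos h1
      have e2 : iW N w ⟨k, h2⟩ = 0 := dif_neg h
      rw [Pi.add_apply, Pi.smul_apply, e1, e2, add_zero]
    · rw [if_neg h1]
      by_cases h2 : k ∈ Finset.Icc (-(N : ℤ)) N
      · rw [ext_of_mem N _ k h2]
        have e1 : eW N e₁ ⟨k, h2⟩ = 0 := if_neg h1
        have e2 : iW N w ⟨k, h2⟩ = 0 := dif_neg h
        rw [Pi.add_apply, Pi.smul_apply, e1, e2, add_zero, smul_zero]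
      · rw [ext_of_not_mem N _ k h2]

theorem nuW_sum (N : ℕ) (hN : 1 ≤ N) (e₁ : E) (he : ‖e₁‖ = 1) (s : ℝ) (hs : 0 ≤ s)
    (w : {k : ℤ // k ∈ Finset.Icc (-(N : ℤ)) 0} → E) :
    nuW N (s • eW N e₁ + iW N w) = s := by
  have h1 : ∑ k ∈ Finset.Icc (-(N : ℤ)) N,
      (max (k : ℝ) 0) * ‖ext N (s • eW N e₁ + iW N w) k‖ ^ 2 = s ^ 2 := by
    rw [Finset.sum_eq_single (1 : ℤ)]
    · rw [ext_sum N hN]
      have : (1 : ℤ) ∉ Finset.Icc (-(N : ℤ)) 0 := by
        rw [Finset.mem_Icc]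
        omega
      simp [norm_smul, he]
    · intro k _ hk1
      rw [ext_sum N hN]
      by_cases h : k ∈ Finset.Icc (-(N : ℤ)) 0
      · have : (k : ℝ) ≤ 0 := by
          rw [Finset.mem_Icc] at h
          exact_mod_cast h.2
        rw [max_eq_right this, zero_mul]
      · simp [h, hk1]
    · intro h
      exfalso
      apply h
      rw [Finset.mem_Icc]
      omega
  rw [nuW, h1, Real.sqrt_sq hs]

theorem galerkin_N [Nontrivial E] (F : E → ℝ) (f : E → E) (hF : Continuous F) (L : NNReal)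
    (hf : LipschitzWith L f)
    (hlow : ∀ x v, F x + inner ℝ (f x) v - L * ‖v‖ ^ 2 ≤ F (x + v))
    (hpos : ∀ x, 0 ≤ F x) (C4 : ℝ) (hC4 : 0 ≤ C4) (h4 : ∀ x, F x ≤ C4 * ‖x‖ ^ 4)
    (κ C1 : ℝ) (hκ : Real.pi < κ) (hκ2 : κ < 2 * Real.pi)
    (h5 : ∀ x, ‖f x - (2 * κ) • x‖ ≤ C1)
    (κ' C' : ℝ) (hκ' : Real.pi < κ') (h6 : ∀ x, κ' * ‖x‖ ^ 2 - C' ≤ F x)
    (α β : ℝ) (hα : 0 < α) (hβ : 0 < β)
    (hαβ : β ≤ Real.pi * α ^ 2 - 2 * C4 * (α ^ 2) ^ 2) (N : ℕ) (hN : 1 ≤ N) :
    ∃ y : ℤ → E, (∀ k : ℤ, (N : ℤ) < |k| → y k = 0) ∧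
      (∀ k ∈ Finset.Icc (-(N : ℤ)) N, Gr f N y k = 0) ∧ β ≤ Phi F N y := by
  obtain ⟨e₁, he₁⟩ := exists_norm_eq E (zero_le_one' ℝ)
  have hfc := hf.continuous
  have hpi := Real.pi_pos
  have hC1 : 0 ≤ C1 := (norm_nonneg _).trans (h5 0)
  have hC'0 : 0 ≤ C' := by
    have h1 := h6 0
    have h2 := h4 0
    simp at h1 h2
    linarith
  set δ : ℝ := 2 * min (κ - Real.pi) (2 * Real.pi - κ) with hδ
  have hδ0 : 0 < δ := by
    have : 0 < min (κ - Real.pi) (2 * Real.pi - κ) := lt_min (by linarith) (by linarith)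
    linarith
  have hNr : (1 : ℝ) ≤ N := by exact_mod_cast hN
  have hL : (0 : ℝ) ≤ L := L.2
  have key := minimax (V := {k : ℤ // k ∈ Finset.Icc (-(N : ℤ)) N} → E)
    (W := {k : ℤ // k ∈ Finset.Icc (-(N : ℤ)) 0} → E) (iW N) (eW N e₁) (pW N)
    (by
      unfold pW
      exact continuous_pi fun k => continuous_apply _)
    (by
      intro s _ w
      funext k
      have h1 : ((k : ℤ)) ≠ 1 := by
        have := k.2
        rw [Finset.mem_Icc] at this
        omega
      simp [pW, iW, eW, h1]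
      intro h2
      have := k.2
      rw [Finset.mem_Icc] at this
      omega)
    (nuW N)
    (by
      unfold nuW
      apply Continuous.sqrt
      apply continuous_finsetSum
      intro k _
      exact continuous_const.mul ((continuous_ext N k).norm.pow 2))
    (fun s hs w => nuW_sum N hN e₁ he₁ s hs w)
    (fun x => Phi F N (ext N x)) (continuous_Phi F hF N)
    (fun x k => Gr f N (ext N x) k)
    (continuous_pi fun k => continuous_Gr f hfc N k)
    (1 / (2 * (Real.pi * N + L))) (by positivity)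
    (by
      intro x s hs hs1
      have e1 : ext N (x - s • fun k : {k : ℤ // k ∈ Finset.Icc (-(N : ℤ)) N} =>
          Gr f N (ext N x) k) = ext N x +
          (fun k => if k ∈ Finset.Icc (-(N : ℤ)) N then -(s • Gr f N (ext N x) k) else 0) := by
        funext k
        by_cases h : k ∈ Finset.Icc (-(N : ℤ)) N
        · rw [Pi.add_apply, ext_of_mem N _ k h, ext_of_mem N x k h]
          simp only [Pi.sub_apply, Pi.smul_apply, if_pos h]
          abel
        · rw [Pi.add_apply, ext_of_not_mem N _ k h, ext_of_not_mem N x k h]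
          simp only [if_neg h, add_zero]
      have h1 := Phi_desc F f hF hfc L hL hlow N hN (ext N x)
        (fun k => if k ∈ Finset.Icc (-(N : ℤ)) N then -(s • Gr f N (ext N x) k) else 0) s hs hs1
        (fun k hk => by simp only [if_pos hk])
      have h2 := norm_sq_le_sum (fun k : {k : ℤ // k ∈ Finset.Icc (-(N : ℤ)) N} =>
        Gr f N (ext N x) k)
      have h3 : ∑ k ∈ Finset.Icc (-(N : ℤ)) N, ‖Gr f N (ext N x) k‖ ^ 2 =
          ∑ k : {k : ℤ // k ∈ Finset.Icc (-(N : ℤ)) N}, ‖Gr f N (ext N x) k‖ ^ 2 := by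
        rw [← Finset.sum_coe_sort]
      have h4 : s / 2 * ‖fun k : {k : ℤ // k ∈ Finset.Icc (-(N : ℤ)) N} =>
          Gr f N (ext N x) k‖ ^ 2 ≤
          s / 2 * ∑ k ∈ Finset.Icc (-(N : ℤ)) N, ‖Gr f N (ext N x) k‖ ^ 2 := by
        rw [h3]
        exact mul_le_mul_of_nonneg_left h2 (by positivity)
      rw [e1]
      linarith)
    ((1 + C1) / δ)
    (by
      intro x hx
      have hx1 : ∀ k : {k : ℤ // k ∈ Finset.Icc (-(N : ℤ)) N}, ‖Gr f N (ext N x) k‖ ≤ 1 := by
        intro k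
        exact (norm_le_pi_norm (fun k : {k : ℤ // k ∈ Finset.Icc (-(N : ℤ)) N} =>
          Gr f N (ext N x) k) k).trans hx
      rw [pi_norm_le_iff_of_nonneg (by positivity)]
      intro k
      have hk' : |(k : ℤ)| ≤ N := by
        have := k.2
        rw [Finset.mem_Icc] at this
        exact abs_le.2 this
      have e := Gr_eq f hfc κ N (ext N x) k hk'
      have e2 : (2 * Real.pi * ((k : ℤ) : ℝ) - 2 * κ) • ext N x k =
          Gr f N (ext N x) k +
          coef (fun t => f (tr N (ext N x) t) - (2 * κ) • tr N (ext N x) t) k := by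
        rw [e]
        abel
      have h1 : ‖(2 * Real.pi * ((k : ℤ) : ℝ) - 2 * κ) • ext N x k‖ ≤ 1 + C1 := by
        rw [e2]
        exact (norm_add_le _ _).trans (add_le_add (hx1 k)
          (norm_coef_le _ _ (fun t => h5 _) _))
      rw [norm_smul, Real.norm_eq_abs] at h1
      have h2 := shift_lower κ hκ hκ2 k
      rw [ext_of_mem N x k k.2] at h1
      rw [le_div_iff₀ hδ0, mul_comm]
      exact (mul_le_mul_of_nonneg_right h2 (norm_nonneg _)).trans h1)
    α β C' hα hβ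
    (by
      intro x hpx hνx
      have hx0 : ∀ k : ℤ, k ≤ 0 → ext N x k = 0 := by
        intro k hk
        by_cases h : k ∈ Finset.Icc (-(N : ℤ)) N
        · rw [ext_of_mem N x k h]
          have h' : k ∈ Finset.Icc (-(N : ℤ)) 0 := by
            rw [Finset.mem_Icc] at h ⊢
            exact ⟨h.1, hk⟩
          exact congrFun hpx ⟨k, h'⟩
        · exact ext_of_not_mem N x k h
      have hsum : ∑ k ∈ Finset.Icc (-(N : ℤ)) N, (k : ℝ) * ‖ext N x k‖ ^ 2 = α ^ 2 := by
        have h1 : ∑ k ∈ Finset.Icc (-(N : ℤ)) N, (k : ℝ) * ‖ext N x k‖ ^ 2 =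
            ∑ k ∈ Finset.Icc (-(N : ℤ)) N, (max (k : ℝ) 0) * ‖ext N x k‖ ^ 2 := by
          apply Finset.sum_congr rfl
          intro k _
          rcases le_or_gt k 0 with h | h
          · rw [hx0 k h]
            simp
          · have : (0 : ℝ) ≤ k := by exact_mod_cast h.le
            rw [max_eq_left this]
        have h2 : 0 ≤ ∑ k ∈ Finset.Icc (-(N : ℤ)) N, (max (k : ℝ) 0) * ‖ext N x k‖ ^ 2 :=
          Finset.sum_nonneg fun k _ => mul_nonneg (le_max_right _ _) (by positivity)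
        rw [h1, ← hνx, nuW, Real.sq_sqrt h2]
      have h1 := Phi_lower F hF C4 hC4 h4 N (ext N x) hx0
      rw [hsum] at h1
      linarith)
    (by
      intro w
      apply Phi_nonpos F hpos
      intro k hk
      have := ext_sum N hN e₁ 0 w k
      rw [zero_smul, zero_add] at this
      rw [this]
      have h1 : k ∉ Finset.Icc (-(N : ℤ)) 0 := by
        rw [Finset.mem_Icc]
        omega
      simp [h1])
    (Real.sqrt (C' / (κ' - Real.pi)))
    (by
      intro s hs w hρ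
      have h1 := Phi_upper F hF κ' C' h6 N (ext N (s • eW N e₁ + iW N w)) (by
        intro k hk
        rw [ext_sum N hN]
        have h1 : k ∉ Finset.Icc (-(N : ℤ)) 0 := by
          rw [Finset.mem_Icc]
          omega
        have h2 : k ≠ 1 := by omega
        simp [h1, h2])
      have h2 : C' / (κ' - Real.pi) ≤
          ∑ k ∈ Finset.Icc (-(N : ℤ)) N, ‖ext N (s • eW N e₁ + iW N w) k‖ ^ 2 := by
        have h3 : C' / (κ' - Real.pi) ≤ (max s ‖w‖) ^ 2 := by
          have := pow_le_pow_left₀ (Real.sqrt_nonneg _) hρ 2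
          rwa [Real.sq_sqrt (div_nonneg hC'0 (by linarith))] at this
        refine h3.trans ?_
        rcases max_cases s ‖w‖ with ⟨h, _⟩ | ⟨h, _⟩
        · rw [h]
          have h1m : (1 : ℤ) ∈ Finset.Icc (-(N : ℤ)) N := by
            rw [Finset.mem_Icc]
            omega
          have := Finset.single_le_sum
            (f := fun k => ‖ext N (s • eW N e₁ + iW N w) k‖ ^ 2)
            (fun k _ => by positivity) h1m
          refine le_trans ?_ this
          rw [ext_sum N hN]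
          have h5' : (1 : ℤ) ∉ Finset.Icc (-(N : ℤ)) 0 := by
            rw [Finset.mem_Icc]
            omega
          simp [norm_smul, he₁]
        · rw [h]
          refine (norm_sq_le_sum w).trans ?_
          rw [Finset.sum_coe_sort_eq_attach]
          have h7 : ∑ k ∈ (Finset.Icc (-(N : ℤ)) 0).attach, ‖w k‖ ^ 2 =
              ∑ k ∈ Finset.Icc (-(N : ℤ)) 0, ‖ext N (s • eW N e₁ + iW N w) k‖ ^ 2 := by
            rw [← Finset.sum_attach (Finset.Icc (-(N : ℤ)) 0)]
            apply Finset.sum_congr rfl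
            intro k _
            rw [ext_sum N hN, dif_pos k.2]
          rw [h7]
          apply Finset.sum_le_sum_of_subset_of_nonneg
          · intro k hk
            exact mem_of_mem N k hk
          · intro k _ _
            positivity
      have h8 : C' ≤ (κ' - Real.pi) *
          ∑ k ∈ Finset.Icc (-(N : ℤ)) N, ‖ext N (s • eW N e₁ + iW N w) k‖ ^ 2 := by
        rw [div_le_iff₀ (by linarith)] at h2
        linarith
      linarith)
    (by
      intro s hs w
      have h1 := Phi_upper F hF κ' C' h6 N (ext N (s • eW N e₁ + iW N w)) (by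
        intro k hk
        rw [ext_sum N hN]
        have h1 : k ∉ Finset.Icc (-(N : ℤ)) 0 := by
          rw [Finset.mem_Icc]
          omega
        have h2 : k ≠ 1 := by omega
        simp [h1, h2])
      have h2 : 0 ≤ (κ' - Real.pi) *
          ∑ k ∈ Finset.Icc (-(N : ℤ)) N, ‖ext N (s • eW N e₁ + iW N w) k‖ ^ 2 :=
        mul_nonneg (by linarith) (Finset.sum_nonneg fun k _ => by positivity)
      linarith)
  obtain ⟨x, hgx, hβx, _⟩ := key
  refine ⟨ext N x, ?_, ?_, hβx⟩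
  · intro k hk
    apply ext_of_not_mem
    rw [Finset.mem_Icc]
    intro h
    have := abs_le.2 h
    omega
  · intro k hk
    exact congrFun hgx ⟨k, hk⟩

/-- B2: Galerkin approximations -/
theorem galerkin [Nontrivial E] (F : E → ℝ) (f : E → E) (hF : Continuous F) (L : NNReal)
    (hf : LipschitzWith L f)
    (hlow : ∀ x v, F x + inner ℝ (f x) v - L * ‖v‖ ^ 2 ≤ F (x + v))
    (hpos : ∀ x, 0 ≤ F x) (C4 : ℝ) (h4 : ∀ x, F x ≤ C4 * ‖x‖ ^ 4)
    (κ C1 : ℝ) (hκ : Real.pi < κ) (hκ2 : κ < 2 * Real.pi)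
    (h5 : ∀ x, ‖f x - (2 * κ) • x‖ ≤ C1)
    (κ' C' : ℝ) (hκ' : Real.pi < κ') (h6 : ∀ x, κ' * ‖x‖ ^ 2 - C' ≤ F x) :
    ∃ β : ℝ, 0 < β ∧ ∃ B : ℝ, ∀ N : ℕ, 1 ≤ N → ∃ x : ℤ → E,
      (∀ k : ℤ, (N : ℤ) < |k| → x k = 0) ∧
      (∀ k : ℤ, |k| ≤ N → (2 * Real.pi * k) • x k = coef (fun t => f (tr N x t)) k) ∧
      (∑ k ∈ Finset.Icc (-(N : ℤ)) N, (1 + (k : ℝ) ^ 2) * ‖x k‖ ^ 2 ≤ B) ∧
      β ≤ ∫ t in (0 : ℝ)..1, (1 / 2 * inner ℝ (f (tr N x t)) (tr N x t) - F (tr N x t)) := by
  have hpi := Real.pi_pos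
  have hC4 : 0 ≤ C4 := by
    obtain ⟨e₁, he₁⟩ := exists_norm_eq E (zero_le_one' ℝ)
    have h1 := h4 e₁
    have h2 := hpos e₁
    rw [he₁] at h1
    linarith
  set a : ℝ := Real.pi / (4 * (C4 + 1)) with ha
  have ha0 : 0 < a := by positivity
  have haC : C4 * a ≤ Real.pi / 4 := by
    rw [ha, mul_div_assoc', div_le_div_iff₀ (by positivity) (by norm_num)]
    nlinarith
  set δ : ℝ := 2 * min (κ - Real.pi) (2 * Real.pi - κ) with hδ
  have hδ0 : 0 < δ := by
    have : 0 < min (κ - Real.pi) (2 * Real.pi - κ) := lt_min (by linarith) (by linarith)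
    linarith
  refine ⟨Real.pi / 2 * a, by positivity,
    (C1 / δ) ^ 2 + (2 * C1 ^ 2 + 8 * κ ^ 2 * (C1 / δ) ^ 2), ?_⟩
  intro N hN
  obtain ⟨y, hy1, hy2, hy3⟩ := galerkin_N F f hF L hf hlow hpos C4 hC4 h4 κ C1 hκ hκ2 h5 κ' C'
    hκ' h6 (Real.sqrt a) (Real.pi / 2 * a) (Real.sqrt_pos.2 ha0) (by positivity) (by
      rw [Real.sq_sqrt ha0.le]
      nlinarith) N hN
  refine ⟨y, hy1, ?_, ?_, ?_⟩
  · intro k hk
    have h := hy2 k (by
      rw [Finset.mem_Icc]
      exact abs_le.1 hk)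
    rw [Gr, sub_eq_zero] at h
    exact h
  · exact crit_bound2 f hf.continuous κ C1 (by linarith) N h5 y hy2 _
      (crit_bound f hf.continuous κ C1 δ hδ0 N (fun k => shift_lower κ hκ hκ2 k) h5 y hy2)
  · rw [← Phi_crit F f hF hf.continuous N y hy2]
    exact hy3

end

end Pool.Agent.Helper906_NullSet
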