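import Pool.Agent.Helper906_NullSet.Galerkin3
import Pool.Agent.Helper906_NullSet.GalLimit

set_option autoImplicit false

open Set MeasureTheory Filter Topology
open scoped ContDiff

namespace Pool.Agent.Helper906_NullSet

noncomputable section

attribute [local instance] InnerProductSpace.complexToReal

variable {E : Type*} [NormedAddCommGroup E] [InnerProductSpace ℂ E] [FiniteDimensional ℂ E]
  [CompleteSpace E]

/-- existence of periodic solutions for the modified problem -/
theorem existence [Nontrivial E] (F : E → ℝ) (f : E → E) (hF : Continuous F) (L : NNReal)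
    (hf : LipschitzWith L f)
    (hlow : ∀ x v, F x + inner ℝ (f x) v - L * ‖v‖ ^ 2 ≤ F (x + v))
    (hpos : ∀ x, 0 ≤ F x) (C4 : ℝ) (h4 : ∀ x, F x ≤ C4 * ‖x‖ ^ 4)
    (κ C1 : ℝ) (hκ : Real.pi < κ) (hκ2 : κ < 2 * Real.pi)
    (h5 : ∀ x, ‖f x - (2 * κ) • x‖ ≤ C1)
    (κ' C' : ℝ) (hκ' : Real.pi < κ') (h6 : ∀ x, κ' * ‖x‖ ^ 2 - C' ≤ F x) :
    ∃ y : ℝ → E, (∀ t, HasDerivAt y (Complex.I • f (y t)) t) ∧ (∀ t, y (t + 1) = y t) ∧
      0 < ∫ t in (0 : ℝ)..1, (1 / 2 * inner ℝ (f (y t)) (y t) - F (y t)) := by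
  obtain ⟨β, hβ, B, hN⟩ := galerkin F f hF L hf hlow hpos C4 h4 κ C1 hκ hκ2 h5 κ' C' hκ' h6
  choose! x hx using hN
  obtain ⟨y, hy1, hy2, hy3⟩ := galerkin_limit F f hF L hf β B
    (fun N => if 1 ≤ N then x N else 0)
    (fun N k hk => by
      by_cases h : 1 ≤ N
      · simp only [if_pos h]
        exact (hx N h).1 k hk
      · simp only [if_neg h, Pi.zero_apply])
    (fun N h k hk => by
      simp only [if_pos h]
      exact (hx N h).2.1 k hk)
    (fun N h => by
      simp only [if_pos h]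
      exact (hx N h).2.2.1)
    (fun N h => by
      simp only [if_pos h]
      exact (hx N h).2.2.2)
  exact ⟨y, hy1, hy2, hβ.trans_le hy3⟩

/-! ### auxiliary lemmas for `hofer_zehnder` -/

/-- the radial profile -/
def hzP (κ R s : ℝ) : ℝ := κ * (s - R ^ 2) * Real.smoothTransition ((s - R ^ 2) / R ^ 2)

theorem hzP_contDiff (κ R : ℝ) : ContDiff ℝ ∞ (hzP κ R) := by
  unfold hzP
  exact (contDiff_const.mul (contDiff_id.sub contDiff_const)).mul
    (Real.smoothTransition.contDiff.comp ((contDiff_id.sub contDiff_const).div_const _))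

theorem hzP_zero {κ R s : ℝ} (hs : s ≤ R ^ 2) : hzP κ R s = 0 := by
  unfold hzP
  rw [Real.smoothTransition.zero_of_nonpos
    (div_nonpos_of_nonpos_of_nonneg (by linarith) (sq_nonneg R)), mul_zero]

theorem hzP_large {κ R s : ℝ} (hR : 0 < R) (hs : 2 * R ^ 2 ≤ s) : hzP κ R s = κ * (s - R ^ 2) := by
  unfold hzP
  rw [Real.smoothTransition.one_of_one_le, mul_one]
  rw [le_div_iff₀ (by positivity)]
  linarith

theorem hzP_nonneg {κ R : ℝ} (hκ : 0 ≤ κ) (s : ℝ) : 0 ≤ hzP κ R s := by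
  rcases le_total s (R ^ 2) with h | h
  · rw [hzP_zero h]
  · unfold hzP
    exact mul_nonneg (mul_nonneg hκ (by linarith)) (Real.smoothTransition.nonneg _)

theorem hzP_differentiable (κ R : ℝ) : Differentiable ℝ (hzP κ R) :=
  (hzP_contDiff κ R).differentiable (by simp)

theorem hzP_deriv_zero {κ R s : ℝ} (hκ : 0 ≤ κ) (hs : s ≤ R ^ 2) : deriv (hzP κ R) s = 0 := by
  have : IsLocalMin (hzP κ R) s := Filter.Eventually.of_forall fun t => by
    rw [hzP_zero hs]
    exact hzP_nonneg hκ t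
  exact this.deriv_eq_zero

theorem hzP_deriv_large {κ R s : ℝ} (hR : 0 < R) (hs : 2 * R ^ 2 < s) :
    deriv (hzP κ R) s = κ := by
  have h1 : hzP κ R =ᶠ[𝓝 s] fun s => κ * (s - R ^ 2) := by
    filter_upwards [lt_mem_nhds hs] with t ht
    exact hzP_large hR ht.le
  rw [h1.deriv_eq]
  have : HasDerivAt (fun s : ℝ => κ * (s - R ^ 2)) (κ * 1) s :=
    ((hasDerivAt_id s).sub_const _).const_mul κ
  rw [this.deriv, mul_one]

theorem hzP_bound (κ R : ℝ) (hR : 0 < R) : ∃ C : ℝ, 0 ≤ C ∧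
    ∀ s, 0 ≤ s → deriv (hzP κ R) s * s - hzP κ R s ≤ C := by
  have hcont : Continuous fun s => deriv (hzP κ R) s * s - hzP κ R s :=
    (((hzP_contDiff κ R).continuous_deriv (by simp)).mul continuous_id).sub
      (hzP_contDiff κ R).continuous
  obtain ⟨B, hB⟩ := (isCompact_Icc (a := (0 : ℝ)) (b := 2 * R ^ 2)).exists_bound_of_continuousOn
    hcont.continuousOn
  refine ⟨max (max B (κ * R ^ 2)) 0, le_max_right _ _, fun s hs => ?_⟩
  rcases le_or_gt s (2 * R ^ 2) with h | h
  · exact ((le_abs_self _).trans (hB s ⟨hs, h⟩)).trans ((le_max_left _ _).trans (le_max_left _ _))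
  · rw [hzP_deriv_large hR h, hzP_large hR h.le]
    refine le_trans (le_of_eq ?_) ((le_max_right _ _).trans (le_max_left _ _))
    ring

theorem hz_inner_ext {x y : E} (h : ∀ w, inner ℝ x w = inner ℝ y w) : x = y :=
  ext_inner_right ℝ h

/-- gradient of a radial perturbation -/
theorem hz_grad_add (F : E → ℝ) (p : ℝ → ℝ) (x : E) (hF : DifferentiableAt ℝ F x)
    (hp : DifferentiableAt ℝ p (‖x‖ ^ 2)) :
    grad (fun x => F x + p (‖x‖ ^ 2)) x = grad F x + (2 * deriv p (‖x‖ ^ 2)) • x := by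
  apply hz_inner_ext
  intro w
  rw [inner_grad, inner_add_left, inner_grad, real_inner_smul_left]
  have h1 : HasFDerivAt (fun x : E => ‖x‖ ^ 2) (2 • (innerSL ℝ x)) x :=
    (hasStrictFDerivAt_norm_sq x).hasFDerivAt
  have h2 := hp.hasDerivAt.comp_hasFDerivAt x h1
  have h3 := hF.hasFDerivAt.add h2
  have h4 : HasFDerivAt (fun x => F x + p (‖x‖ ^ 2))
      (fderiv ℝ F x + deriv p (‖x‖ ^ 2) • (2 • (innerSL ℝ x))) x := h3
  rw [h4.fderiv]
  simp
  ring

theorem hz_inner_I (x : E) : inner ℝ x (Complex.I • x) = 0 := by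
  rw [real_inner_eq_re_inner ℂ, inner_smul_right, inner_self_eq_norm_sq_to_K]
  simp [← Complex.ofReal_pow]

theorem hz_posPart_sq (u : ℝ) : HasDerivAt (fun u : ℝ => (max u 0) ^ 2) (2 * max u 0) u := by
  rcases lt_trichotomy u 0 with h | h | h
  · rw [max_eq_right h.le, mul_zero]
    refine (hasDerivAt_const u (0 : ℝ)).congr_of_eventuallyEq ?_
    filter_upwards [gt_mem_nhds h] with t ht
    rw [max_eq_right ht.le]
    norm_num
  · subst h
    rw [max_self, mul_zero, hasDerivAt_iff_isLittleO]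
    simp only [max_self, sub_zero, smul_eq_mul, mul_zero]
    norm_num
    have h1 : (fun x : ℝ => max x 0 ^ 2) =O[𝓝 0] fun x => x ^ 2 := by
      apply Asymptotics.isBigO_of_le
      intro x
      rw [Real.norm_eq_abs, Real.norm_eq_abs, abs_of_nonneg (sq_nonneg _), abs_of_nonneg (sq_nonneg _)]
      rcases le_total x 0 with hx | hx
      · rw [max_eq_right hx]
        nlinarith [sq_nonneg x]
      · rw [max_eq_left hx]
    exact h1.trans_isLittleO (Asymptotics.isLittleO_pow_id (by norm_num))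
  · rw [max_eq_left h.le]
    have : HasDerivAt (fun u : ℝ => u ^ 2) (2 * u) u := by simpa using hasDerivAt_pow 2 u
    refine this.congr_of_eventuallyEq ?_
    filter_upwards [lt_mem_nhds h] with t ht
    rw [max_eq_left ht.le]

/-- TARGET A: the Hofer-Zehnder theorem.
Proof.  Fix `κ ∈ (π, 2π)` (say `3π/2`) and a smooth `P : ℝ → ℝ`, `P = 0` on `(-∞,R²]`, `P ≥ 0`, `P s = κ (s - R²)` for `s ≥ 2R²` (for
instance `P s = κ (s - R²) * Real.smoothTransition ((s - R²)/R²)`), `C_P` a bound for `|P'|` (`P'` is continuous, `0` on `(-∞,R²]`, `κ` on `[2R²,∞)`).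
`CR = 2 R² C_P` (make it `≥ 0`).  Given `G, m, z0` let `F x = G x + P(‖x‖²)`, `f = grad F`.
Facts: `‖z0‖ < R`; `G ≤ m'` for some `m'` (continuous, constant outside a ball); `F x - κ‖x‖²` is smooth and constant outside the ball of radius `2R`, so
`f x - 2κ x` (its gradient) is smooth with compact support, hence bounded and Lipschitz (`ContDiff.lipschitzWith_of_hasCompactSupport`) and `f` is Lipschitz;
`F(x+v) ≥ F x + ⟨f x, v⟩ - L‖v‖²` (mean value inequality for `F - ⟨f x, ·⟩` on the segment); `F x ≥ κ‖x‖² - 2κR²`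
(`‖x‖² ≥ 2R²`: `F ≥ κ‖x‖² - κR²`; else `F ≥ 0`); `F(z0+x) ≤ C4‖x‖⁴` (`F = 0` near `z0`, quadratic growth).
Apply `existence` to `F0 x = F (z0+x)`, `f0 x = f (z0+x)` with `κ' ∈ (π, κ)`: get `y`; put `x t = z0 + y t`: `x' = i f(x)`, 1-periodic, and as
`∫ f(x) = ∫ -i x' = 0`, `∫ (1/2⟨f x, x⟩ - F x) = ∫ (1/2 ⟨f0 y, y⟩ - F0 y) > 0`.
Case 1: `‖x t0‖ > R` for some `t0`.  Where `‖x‖ > R`, `f x = 2P'(‖x‖²) x`, so `‖x t‖²` has derivative `2⟨x, i f x⟩ = 0` there; hence
`(max (‖x t‖² - R²) 0)²` has derivative `0` everywhere, so is constant, and `‖x t‖ = r > R` for all `t`.  The action is `P'(r²) r² - m - P(r²) > 0`.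
If `r² ≤ 2R²` it is `≤ C_P 2R² - m < 0`, contradiction.  If `r² > 2R²`: `x' = 2iκ x`, `x t = exp(2iκt) x 0` (derivative of
`exp(-2iκt) x t` is `0`), `x 1 = x 0 ≠ 0` gives `exp(2iκ) = 1`, contradiction with `π < κ < 2π`.
Case 2: `‖x t‖ ≤ R` for all `t`: `f (x t) = grad G (x t)` (the derivative of `P(‖x‖²)` is `2P'(‖x‖²)⟨x,·⟩ = 0`, `P' = 0` on `(-∞,R²]`), so `IsTraj G x`;
nonconstant: otherwise `f (x t) = 0` and the action is `-F ≤ 0`. -/
theorem hofer_zehnder [Nontrivial E] (R : ℝ) (hR : 0 < R) :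
    ∃ CR : ℝ, ∀ (G : E → ℝ) (m : ℝ), ContDiff ℝ ∞ G → (∀ x, 0 ≤ G x) →
      (∃ z, ∀ᶠ x in 𝓝 z, G x = 0) → CR < m → (∀ x, R ≤ ‖x‖ → G x = m) →
      ∃ x : ℝ → E, IsTraj G x ∧ (∀ t, x (t + 1) = x t) ∧ ∃ t, x t ≠ x 0 := by
  have : ProperSpace E := FiniteDimensional.proper ℂ E
  set κ : ℝ := 3 * Real.pi / 2 with hκdef
  have hpi := Real.pi_pos
  have hκ0 : 0 < κ := by positivity
  obtain ⟨CR, hCR0, hCR⟩ := hzP_bound κ R hR
  refine ⟨CR, ?_⟩
  intro G m hG hG0 hz hm hGm
  obtain ⟨z0, hz0⟩ := hz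
  set P := hzP κ R with hP
  have hPd : Differentiable ℝ P := hzP_differentiable κ R
  set F : E → ℝ := fun x => G x + P (‖x‖ ^ 2) with hF
  have hGd : Differentiable ℝ G := hG.differentiable (by simp)
  have hFs : ContDiff ℝ ∞ F := hG.add ((hzP_contDiff κ R).comp (contDiff_norm_sq ℝ))
  have hFd : Differentiable ℝ F := hFs.differentiable (by simp)
  have hF0 : ∀ x, 0 ≤ F x := fun x => add_nonneg (hG0 x) (hzP_nonneg hκ0.le _)
  have hgrad : ∀ x, grad F x = grad G x + (2 * deriv P (‖x‖ ^ 2)) • x := fun x =>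
    hz_grad_add G P x (hGd x) (hPd _)
  -- z0 is inside
  have hm0 : 0 < m := lt_of_le_of_lt hCR0 hm
  have hz0R : ‖z0‖ < R := by
    by_contra hcon
    push Not at hcon
    have h1 := hGm z0 hcon
    have h2 : G z0 = 0 := hz0.self_of_nhds
    linarith
  -- the compactly supported part
  set h : E → ℝ := fun x => F x - κ * ‖x‖ ^ 2 - (m - κ * R ^ 2) with hh
  have hhs : ContDiff ℝ ∞ h :=
    (hFs.sub (contDiff_const.mul (contDiff_norm_sq ℝ))).sub contDiff_const
  have hhc : HasCompactSupport h := by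
    apply HasCompactSupport.intro (isCompact_closedBall (0 : E) (2 * R))
    intro x hx
    rw [Metric.mem_closedBall, dist_zero_right, not_le] at hx
    have h1 : R ≤ ‖x‖ := by linarith
    have h2 : 2 * R ^ 2 ≤ ‖x‖ ^ 2 := by nlinarith
    simp only [hh, hF, hGm x h1, hP, hzP_large hR h2]
    ring
  have hFh : F = fun x => h x + (fun s => κ * s + (m - κ * R ^ 2)) (‖x‖ ^ 2) := by
    funext x
    simp only [hh]
    ring
  have hgradh : ∀ x, grad F x = grad h x + (2 * κ) • x := by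
    intro x
    have hd : ∀ s : ℝ, HasDerivAt (fun s : ℝ => κ * s + (m - κ * R ^ 2)) κ s := by
      intro s
      have := ((hasDerivAt_id s).const_mul κ).add_const (m - κ * R ^ 2)
      simpa using this
    conv_lhs => rw [hFh]
    rw [hz_grad_add h _ x (hhs.differentiable (by simp) x) (hd _).differentiableAt, (hd _).deriv]
  obtain ⟨B, hB⟩ := hhc.exists_bound_of_continuous hhs.continuous
  obtain ⟨B1, hB1⟩ := (hhc.fderiv ℝ).exists_bound_of_continuous (hhs.continuous_fderiv (by simp))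
  have hgh : ∀ x, ‖grad h x‖ ≤ B1 := fun x => by
    rw [grad, LinearIsometryEquiv.norm_map]
    exact hB1 x
  obtain ⟨L0, hL0⟩ := ContDiff.lipschitzWith_of_hasCompactSupport (hhc.fderiv ℝ)
    (hhs.fderiv_right (m := ∞) (by simp)) (by simp)
  have hL1 : LipschitzWith L0 (grad h) := by
    intro x y
    unfold grad
    rw [LinearIsometryEquiv.edist_map]
    exact hL0 x y
  set L : NNReal := L0 + ⟨2 * κ, by positivity⟩ with hLdef
  have hL : LipschitzWith L (grad F) := by
    have h1 : grad F = fun x => grad h x + (2 * κ) • x := funext hgradh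
    rw [h1]
    apply hL1.add
    apply LipschitzWith.of_dist_le_mul
    intro x y
    rw [dist_smul₀, Real.norm_eq_abs, abs_of_pos (by positivity)]
    exact le_refl _
  have hlow : ∀ x v, F x + inner ℝ (grad F x) v - L * ‖v‖ ^ 2 ≤ F (x + v) := by
    intro x v
    have hφ : ∀ s : ℝ, HasDerivAt (fun s : ℝ => F (x + s • v)) (inner ℝ (grad F (x + s • v)) v) s := by
      intro s
      rw [inner_grad]
      have h1 : HasDerivAt (fun s : ℝ => x + s • v) v s := by
        have := ((hasDerivAt_id s).smul_const v).const_add x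
        simpa using this
      exact (hFd (x + s • v)).hasFDerivAt.comp_hasDerivAt s h1
    obtain ⟨c, hc, hceq⟩ := exists_hasDerivAt_eq_slope (fun s : ℝ => F (x + s • v)) _ zero_lt_one
      (fun s _ => (hφ s).continuousAt.continuousWithinAt) (fun s _ => hφ s)
    simp only [one_smul, zero_smul, add_zero, sub_zero, div_one] at hceq
    have h2 : inner ℝ (grad F x) v - L * ‖v‖ ^ 2 ≤ inner ℝ (grad F (x + c • v)) v := by
      have h3 : |inner ℝ (grad F (x + c • v) - grad F x) v| ≤ L * ‖v‖ ^ 2 := by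
        refine (abs_real_inner_le_norm _ _).trans ?_
        have h4 := hL.dist_le_mul (x + c • v) x
        rw [dist_eq_norm, dist_eq_norm, add_sub_cancel_left, norm_smul, Real.norm_eq_abs,
          abs_of_pos hc.1] at h4
        calc ‖grad F (x + c • v) - grad F x‖ * ‖v‖ ≤ (L * (c * ‖v‖)) * ‖v‖ :=
              mul_le_mul_of_nonneg_right h4 (norm_nonneg _)
          _ ≤ (L * (1 * ‖v‖)) * ‖v‖ := by
              gcongr
              exact hc.2.le
          _ = L * ‖v‖ ^ 2 := by ring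
      rw [inner_sub_left] at h3
      have := (abs_le.1 h3).1
      linarith
    linarith
  have hFup : ∀ x, F x ≤ B + m + κ * ‖x‖ ^ 2 := by
    intro x
    have h1 := (le_abs_self _).trans (hB x)
    simp only [hh] at h1
    have h2 : 0 ≤ κ * R ^ 2 := by positivity
    linarith
  have hFlow : ∀ x, κ * ‖x‖ ^ 2 - 2 * κ * R ^ 2 ≤ F x := by
    intro x
    rcases le_total (2 * R ^ 2) (‖x‖ ^ 2) with h1 | h1
    · have h2 : P (‖x‖ ^ 2) = κ * (‖x‖ ^ 2 - R ^ 2) := hzP_large hR h1
      have h3 := hG0 x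
      have h4 : F x = G x + P (‖x‖ ^ 2) := rfl
      rw [h4, h2]
      nlinarith [mul_pos hκ0 (pow_pos hR 2)]
    · have h2 := hF0 x
      nlinarith [mul_le_mul_of_nonneg_left h1 hκ0.le]
  -- the quartic bound at `z0`
  have hB0 : 0 ≤ B := (norm_nonneg _).trans (hB 0)
  obtain ⟨C4, hC4⟩ : ∃ C4 : ℝ, ∀ x, F (z0 + x) ≤ C4 * ‖x‖ ^ 4 := by
    have hnear : ∀ᶠ x in 𝓝 z0, F x = 0 := by
      filter_upwards [hz0, (isOpen_lt continuous_norm continuous_const).mem_nhds hz0R] with x hx1 hx2
      have h1 : P (‖x‖ ^ 2) = 0 := hzP_zero (by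
        have : ‖x‖ < R := hx2
        exact pow_le_pow_left₀ (norm_nonneg _) this.le 2)
      simp only [hF, hx1, h1, add_zero]
    obtain ⟨δ, hδ, hδF⟩ := Metric.eventually_nhds_iff.1 hnear
    set A : ℝ := B + m + 2 * κ * R ^ 2 with hA
    have hA0 : 0 ≤ A := by positivity
    refine ⟨A / δ ^ 4 + 2 * κ / δ ^ 2, fun x => ?_⟩
    rcases lt_or_ge ‖x‖ δ with h1 | h1
    · rw [hδF (by rw [dist_eq_norm, add_sub_cancel_left]; exact h1)]
      positivity
    · have h2 : F (z0 + x) ≤ A + 2 * κ * ‖x‖ ^ 2 := by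
        refine (hFup _).trans ?_
        have h3 : ‖z0 + x‖ ^ 2 ≤ 2 * R ^ 2 + 2 * ‖x‖ ^ 2 := by
          have h4 : ‖z0 + x‖ ≤ R + ‖x‖ := (norm_add_le _ _).trans (by linarith)
          have h5 : ‖z0 + x‖ ^ 2 ≤ (R + ‖x‖) ^ 2 := pow_le_pow_left₀ (norm_nonneg _) h4 2
          nlinarith [sq_nonneg (R - ‖x‖)]
        have h6 := mul_le_mul_of_nonneg_left h3 hκ0.le
        rw [hA]
        linarith
      refine h2.trans ?_
      have h7 : δ ^ 2 ≤ ‖x‖ ^ 2 := pow_le_pow_left₀ hδ.le h1 2
      have h8 : δ ^ 4 ≤ ‖x‖ ^ 4 := pow_le_pow_left₀ hδ.le h1 4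
      have h9 : A ≤ A / δ ^ 4 * ‖x‖ ^ 4 := by
        rw [div_mul_eq_mul_div, le_div_iff₀ (by positivity)]
        exact mul_le_mul_of_nonneg_left h8 hA0
      have h10 : 2 * κ * ‖x‖ ^ 2 ≤ 2 * κ / δ ^ 2 * ‖x‖ ^ 4 := by
        rw [div_mul_eq_mul_div, le_div_iff₀ (by positivity)]
        nlinarith [mul_le_mul_of_nonneg_left h7 (by positivity : (0 : ℝ) ≤ 2 * κ * ‖x‖ ^ 2)]
      linarith
  obtain ⟨y, hy, hyper, hact⟩ := existence (fun x => F (z0 + x)) (fun x => grad F (z0 + x))
    (hFs.continuous.comp (continuous_const.add continuous_id)) L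
    (by
      intro x y
      have := hL (z0 + x) (z0 + y)
      rwa [edist_add_left] at this)
    (by
      intro x v
      have h1 := hlow (z0 + x) v
      have h2 : z0 + x + v = z0 + (x + v) := add_assoc _ _ _
      rw [h2] at h1
      exact h1)
    (fun x => hF0 _) C4 hC4 κ (B1 + 2 * κ * ‖z0‖) (by rw [hκdef]; linarith) (by rw [hκdef]; linarith)
    (by
      intro x
      have h1 : grad F (z0 + x) - (2 * κ) • x = grad h (z0 + x) + (2 * κ) • z0 := by
        rw [hgradh, smul_add]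
        abel
      rw [h1]
      refine (norm_add_le _ _).trans (add_le_add (hgh _) ?_)
      rw [norm_smul, Real.norm_eq_abs, abs_of_pos (by positivity)])
    (5 * Real.pi / 4) (5 * κ * R ^ 2 + 2 * κ * R ^ 2) (by linarith)
    (by
      intro x
      refine le_trans ?_ (hFlow (z0 + x))
      have h1 : 5 / 6 * ‖x‖ ^ 2 - 5 * R ^ 2 ≤ ‖z0 + x‖ ^ 2 := by
        have h2 : ‖x‖ ≤ ‖z0 + x‖ + R := by
          have : ‖x‖ ≤ ‖z0 + x‖ + ‖z0‖ := by
            calc ‖x‖ = ‖z0 + x - z0‖ := by rw [add_sub_cancel_left]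
              _ ≤ _ := norm_sub_le _ _
          linarith
        have h3 : ‖x‖ ^ 2 ≤ (‖z0 + x‖ + R) ^ 2 := pow_le_pow_left₀ (norm_nonneg _) h2 2
        nlinarith [sq_nonneg (‖z0 + x‖ - 5 * R)]
      have h4 := mul_le_mul_of_nonneg_left h1 hκ0.le
      have h5 : κ * (5 / 6) = 5 * Real.pi / 4 := by rw [hκdef]; ring
      nlinarith)
  set x : ℝ → E := fun t => z0 + y t with hxdef
  have hx : ∀ t, HasDerivAt x (Complex.I • grad F (x t)) t := fun t => (hy t).const_add z0
  have hxper : ∀ t, x (t + 1) = x t := fun t => by simp only [hxdef, hyper]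
  have hxcont : Continuous x := continuous_iff_continuousAt.2 fun t => (hx t).continuousAt
  have hfcont : Continuous fun t => grad F (x t) := hL.continuous.comp hxcont
  have hII : ∀ a b : E, inner ℝ (Complex.I • a) (Complex.I • b) = inner ℝ a b := by
    intro a b
    rw [real_inner_eq_re_inner ℂ, real_inner_eq_re_inner ℂ, inner_smul_left, inner_smul_right,
      ← mul_assoc, Complex.conj_I]
    simp
  -- the action in terms of `x`
  have hz : ∫ t in (0 : ℝ)..1, inner ℝ (grad F (x t)) z0 = 0 := by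
    have h1 : ∀ t, HasDerivAt (fun t => inner ℝ (x t) (Complex.I • z0))
        (inner ℝ (grad F (x t)) z0) t := by
      intro t
      have h2 := (hx t).inner ℝ (hasDerivAt_const t (Complex.I • z0))
      rw [inner_zero_right, zero_add, hII] at h2
      exact h2
    rw [intervalIntegral.integral_eq_sub_of_hasDerivAt (fun t _ => h1 t)
      ((hfcont.inner continuous_const).intervalIntegrable _ _)]
    have h3 := hxper 0
    rw [zero_add] at h3
    rw [h3, sub_self]
  have hact' : 0 < ∫ t in (0 : ℝ)..1, (1 / 2 * inner ℝ (grad F (x t)) (x t) - F (x t)) := by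
    have h1 : ∀ t, 1 / 2 * inner ℝ (grad F (x t)) (x t) - F (x t) =
        (1 / 2 * inner ℝ (grad F (z0 + y t)) (y t) - F (z0 + y t)) +
          1 / 2 * inner ℝ (grad F (x t)) z0 := by
      intro t
      have h2 : inner ℝ (grad F (x t)) (x t) =
          inner ℝ (grad F (x t)) z0 + inner ℝ (grad F (x t)) (y t) := by
        rw [← inner_add_right]
      rw [h2]
      simp only [hxdef]
      ring
    have hycont : Continuous y := continuous_iff_continuousAt.2 fun t => (hy t).continuousAt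
    simp only [h1]
    rw [intervalIntegral.integral_add, intervalIntegral.integral_const_mul, hz, mul_zero, add_zero]
    · exact hact
    · exact ((continuous_const.mul (hfcont.inner hycont)).sub
        (hFs.continuous.comp hxcont)).intervalIntegrable _ _
    · exact (continuous_const.mul (hfcont.inner continuous_const)).intervalIntegrable _ _
  have hgradG : ∀ z : E, R < ‖z‖ → grad G z = 0 := by
    intro z hz
    have h1 : G =ᶠ[𝓝 z] fun _ => m := by
      filter_upwards [(isOpen_lt continuous_const continuous_norm).mem_nhds hz] with w hw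
      exact hGm w (le_of_lt hw)
    apply hz_inner_ext
    intro w
    rw [inner_grad, h1.fderiv_eq]
    simp
  by_cases hcase : ∃ t0, R < ‖x t0‖
  · -- outside
    exfalso
    obtain ⟨t0, ht0⟩ := hcase
    have hN : ∀ t, HasDerivAt (fun t => ‖x t‖ ^ 2)
        (2 * inner ℝ (x t) (Complex.I • grad F (x t))) t := fun t => (hx t).norm_sq
    have hN0 : ∀ t, R ^ 2 < ‖x t‖ ^ 2 → inner ℝ (x t) (Complex.I • grad F (x t)) = 0 := by
      intro t ht
      have h1 : R < ‖x t‖ := lt_of_pow_lt_pow_left₀ 2 (norm_nonneg _) ht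
      rw [hgrad, hgradG _ h1, zero_add, smul_comm, real_inner_smul_right, hz_inner_I, mul_zero]
    have hψ : ∀ t, HasDerivAt (fun t => (max (‖x t‖ ^ 2 - R ^ 2) 0) ^ 2) 0 t := by
      intro t
      have h0 := (hz_posPart_sq (‖x t‖ ^ 2 - R ^ 2)).comp t ((hN t).sub_const (R ^ 2))
      have h1 : HasDerivAt (fun t => (max (‖x t‖ ^ 2 - R ^ 2) 0) ^ 2)
          (2 * max (‖x t‖ ^ 2 - R ^ 2) 0 * (2 * inner ℝ (x t) (Complex.I • grad F (x t)))) t := h0
      rcases le_or_gt (‖x t‖ ^ 2) (R ^ 2) with h2 | h2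
      · have e : 2 * max (‖x t‖ ^ 2 - R ^ 2) 0 *
            (2 * inner ℝ (x t) (Complex.I • grad F (x t))) = 0 := by
          rw [max_eq_right (by linarith), mul_zero, zero_mul]
        rw [e] at h1
        exact h1
      · have e : 2 * max (‖x t‖ ^ 2 - R ^ 2) 0 *
            (2 * inner ℝ (x t) (Complex.I • grad F (x t))) = 0 := by
          rw [hN0 t h2, mul_zero, mul_zero]
        rw [e] at h1
        exact h1
    have hψc : ∀ t, (max (‖x t‖ ^ 2 - R ^ 2) 0) ^ 2 = (max (‖x t0‖ ^ 2 - R ^ 2) 0) ^ 2 := fun t =>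
      is_const_of_deriv_eq_zero (fun s => (hψ s).differentiableAt) (fun s => (hψ s).deriv) t t0
    have hR2 : R ^ 2 < ‖x t0‖ ^ 2 := pow_lt_pow_left₀ ht0 hR.le (by norm_num)
    have hNc : ∀ t, ‖x t‖ ^ 2 = ‖x t0‖ ^ 2 := by
      intro t
      have h1 := hψc t
      rw [max_eq_left (by linarith : (0 : ℝ) ≤ ‖x t0‖ ^ 2 - R ^ 2)] at h1
      have h2 : max (‖x t‖ ^ 2 - R ^ 2) 0 = ‖x t0‖ ^ 2 - R ^ 2 :=
        (pow_left_inj₀ (le_max_right _ _) (by linarith) (by norm_num)).1 h1
      rcases le_total (‖x t‖ ^ 2 - R ^ 2) 0 with h3 | h3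
      · rw [max_eq_right h3] at h2
        linarith
      · rw [max_eq_left h3] at h2
        linarith
    have hint : ∀ t, 1 / 2 * inner ℝ (grad F (x t)) (x t) - F (x t) =
        deriv P (‖x t0‖ ^ 2) * ‖x t0‖ ^ 2 - P (‖x t0‖ ^ 2) - m := by
      intro t
      have h1 : R < ‖x t‖ := by
        apply lt_of_pow_lt_pow_left₀ 2 (norm_nonneg _)
        rw [hNc t]
        exact hR2
      have h2 : F (x t) = m + P (‖x t0‖ ^ 2) := by
        simp only [hF, hGm _ h1.le, hNc t]
      rw [h2, hgrad, hgradG _ h1, zero_add, real_inner_smul_left, real_inner_self_eq_norm_sq, hNc t]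
      ring
    simp only [hint] at hact'
    rw [intervalIntegral.integral_const] at hact'
    have h3 := hCR (‖x t0‖ ^ 2) (by positivity)
    simp only [sub_zero, one_smul] at hact'
    linarith
  · push Not at hcase
    have hfG : ∀ t, grad F (x t) = grad G (x t) := by
      intro t
      rw [hgrad, hP, hzP_deriv_zero hκ0.le (pow_le_pow_left₀ (norm_nonneg _) (hcase t) 2), mul_zero,
        zero_smul, add_zero]
    refine ⟨x, fun t => ?_, hxper, ?_⟩
    · rw [← hfG t]
      exact hx t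
    · by_contra hcon
      push Not at hcon
      have h1 : ∀ t, grad F (x t) = 0 := by
        intro t
        have h2 : HasDerivAt x 0 t := by
          have : x = fun _ => x 0 := funext hcon
          rw [this]
          exact hasDerivAt_const t (x 0)
        have h3 := (hx t).unique h2
        exact (smul_eq_zero.1 h3).resolve_left Complex.I_ne_zero
      have h4 : ∫ t in (0 : ℝ)..1, (1 / 2 * inner ℝ (grad F (x t)) (x t) - F (x t)) ≤ 0 := by
        have h5 : ∀ t, 1 / 2 * inner ℝ (grad F (x t)) (x t) - F (x t) = -F (x t) := by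
          intro t
          rw [h1 t, inner_zero_left, mul_zero, zero_sub]
        simp only [h5]
        rw [intervalIntegral.integral_neg]
        have h6 : 0 ≤ ∫ t in (0 : ℝ)..1, F (x t) :=
          intervalIntegral.integral_nonneg zero_le_one fun t _ => hF0 (x t)
        linarith
      linarith

end

end Pool.Agent.Helper906_NullSet
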