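import Pool.Agent.Helper906_NullSet.Defs

set_option autoImplicit false

open Set MeasureTheory Filter Topology
open scoped ContDiff

namespace Pool.Agent.Helper906_NullSet

noncomputable section

attribute [local instance] InnerProductSpace.complexToReal

variable {E : Type*} [NormedAddCommGroup E] [InnerProductSpace ℂ E] [FiniteDimensional ℂ E]
  [CompleteSpace E]

theorem ol_contDiff (H : E → ℝ) (hH : ContDiff ℝ ∞ H) :
    ContDiff ℝ 1 (fun x => Complex.I • grad H x) := by
  have h1 : ContDiff ℝ 1 (fderiv ℝ H) := hH.fderiv_right (by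
    rw [show (1 : WithTop ℕ∞) + 1 = ((2 : ℕ∞) : WithTop ℕ∞) from by norm_num]
    exact WithTop.coe_le_coe.2 le_top)
  have h2 : ContDiff ℝ 1 (fun x => grad H x) :=
    (InnerProductSpace.toDual ℝ E).symm.contDiff.comp h1
  exact h2.const_smul Complex.I

omit [FiniteDimensional ℂ E] [CompleteSpace E] in
/-- the basic estimate along a trajectory of a vector field, bounded and Lipschitz on `K` -/
theorem ol_est (X : E → E) (K : Set E) (b l : ℝ) (hb : ∀ x ∈ K, ‖X x‖ ≤ b)
    (hl : ∀ x ∈ K, ∀ y ∈ K, ‖X y - X x‖ ≤ l * ‖y - x‖) (hl0 : 0 ≤ l)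
    (x : ℝ → E) (hx : ∀ t, HasDerivAt x (X (x t)) t) (hxK : ∀ t, x t ∈ K) (t h : ℝ) :
    ‖x (t + h) - x t - h • X (x t)‖ ≤ l * b * h ^ 2 := by
  have h1 : ∀ s t, ‖x t - x s‖ ≤ b * ‖t - s‖ := by
    intro s t
    exact Convex.norm_image_sub_le_of_norm_hasDerivWithin_le (s := Set.univ)
      (fun u _ => (hx u).hasDerivWithinAt) (fun u _ => hb _ (hxK u)) convex_univ
      (Set.mem_univ _) (Set.mem_univ _)
  have hb0 : 0 ≤ b := (norm_nonneg _).trans (hb _ (hxK t))
  have h2 := Convex.norm_image_sub_le_of_norm_hasDerivWithin_le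
    (f := fun u => x (t + u) - u • X (x t)) (f' := fun u => X (x (t + u)) - X (x t))
    (s := Metric.closedBall (0 : ℝ) |h|) (C := l * b * |h|) (x := 0) (y := h)
    (fun u _ => by
      have e1 : HasDerivAt (fun u => x (t + u)) (X (x (t + u))) u := by
        have := (hx (t + u)).comp_const_add t u
        exact this
      have e2 : HasDerivAt (fun u : ℝ => u • X (x t)) ((1 : ℝ) • X (x t)) u :=
        (hasDerivAt_id u).smul_const (X (x t))
      rw [one_smul] at e2
      exact (e1.sub e2).hasDerivWithinAt)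
    (fun u hu => by
      have hu' : ‖u‖ ≤ |h| := by simpa using hu
      calc ‖X (x (t + u)) - X (x t)‖ ≤ l * ‖x (t + u) - x t‖ := hl _ (hxK _) _ (hxK _)
        _ ≤ l * (b * ‖t + u - t‖) := mul_le_mul_of_nonneg_left (h1 t (t + u)) hl0
        _ = l * b * ‖u‖ := by rw [add_sub_cancel_left]; ring
        _ ≤ l * b * |h| := mul_le_mul_of_nonneg_left hu' (mul_nonneg hl0 hb0))
    (convex_closedBall _ _) (by simp) (by simp)
  simp only [add_zero, zero_smul, sub_zero, Real.norm_eq_abs] at h2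
  have e3 : x (t + h) - x t - h • X (x t) = x (t + h) - h • X (x t) - x t := by abel
  rw [e3]
  refine h2.trans (le_of_eq ?_)
  rw [mul_assoc, ← sq, sq_abs]

/-- TARGET D: limits of closed orbits with bounded periods.
Proof.  `X = i grad H` is `C^∞`, hence bounded by `b` and Lipschitz with constant `ℓ` on the closed ball of radius `R` (convex, compact).
`{H ≤ 2}` is compact.  `{H = a}`, intersected with the closed ball, is compact and `X ≠ 0` on it: there are `δ0, c0 > 0` with `‖X x‖ ≥ c0` whenever `‖x‖ ≤ R`,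
`|H x - a| ≤ δ0` (otherwise sequences/compactness).  For `j` take `(x_j, τ_j)` from `hseq` with `δ = min(δ0, 1/(j+1))`; `x_j` stays in `{H ≤ 2} ⊆ B_R`.
Lower bound of `τ_j`: `0 = ∫_0^τ x_j'`, `‖x_j'(t) - x_j'(0)‖ ≤ ℓ b τ`, so `c0 ≤ ‖X(x_j 0)‖ ≤ ℓ b τ_j`; so `τ_j ≥ c1 > 0`.
`y_j s = x_j (τ_j s)`: 1-periodic, in `B_R`, `y_j' = τ_j X(y_j)`, and `‖y_j(s+h) - y_j(s) - (h τ_j) • X(y_j s)‖ ≤ T² ℓ b h²` for all `s,h`.
Let `𝒰 = hyperfilter ℕ`; by compactness (`IsCompact.ultrafilter_le_nhds`) `y s = lim_𝒰 y_j s` and `τ = lim_𝒰 τ_j ∈ [c1, T]` exist.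
The inequality passes to the limit: `‖y(s+h) - y(s) - (h τ) • X(y s)‖ ≤ C h²`, so `y' = τ X(y)`; `y(s+1) = y s`; `H(y s) = a`
(`|H(y_j s) - a| < 1/(j+1)`).  `x t = y(t/τ)` is a trajectory of `H` with period `τ > 0` in `{H = a}`; if it were constant, `X(x 0) = 0`, so
`grad H (x 0) = 0` and `fderiv ℝ H (x 0) = 0`, contradicting `ha`. -/
theorem orbit_limit (H : E → ℝ) (hH : ContDiff ℝ ∞ H) (R : ℝ)
    (hsub : {x : E | H x ≤ 2} ⊆ Metric.ball (0 : E) R)
    (a : ℝ) (ha : ∀ x, H x = a → fderiv ℝ H x ≠ 0) (T : ℝ)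
    (hseq : ∀ δ : ℝ, 0 < δ → ∃ (x : ℝ → E) (τ : ℝ), 0 < τ ∧ τ ≤ T ∧ IsTraj H x ∧
      (∀ t, x (t + τ) = x t) ∧ (∀ t, H (x t) = H (x 0)) ∧ |H (x 0) - a| < δ ∧ H (x 0) ≤ 2) :
    ∃ (x : ℝ → E) (τ : ℝ), 0 < τ ∧ IsTraj H x ∧ (∀ t, x (t + τ) = x t) ∧ (∀ t, H (x t) = a) ∧
      ∃ t, x t ≠ x 0 := by
  have : FiniteDimensional ℝ E := FiniteDimensional.complexToReal E
  have : ProperSpace E := FiniteDimensional.proper ℝ E
  set X : E → E := fun x => Complex.I • grad H x with hXdef
  have hX : ContDiff ℝ 1 X := ol_contDiff H hH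
  have hXc : Continuous X := hX.continuous
  have hHc : Continuous H := hH.continuous
  set K : Set E := Metric.closedBall (0 : E) R with hK
  have hKc : IsCompact K := isCompact_closedBall _ _
  obtain ⟨b, hb⟩ := hKc.exists_bound_of_continuousOn hXc.continuousOn
  obtain ⟨l', hl'⟩ := hKc.exists_bound_of_continuousOn
    ((hX.continuous_fderiv one_ne_zero).continuousOn)
  set l := max l' 0 with hldef
  have hl0 : 0 ≤ l := le_max_right _ _
  have hl : ∀ x ∈ K, ∀ y ∈ K, ‖X y - X x‖ ≤ l * ‖y - x‖ := by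
    intro x hx y hy
    exact Convex.norm_image_sub_le_of_norm_fderiv_le (𝕜 := ℝ) (s := K)
      (fun u _ => (hX.differentiable one_ne_zero) u)
      (fun u hu => (hl' u hu).trans (le_max_left _ _)) (convex_closedBall _ _) hx hy
  -- lower bound of the vector field near the level
  obtain ⟨x₀, -, -, -, -, -, -, -, hx₀⟩ := hseq 1 one_pos
  have hR : (x₀ 0) ∈ K := Metric.ball_subset_closedBall (hsub hx₀)
  have hφc : Continuous (fun x => |H x - a| + ‖X x‖) :=
    ((hHc.sub continuous_const).abs).add hXc.norm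
  obtain ⟨xm, hxm, hmin⟩ := hKc.exists_isMinOn ⟨_, hR⟩ hφc.continuousOn
  have hX0 : ∀ x, H x = a → X x ≠ 0 := by
    intro x hx h0
    apply ha x hx
    have h1 : grad H x = 0 := by
      have h2 : Complex.I • grad H x = 0 := h0
      exact (smul_eq_zero.1 h2).resolve_left Complex.I_ne_zero
    unfold grad at h1
    simpa using h1
  set m := |H xm - a| + ‖X xm‖ with hm
  have hm0 : 0 < m := by
    by_cases h : H xm = a
    · have := norm_pos_iff.2 (hX0 xm h)
      have := abs_nonneg (H xm - a)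
      linarith
    · have := abs_pos.2 (sub_ne_zero.2 h)
      have := norm_nonneg (X xm)
      linarith
  have hlow : ∀ x ∈ K, |H x - a| < m / 2 → m / 2 ≤ ‖X x‖ := by
    intro x hx h
    have := hmin hx
    change |H xm - a| + ‖X xm‖ ≤ |H x - a| + ‖X x‖ at this
    linarith
  -- the sequence
  have hδ : ∀ j : ℕ, 0 < min (m / 2) (1 / ((j : ℝ) + 1)) := fun j =>
    lt_min (by linarith) (by positivity)
  choose x τ hτ0 hτT htraj hper hlev hclose hle using fun j : ℕ => hseq _ (hδ j)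
  have hxK : ∀ j t, x j t ∈ K := by
    intro j t
    apply Metric.ball_subset_closedBall
    apply hsub
    show H (x j t) ≤ 2
    rw [hlev j t]
    exact hle j
  have hest : ∀ j t h, ‖x j (t + h) - x j t - h • X (x j t)‖ ≤ l * b * h ^ 2 := fun j t h =>
    ol_est X K b l hb hl hl0 (x j) (htraj j) (hxK j) t h
  have hT0 : 0 < T := (hτ0 0).trans_le (hτT 0)
  have hlb : ∀ j, m / 2 ≤ l * b * τ j := by
    intro j
    have h1 := hest j 0 (τ j)
    rw [hper j 0, sub_self, zero_sub, norm_neg, norm_smul, Real.norm_of_nonneg (hτ0 j).le] at h1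
    have h2 : m / 2 ≤ ‖X (x j 0)‖ := hlow _ (hxK j 0) ((hclose j).trans_le (min_le_left _ _))
    have h3 : τ j * ‖X (x j 0)‖ ≤ τ j * (l * b * τ j) := by
      refine h1.trans (le_of_eq ?_)
      ring
    exact h2.trans (le_of_mul_le_mul_left h3 (hτ0 j))
  have hlb0 : 0 < l * b := by
    have h1 := hlb 0
    by_contra hcon
    push Not at hcon
    have : l * b * τ 0 ≤ 0 := mul_nonpos_of_nonpos_of_nonneg hcon (hτ0 0).le
    linarith
  set c := m / 2 / (l * b) with hc
  have hc0 : 0 < c := div_pos (by linarith) hlb0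
  have hτc : ∀ j, c ≤ τ j := by
    intro j
    rw [hc, div_le_iff₀ hlb0]
    have := hlb j
    linarith
  set 𝒰 : Ultrafilter ℕ := hyperfilter ℕ with h𝒰
  have hlimK : ∀ s : ℝ, ∃ z ∈ K, Tendsto (fun j => x j (τ j * s)) (𝒰 : Filter ℕ) (𝓝 z) := by
    intro s
    obtain ⟨z, hz, h⟩ := hKc.ultrafilter_le_nhds (𝒰.map (fun j => x j (τ j * s)))
      (by
        rw [Filter.le_principal_iff, Ultrafilter.mem_coe, Ultrafilter.mem_map]
        exact Filter.univ_mem' (fun j => hxK j _))
    exact ⟨z, hz, h⟩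
  choose y hyK hy using hlimK
  obtain ⟨σ, hσ, hσl⟩ : ∃ σ ∈ Icc c T, Tendsto τ (𝒰 : Filter ℕ) (𝓝 σ) := by
    obtain ⟨z, hz, h⟩ := isCompact_Icc.ultrafilter_le_nhds (𝒰.map τ) (s := Icc c T)
      (by
        rw [Filter.le_principal_iff, Ultrafilter.mem_coe, Ultrafilter.mem_map]
        exact Filter.univ_mem' (fun j => ⟨hτc j, hτT j⟩))
    exact ⟨z, hz, h⟩
  have hσ0 : 0 < σ := hc0.trans_le hσ.1
  have hyest : ∀ s h, ‖y (s + h) - y s - h • (σ • X (y s))‖ ≤ l * b * T ^ 2 * h ^ 2 := by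
    intro s h
    have h1 : Tendsto (fun j => ‖x j (τ j * (s + h)) - x j (τ j * s)
        - h • (τ j • X (x j (τ j * s)))‖) (𝒰 : Filter ℕ)
        (𝓝 ‖y (s + h) - y s - h • (σ • X (y s))‖) := by
      refine Tendsto.norm (((hy (s + h)).sub (hy s)).sub ?_)
      exact (hσl.smul ((hXc.tendsto _).comp (hy s))).const_smul h
    refine le_of_tendsto h1 (Filter.Eventually.of_forall fun j => ?_)
    have h2 := hest j (τ j * s) (τ j * h)
    rw [← mul_add] at h2
    have e : h • (τ j • X (x j (τ j * s))) = (τ j * h) • X (x j (τ j * s)) := by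
      rw [smul_smul, mul_comm]
    rw [e]
    refine h2.trans ?_
    have h3 : (τ j * h) ^ 2 ≤ T ^ 2 * h ^ 2 := by
      rw [mul_pow]
      exact mul_le_mul_of_nonneg_right (pow_le_pow_left₀ (hτ0 j).le (hτT j) 2) (sq_nonneg _)
    calc l * b * (τ j * h) ^ 2 ≤ l * b * (T ^ 2 * h ^ 2) := mul_le_mul_of_nonneg_left h3 hlb0.le
      _ = l * b * T ^ 2 * h ^ 2 := by ring
  have hyper : ∀ s, y (s + 1) = y s := by
    intro s
    refine tendsto_nhds_unique (hy (s + 1)) ?_
    refine (hy s).congr fun j => ?_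
    rw [mul_add, mul_one, hper]
  have hyH : ∀ s, H (y s) = a := by
    intro s
    have h1 : Tendsto (fun j => H (x j (τ j * s))) (𝒰 : Filter ℕ) (𝓝 (H (y s))) :=
      (hHc.tendsto _).comp (hy s)
    have h2 : Tendsto (fun j => H (x j (τ j * s))) atTop (𝓝 a) := by
      rw [tendsto_iff_norm_sub_tendsto_zero]
      refine squeeze_zero (fun j => norm_nonneg _) (fun j => ?_)
        tendsto_one_div_add_atTop_nhds_zero_nat
      rw [hlev j, Real.norm_eq_abs]
      exact (hclose j).le.trans (min_le_right _ _)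
    exact tendsto_nhds_unique h1 (h2.mono_left Nat.hyperfilter_le_atTop)
  have hyd : ∀ s, HasDerivAt y (σ • X (y s)) s := by
    intro s
    rw [hasDerivAt_iff_isLittleO_nhds_zero]
    have h1 : (fun h : ℝ => y (s + h) - y s - h • (σ • X (y s))) =O[𝓝 0] (fun h : ℝ => h ^ 2) := by
      refine Asymptotics.IsBigO.of_bound (l * b * T ^ 2) (Filter.Eventually.of_forall fun h => ?_)
      rw [Real.norm_of_nonneg (sq_nonneg h)]
      exact hyest s h
    exact h1.trans_isLittleO (Asymptotics.isLittleO_pow_id one_lt_two)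
  refine ⟨fun t => y (t / σ), σ, hσ0, ?_, ?_, ?_, ?_⟩
  · intro t
    have h1 : HasDerivAt (fun t : ℝ => t / σ) (1 / σ) t := (hasDerivAt_id t).div_const σ
    have h2 := HasDerivAt.scomp t (hyd (t / σ)) h1
    have e : (1 / σ) • (σ • X (y (t / σ))) = Complex.I • grad H (y (t / σ)) := by
      rw [smul_smul, one_div, inv_mul_cancel₀ hσ0.ne', one_smul]
    rw [e] at h2
    exact h2
  · intro t
    have e : (t + σ) / σ = t / σ + 1 := by
      rw [add_div, div_self hσ0.ne']
    show y ((t + σ) / σ) = y (t / σ)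
    rw [e, hyper]
  · intro t
    exact hyH _
  · by_contra hcon
    push Not at hcon
    have hconst : ∀ s, y s = y 0 := by
      intro s
      have := hcon (s * σ)
      simpa [mul_div_assoc, div_self hσ0.ne'] using this
    have h1 := hyd 0
    have h2 : HasDerivAt y 0 0 := by
      have : y = fun _ => y 0 := funext hconst
      rw [this]
      exact hasDerivAt_const _ _
    have h3 := h1.unique h2
    exact hX0 _ (hyH 0) ((smul_eq_zero.1 h3).resolve_left hσ0.ne')

end

end Pool.Agent.Helper906_NullSet
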