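import Pool.Agent.Helper906_NullSet.Shell
import Pool.Agent.Helper906_NullSet.OrbitLimit
import Pool.Agent.Helper906_NullSet.Cantor2
import Pool.Agent.Helper906_NullSet.Entropy

set_option autoImplicit false

open Set MeasureTheory Filter Topology
open scoped ContDiff

namespace Pool.Agent.Helper906_NullSet

noncomputable section

section

attribute [local instance] InnerProductSpace.complexToReal

variable {E : Type*} [NormedAddCommGroup E] [InnerProductSpace ℂ E] [FiniteDimensional ℂ E]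
  [CompleteSpace E]

/-- The capacity functions of the functions with derivatives bounded by `M` on the ball of
radius `R`. -/
def capClass (E : Type*) [NormedAddCommGroup E] [InnerProductSpace ℂ E] [CompleteSpace E]
    (R M : ℝ) : Set (ℝ → ℝ) :=
  {c | ∃ H : E → ℝ, ContDiff ℝ ∞ H ∧
    (∀ j ≤ 2 * Module.finrank ℝ E + 1, ∀ x, ‖x‖ ≤ R → ‖iteratedFDeriv ℝ j H x‖ ≤ M) ∧
    c = capH R H}

theorem capH_mono [Nontrivial E] (R : ℝ) (H : E → ℝ) : Monotone (capH R H) := by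
  intro b b' h
  apply cap_mono R
  · intro x hx
    exact ⟨lt_of_lt_of_le hx.1 h, hx.2⟩
  · exact inter_subset_right

theorem capH_le [Nontrivial E] (R : ℝ) (H H' : E → ℝ) (b b' : ℝ)
    (h : ∀ x, ‖x‖ ≤ R → H x < b → H' x < b') : capH R H b ≤ capH R H' b' := by
  apply cap_mono R
  · intro x hx
    refine ⟨h x ?_ hx.1, hx.2⟩
    exact (mem_ball_zero_iff.1 hx.2).le
  · exact inter_subset_right

theorem monotone_of_mem_capClass [Nontrivial E] (R M : ℝ) (c : ℝ → ℝ)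
    (hc : c ∈ capClass E R M) : Monotone c := by
  obtain ⟨H, _, _, rfl⟩ := hc
  exact capH_mono R H

theorem smallEntropy_capClass [Nontrivial E] (R M : ℝ) : SmallEntropy (capClass E R M) := by
  classical
  intro θ hθ
  obtain ⟨ε₀, hε₀, h⟩ := entropy_smooth (E := E) R M θ hθ
  refine ⟨ε₀, hε₀, ?_⟩
  intro ε hε hεε
  obtain ⟨N, q, hN, hq⟩ := h ε hε hεε
  let good : (E → ℝ) → Prop := fun H => ContDiff ℝ ∞ H ∧
    (∀ j ≤ 2 * Module.finrank ℝ E + 1, ∀ x, ‖x‖ ≤ R → ‖iteratedFDeriv ℝ j H x‖ ≤ M)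
  let rep : Fin N → ℝ → ℝ := fun i =>
    if hi : ∃ H : E → ℝ, good H ∧ q H = i then capH R hi.choose else fun _ => 0
  refine ⟨Finset.univ.image rep, ?_, ?_, ?_⟩
  · intro r hr
    rw [Finset.mem_image] at hr
    obtain ⟨i, _, rfl⟩ := hr
    by_cases hi : ∃ H : E → ℝ, good H ∧ q H = i
    · simp only [rep, dif_pos hi]
      exact capH_mono R _
    · simp only [rep, dif_neg hi]
      exact monotone_const
  · refine le_trans ?_ hN
    apply mul_le_mul_of_nonneg_left _ hε.le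
    have hN0 : 0 < N := Fin.pos (q (fun _ => 0))
    have hcard : (Finset.univ.image rep).card ≤ N := by
      refine Finset.card_image_le.trans ?_
      simp
    have hpos : 0 < (Finset.univ.image rep).card := by
      rw [Finset.card_pos]
      exact ⟨rep (q fun _ => 0), Finset.mem_image_of_mem _ (Finset.mem_univ _)⟩
    apply Real.log_le_log
    · exact_mod_cast hpos
    · exact_mod_cast hcard
  · rintro c ⟨H, hH1, hH2, rfl⟩
    have hi : ∃ H' : E → ℝ, good H' ∧ q H' = q H := ⟨H, ⟨hH1, hH2⟩, rfl⟩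
    refine ⟨rep (q H), Finset.mem_image_of_mem _ (Finset.mem_univ _), ?_⟩
    have hrep : rep (q H) = capH R hi.choose := by
      simp only [rep, dif_pos hi]
    have hs := hi.choose_spec
    rw [hrep]
    have hclose := hq hi.choose H hs.1.1 hH1 hs.1.2 hH2 hs.2
    intro b
    constructor
    · apply capH_le
      intro x hx hxb
      have := (abs_le.1 (hclose x hx)).1
      linarith
    · apply capH_le
      intro x hx hxb
      have := (abs_le.1 (hclose x hx)).2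
      linarith

/-- From bounded difference quotients of the capacity function to closed orbits. -/
theorem closed_orbit_of_capH : ∃ C0 : ℝ, 0 < C0 ∧
    ∀ (E : Type) [NormedAddCommGroup E] [InnerProductSpace ℂ E] [FiniteDimensional ℂ E]
      [CompleteSpace E] [Nontrivial E] (H : E → ℝ), ContDiff ℝ ∞ H →
      ∀ R : ℝ, {x : E | H x ≤ 2} ⊆ Metric.ball (0 : E) R → (∃ z, H z < 1) →
      ∀ a T : ℝ, (∀ x, H x = a → fderiv ℝ H x ≠ 0) → 0 < T →
      (∀ δ : ℝ, 0 < δ → ∃ α β : ℝ, 1 ≤ α ∧ α ≤ a ∧ a ≤ β ∧ β ≤ 2 ∧ α < β ∧ β - α < δ ∧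
        capH R H β - capH R H α ≤ T * (β - α)) →
      ∃ (x : ℝ → E) (τ : ℝ), 0 < τ ∧ IsTraj H x ∧ (∀ t, x (t + τ) = x t) ∧
        (∀ t, H (x t) = a) ∧ ∃ t, x t ≠ x 0 := by
  obtain ⟨C0, hC0, hshell⟩ := thin_shell
  refine ⟨C0, hC0, ?_⟩
  intro E _ _ _ _ _ H hH R hsub hz a T ha hT hint
  apply orbit_limit H hH R hsub a ha (C0 * T)
  intro δ hδ
  obtain ⟨α, β, h1, h2, h3, h4, h5, h6, h7⟩ := hint δ hδ
  obtain ⟨z, hz⟩ := hz
  obtain ⟨x, τ, hτ, hτT, htr, hper, hH0, hα, hβ, _⟩ :=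
    hshell E H hH R hsub α β T ⟨z, by linarith⟩ h5 h4 hT h7
  refine ⟨x, τ, hτ, hτT, htr, hper, hH0, ?_, by linarith⟩
  rw [abs_lt]
  constructor <;> linarith

end

/-- bounded derivatives on balls -/
theorem exists_deriv_bound {E : Type*} [NormedAddCommGroup E] [NormedSpace ℝ E]
    [FiniteDimensional ℝ E] (H : E → ℝ) (hH : ContDiff ℝ ∞ H) (R : ℝ) (m : ℕ) :
    ∃ M : ℕ, ∀ j ≤ m, ∀ x, ‖x‖ ≤ R → ‖iteratedFDeriv ℝ j H x‖ ≤ M := by
  have h1 : ∀ j : ℕ, ∃ M : ℕ, ∀ x, ‖x‖ ≤ R → ‖iteratedFDeriv ℝ j H x‖ ≤ M := by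
    intro j
    have hc : Continuous (iteratedFDeriv ℝ j H) :=
      hH.continuous_iteratedFDeriv (by exact_mod_cast le_top)
    have := FiniteDimensional.proper ℝ E
    obtain ⟨C, hC⟩ := (isCompact_closedBall (0 : E) R).exists_bound_of_continuousOn hc.continuousOn
    obtain ⟨M, hM⟩ := exists_nat_ge C
    exact ⟨M, fun x hx => (hC x (mem_closedBall_zero_iff.2 hx)).trans hM⟩
  choose M hM using h1
  refine ⟨(Finset.range (m + 1)).sup M, ?_⟩
  intro j hj x hx
  refine (hM j x hx).trans ?_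
  exact_mod_cast Finset.le_sup (f := M) (Finset.mem_range.2 (Nat.lt_succ_of_le hj))

/-- the classes of capacity functions in all dimensions -/
def fam (n R M : ℕ) : Set (ℝ → ℝ) := capClass (EuclideanSpace ℂ (Fin (n + 1))) (R : ℝ) (M : ℝ)

/-- The general obstruction: one compact null set for all dimensions and all smooth functions
with compact regular level sets. -/
theorem main_general : ∃ K : Set ℝ, IsCompact K ∧ K ⊆ Icc 1 2 ∧ volume K = 0 ∧
    ∀ (n : ℕ) (H : EuclideanSpace ℂ (Fin (n + 1)) → ℝ), ContDiff ℝ ∞ H →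
      Bornology.IsBounded {x | H x ≤ 2} → (∃ z, H z < 1) →
      (∀ x, 1 ≤ H x → H x ≤ 2 → fderiv ℝ H x ≠ 0) →
      ∃ a ∈ K, ∃ (x : ℝ → EuclideanSpace ℂ (Fin (n + 1))) (τ : ℝ), 0 < τ ∧ IsTraj H x ∧
        (∀ t, x (t + τ) = x t) ∧ (∀ t, H (x t) = a) ∧ ∃ t, x t ≠ x 0 := by
  obtain ⟨K, hK1, hK2, hK3, hK4⟩ := exists_null_set
    (fun j => fam (Nat.unpair j).1 (Nat.unpair (Nat.unpair j).2).1
      (Nat.unpair (Nat.unpair j).2).2)
    (fun j c hc => monotone_of_mem_capClass _ _ c hc)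
    (fun j => smallEntropy_capClass _ _)
  refine ⟨K, hK1, hK2, hK3, ?_⟩
  intro n H hH hbd hz hreg
  obtain ⟨C0, _, hC0⟩ := closed_orbit_of_capH
  obtain ⟨R0, hR0⟩ := hbd.subset_ball (0 : EuclideanSpace ℂ (Fin (n + 1)))
  obtain ⟨R, hR⟩ := exists_nat_ge R0
  have hsub : {x | H x ≤ 2} ⊆ Metric.ball (0 : EuclideanSpace ℂ (Fin (n + 1))) (R : ℝ) :=
    hR0.trans (Metric.ball_subset_ball hR)
  obtain ⟨M, hM⟩ := exists_deriv_bound H hH R
    (2 * Module.finrank ℝ (EuclideanSpace ℂ (Fin (n + 1))) + 1)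
  have hmem : capH (R : ℝ) H ∈ fam n R M := ⟨H, hH, hM, rfl⟩
  have hj := hK4 (Nat.pair n (Nat.pair R M)) (capH (R : ℝ) H) (by
    simp only [Nat.unpair_pair]
    exact hmem)
  obtain ⟨a, haK, T, hT, hint⟩ := hj
  refine ⟨a, haK, ?_⟩
  have ha12 := hK2 haK
  exact hC0 (EuclideanSpace ℂ (Fin (n + 1))) H hH R hsub hz a T
    (fun x hx => hreg x (by rw [hx]; exact ha12.1) (by rw [hx]; exact ha12.2)) hT hint

end

end Pool.Agent.Helper906_NullSet
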