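import Pool.Agent.Helper906_NullSet.HZ

set_option autoImplicit false

open Set MeasureTheory Filter Topology
open scoped ContDiff

namespace Pool.Agent.Helper906_NullSet

noncomputable section

attribute [local instance] InnerProductSpace.complexToReal

variable {E : Type*} [NormedAddCommGroup E] [InnerProductSpace ℂ E] [FiniteDimensional ℂ E]
  [CompleteSpace E]

/-- TARGET C1: sets of admissible oscillations are bounded. (If `R ≤ 0` the ball is empty, `F` is constant `= m` outside the
empty compact set and zero somewhere, so `m = 0`.) -/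
theorem bddAbove_adm [Nontrivial E] (R : ℝ) (U : Set E) (hU : U ⊆ Metric.ball (0 : E) R) :
    BddAbove {m | Adm U m} := by
  obtain ⟨CR, hCR⟩ := hofer_zehnder (E := E) (max R 1) (lt_max_of_lt_right one_pos)
  refine ⟨CR, ?_⟩
  rintro m ⟨F, hF, hF0, hz, ⟨C, -, hCU, hCm⟩, hper⟩
  by_contra hm
  push Not at hm
  obtain ⟨x, hx, hx1, t, ht⟩ := hCR F m hF (fun x => (hF0 x).1) hz hm (by
    intro x hx
    apply hCm
    intro hxC
    have h1 := hU (hCU hxC)
    rw [mem_ball_zero_iff] at h1
    have h2 := le_max_left R 1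
    linarith)
  exact ht (hper x 1 one_pos le_rfl hx hx1 t)

/-- TARGET C2 (the function `0` is admissible) -/
theorem adm_zero (U : Set E) : Adm U 0 := by
  refine ⟨fun _ => 0, contDiff_const, fun _ => ⟨le_rfl, le_rfl⟩, ⟨0, Filter.Eventually.of_forall fun _ => rfl⟩,
    ⟨∅, isCompact_empty, empty_subset _, fun _ _ => rfl⟩, ?_⟩
  intro x τ _ _ hx _ t
  have h : ∀ t, HasDerivAt x 0 t := by
    intro t
    have h1 := hx t
    simpa [grad] using h1
  exact is_const_of_deriv_eq_zero (fun t => (h t).differentiableAt) (fun t => (h t).deriv) t 0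

/-- TARGET C3 -/
theorem cap_mono [Nontrivial E] (R : ℝ) (U U' : Set E) (hU : U ⊆ U') (hU' : U' ⊆ Metric.ball (0 : E) R) :
    cap U ≤ cap U' := by
  apply csSup_le_csSup (bddAbove_adm R U' hU') ⟨0, adm_zero U⟩
  rintro m ⟨F, hF, hF0, hz, ⟨C, hC, hCU, hCm⟩, hper⟩
  exact ⟨F, hF, hF0, hz, ⟨C, hC, hCU.trans hU, hCm⟩, hper⟩

/-- the derivative of `σ` is bounded -/
theorem aux_sigma_bound : ∃ C : ℝ, 0 < C ∧ ∀ s : ℝ, deriv Real.smoothTransition s ≤ C := by
  have hc : Continuous (deriv Real.smoothTransition) :=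
    (Real.smoothTransition.contDiff (n := 1)).continuous_deriv le_rfl
  obtain ⟨C, hC⟩ := (isCompact_Icc (a := (0 : ℝ)) (b := 1)).exists_bound_of_continuousOn
    hc.continuousOn
  refine ⟨max C 1, lt_max_of_lt_right one_pos, fun s => ?_⟩
  by_cases h0 : s < 0
  · have h : deriv Real.smoothTransition s = 0 := by
      apply IsLocalMin.deriv_eq_zero
      apply Filter.Eventually.of_forall
      intro y
      rw [Real.smoothTransition.zero_of_nonpos h0.le]
      exact Real.smoothTransition.nonneg y
    rw [h]; exact le_max_of_le_right zero_le_one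
  · by_cases h1 : 1 < s
    · have h : deriv Real.smoothTransition s = 0 := by
        apply IsLocalMax.deriv_eq_zero
        apply Filter.Eventually.of_forall
        intro y
        rw [Real.smoothTransition.one_of_one_le h1.le]
        exact Real.smoothTransition.le_one y
      rw [h]; exact le_max_of_le_right zero_le_one
    · have h := hC s ⟨by linarith, by linarith⟩
      rw [Real.norm_eq_abs] at h
      exact le_max_of_le_left ((le_abs_self _).trans h)

theorem aux_inner_I (v : E) : inner ℝ v (Complex.I • v) = 0 := by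
  rw [real_inner_eq_re_inner ℂ, inner_smul_right, inner_self_eq_norm_sq_to_K]
  have h : ((‖v‖ : ℂ) ^ 2) = ((‖v‖ ^ 2 : ℝ) : ℂ) := by push_cast; rfl
  show (Complex.I * ((‖v‖ : ℂ) ^ 2)).re = 0
  rw [h, Complex.re_mul_ofReal, Complex.I_re, zero_mul]

theorem aux_inner_I_smul (c : ℝ) (v : E) : inner ℝ v (Complex.I • (c • v)) = 0 := by
  rw [smul_comm, inner_smul_right, aux_inner_I, mul_zero]

theorem aux_grad_add_comp (F H : E → ℝ) (φ : ℝ → ℝ) (x : E) (hF : DifferentiableAt ℝ F x)
    (hH : DifferentiableAt ℝ H x) (hφ : DifferentiableAt ℝ φ (H x)) :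
    grad (fun y => F y + φ (H y)) x = grad F x + deriv φ (H x) • grad H x := by
  have h1 : HasFDerivAt (fun y => φ (H y)) (deriv φ (H x) • fderiv ℝ H x) x :=
    hφ.hasDerivAt.comp_hasFDerivAt x hH.hasFDerivAt
  have h2 := (hF.hasFDerivAt.add h1).fderiv
  unfold grad
  have h3 : fderiv ℝ (fun y => F y + φ (H y)) x = fderiv ℝ F x + deriv φ (H x) • fderiv ℝ H x := h2
  rw [h3, map_add, map_smulₛₗ]
  rfl

/-- the cut-off function `φ` -/
theorem aux_phi (C1 : ℝ) (hC1 : ∀ s : ℝ, deriv Real.smoothTransition s ≤ C1)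
    (α β' μ : ℝ) (hαβ : α < β') (hμ : 0 < μ) :
    ∃ φ : ℝ → ℝ, ContDiff ℝ ∞ φ ∧ (∀ b, 0 ≤ φ b ∧ φ b ≤ μ) ∧ (∀ b, b ≤ α → φ b = 0) ∧
      (∀ b, β' ≤ b → φ b = μ) ∧ (∀ b, 0 ≤ deriv φ b) ∧ (∀ b, b ≤ α → deriv φ b = 0) ∧
      (∀ b, β' ≤ b → deriv φ b = 0) ∧ ∀ b, deriv φ b ≤ μ * C1 / (β' - α) := by
  have hd : 0 < β' - α := sub_pos.2 hαβ
  set φ : ℝ → ℝ := fun b => μ * Real.smoothTransition ((b - α) / (β' - α)) with hφ
  have hcd : ContDiff ℝ ∞ φ := by
    apply contDiff_const.mul
    apply (Real.smoothTransition.contDiff (n := ⊤)).comp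
    exact (contDiff_id.sub contDiff_const).div_const _
  have h01 : ∀ b, 0 ≤ φ b ∧ φ b ≤ μ := by
    intro b
    constructor
    · exact mul_nonneg hμ.le (Real.smoothTransition.nonneg _)
    · calc μ * Real.smoothTransition ((b - α) / (β' - α)) ≤ μ * 1 :=
          mul_le_mul_of_nonneg_left (Real.smoothTransition.le_one _) hμ.le
        _ = μ := mul_one μ
  have hlo : ∀ b, b ≤ α → φ b = 0 := by
    intro b hb
    rw [hφ]
    simp only []
    rw [Real.smoothTransition.zero_of_nonpos, mul_zero]
    exact div_nonpos_of_nonpos_of_nonneg (by linarith) hd.le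
  have hhi : ∀ b, β' ≤ b → φ b = μ := by
    intro b hb
    rw [hφ]
    simp only []
    rw [Real.smoothTransition.one_of_one_le, mul_one]
    rw [le_div_iff₀ hd]
    linarith
  have hder : ∀ b, deriv φ b = μ * deriv Real.smoothTransition ((b - α) / (β' - α)) / (β' - α) := by
    intro b
    have h1 : HasDerivAt (fun b : ℝ => (b - α) / (β' - α)) (1 / (β' - α)) b :=
      ((hasDerivAt_id b).sub_const α).div_const _
    have h2 : HasDerivAt Real.smoothTransition
        (deriv Real.smoothTransition ((b - α) / (β' - α))) ((b - α) / (β' - α)) :=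
      ((Real.smoothTransition.contDiff (n := 1)).differentiable (by norm_num)).differentiableAt.hasDerivAt
    have h3 := (h2.comp b h1).const_mul μ
    have h4 : deriv φ b = μ * (deriv Real.smoothTransition ((b - α) / (β' - α)) * (1 / (β' - α))) :=
      h3.deriv
    rw [h4]
    ring
  refine ⟨φ, hcd, h01, hlo, hhi, ?_, ?_, ?_, ?_⟩
  · intro b
    apply Monotone.deriv_nonneg
    intro b c hbc
    apply mul_le_mul_of_nonneg_left _ hμ.le
    apply Real.smoothTransition.monotone
    exact div_le_div_of_nonneg_right (by linarith) hd.le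
  · intro b hb
    apply IsLocalMin.deriv_eq_zero
    apply Filter.Eventually.of_forall
    intro y
    show φ b ≤ φ y
    rw [hlo b hb]
    exact (h01 y).1
  · intro b hb
    apply IsLocalMax.deriv_eq_zero
    apply Filter.Eventually.of_forall
    intro y
    show φ y ≤ φ b
    rw [hhi b hb]
    exact (h01 y).2
  · intro b
    rw [hder b]
    apply div_le_div_of_nonneg_right _ hd.le
    exact mul_le_mul_of_nonneg_left (hC1 _) hμ.le

/-- a differentiable function `u` whose derivative vanishes where `u > α` is constant if somewhere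
`u > α` -/
theorem aux_const (u : ℝ → ℝ) (α : ℝ) (hu : Differentiable ℝ u)
    (hd : ∀ t, α < u t → deriv u t = 0) (t0 : ℝ) (ht0 : α < u t0) : ∀ t, u t = u t0 := by
  have hg : Differentiable ℝ expNegInvGlue :=
    (expNegInvGlue.contDiff (n := 1)).differentiable (by norm_num)
  have hg0 : ∀ s ≤ 0, deriv expNegInvGlue s = 0 := by
    intro s hs
    apply IsLocalMin.deriv_eq_zero
    apply Filter.Eventually.of_forall
    intro y
    show expNegInvGlue s ≤ expNegInvGlue y
    rw [expNegInvGlue.zero_of_nonpos hs]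
    exact expNegInvGlue.nonneg y
  have hw : ∀ t, HasDerivAt (fun t => expNegInvGlue (u t - α)) 0 t := by
    intro t
    have h1 : HasDerivAt (fun t => u t - α) (deriv u t) t := (hu t).hasDerivAt.sub_const α
    have h2 : HasDerivAt expNegInvGlue (deriv expNegInvGlue (u t - α)) (u t - α) :=
      (hg _).hasDerivAt
    have h3 := h2.comp t h1
    have h4 : deriv expNegInvGlue (u t - α) * deriv u t = 0 := by
      by_cases h : α < u t
      · rw [hd t h, mul_zero]
      · rw [hg0 _ (by linarith), zero_mul]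
    rw [h4] at h3
    exact h3
  intro t
  have hc : expNegInvGlue (u t - α) = expNegInvGlue (u t0 - α) :=
    is_const_of_deriv_eq_zero (fun t => (hw t).differentiableAt) (fun t => (hw t).deriv) t t0
  have h0 : 0 < expNegInvGlue (u t0 - α) := expNegInvGlue.pos_of_pos (by linarith)
  have h1 : 0 < u t - α := by
    by_contra hle
    rw [expNegInvGlue.zero_of_nonpos (not_lt.1 hle)] at hc
    linarith
  have h2 : 0 < u t0 - α := by linarith
  unfold expNegInvGlue at hc
  rw [if_neg (not_le.2 h1), if_neg (not_le.2 h2)] at hc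
  have h3 := Real.exp_injective hc
  have h4 : u t - α = u t0 - α := inv_injective (neg_injective h3)
  linarith

/-- TARGET C4: closed orbits in thin shells.
Proof.  `C0 = 4 sup |σ'|` (or anything larger, positive) with `σ = Real.smoothTransition` (its derivative is continuous and vanishes outside `[0,1]`).
`c(β) = sup of Adm ({H<β} ∩ B_R)`, and `{H<b} ∩ B_R = {H<b}` for `b ≤ 2`.  There is `F` admissible for `{H<α}` with oscillation
`m > capH α - T(β-α)` (`exists_lt_of_lt_csSup`, `adm_zero`).  `β' = (α+β)/2`, `μ = 2T(β-α)`, `φ b = μ σ((b-α)/(β'-α))`: smooth,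
`φ = 0` on `(-∞,α]`, `φ = μ` on `[β',∞)`, `0 ≤ φ ≤ μ`, `|φ'| ≤ μ sup|σ'|/(β'-α) = C0 T`.  `G = F + φ∘H`: smooth, `0 ≤ G ≤ m+μ`, `G = m+μ` outside the compact set
`{H ≤ β'}` (closed and bounded; contains the compact set of `F`), which lies in `{H<β} ∩ B_R`; `G = 0` near a point: if `m > 0`, near `z` where `F = 0` (the point `z`
is in the compact set of `F`, inside `{H<α}`, where `φ∘H = 0` nearby); if `m = 0`, then `F = 0` identically: if `{H<α}` is nonempty take a point of it; if it is empty
— then use instead: `H` is bounded below and attains its minimum on the nonempty compact set `{H ≤ β'}`... see NOTE.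
`m + μ > capH α + T(β-α) ≥ capH β = sSup`, so `m+μ` is not admissible for `{H<β} ∩ B_R`, hence `G` has a nonconstant `τ`-periodic trajectory `x`, `τ ≤ 1`.
`u t = H (x t)`: where `u > α`, `F` is locally constant (`= m`), so `grad G = φ'(H) grad H` and `u' = ⟨grad H, i φ' grad H⟩ = 0`.  So
`(max (u-α) 0)²` has zero derivative, is constant.  If `u ≤ α` always: `grad G (x t) = grad F (x t)` (`φ' = 0` on `(-∞,α]`), so `x` is a
trajectory of `F`, constant by admissibility: contradiction.  Otherwise `u = b > α` constant, `x' = φ'(b) i grad H`, `φ'(b) ≠ 0`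
(nonconstant), `φ'(b) > 0` (φ monotone) and `b < β' < β`; `y s = x (s/φ'(b))` is a trajectory of `H` of period `φ'(b) τ ≤ C0 T`.
NOTE: the hypothesis `hne` that `{H < α}` is nonempty is there to have the open set where `G = 0`. -/
theorem thin_shell : ∃ C0 : ℝ, 0 < C0 ∧
    ∀ (E : Type) [NormedAddCommGroup E] [InnerProductSpace ℂ E] [FiniteDimensional ℂ E]
      [CompleteSpace E] [Nontrivial E] (H : E → ℝ), ContDiff ℝ ∞ H →
      ∀ R : ℝ, {x : E | H x ≤ 2} ⊆ Metric.ball (0 : E) R →
      ∀ α β T : ℝ, (∃ z, H z < α) → α < β → β ≤ 2 → 0 < T →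
      capH R H β - capH R H α ≤ T * (β - α) →
      ∃ (x : ℝ → E) (τ : ℝ), 0 < τ ∧ τ ≤ C0 * T ∧ IsTraj H x ∧ (∀ t, x (t + τ) = x t) ∧
        (∀ t, H (x t) = H (x 0)) ∧ α < H (x 0) ∧ H (x 0) < β ∧ ∃ t, x t ≠ x 0 := by
  obtain ⟨C1, hC1, hσ⟩ := aux_sigma_bound
  refine ⟨4 * C1, by positivity, ?_⟩
  intro E _ _ _ _ _ H hH R hR α β T hne hαβ hβ2 hT hcap
  obtain ⟨z0, hz0⟩ := hne
  -- the admissible function
  have hpos : 0 < T * (β - α) := mul_pos hT (sub_pos.2 hαβ)
  have hlt : capH R H α - T * (β - α) < cap ({x | H x < α} ∩ Metric.ball (0 : E) R) := by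
    show capH R H α - T * (β - α) < capH R H α
    linarith
  obtain ⟨m, hm, hmlt⟩ := exists_lt_of_lt_csSup ⟨0, adm_zero _⟩ hlt
  obtain ⟨F, hF, hF0, hz, ⟨C, hC, hCU, hCm⟩, hper⟩ := hm
  set β' : ℝ := (α + β) / 2 with hβ'
  set μ : ℝ := 2 * T * (β - α) with hμ
  have hμ0 : 0 < μ := by rw [hμ]; nlinarith
  have hαβ' : α < β' := by rw [hβ']; linarith
  have hβ'β : β' < β := by rw [hβ']; linarith
  obtain ⟨φ, hφ, hφ01, hφlo, hφhi, hφd0, hφdlo, hφdhi, hφb⟩ :=
    aux_phi C1 hσ α β' μ hαβ' hμ0
  have hm0 : 0 ≤ m := (hF0 0).1.trans (hF0 0).2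
  -- `F = m` and the gradient vanishes outside of `C`
  have hFC : ∀ x, α ≤ H x → x ∉ C := by
    intro x hx hxC
    have := (hCU hxC).1
    simp only [mem_ofPred_eq] at this
    linarith
  have hgF : ∀ x, α ≤ H x → grad F x = 0 := by
    intro x hx
    have h1 : F =ᶠ[𝓝 x] fun _ => m := by
      filter_upwards [hC.isClosed.isOpen_compl.mem_nhds (hFC x hx)] with y hy
      exact hCm y hy
    unfold grad
    rw [h1.fderiv_eq]
    simp
  set G : E → ℝ := fun x => F x + φ (H x) with hG
  have hGs : ContDiff ℝ ∞ G := hF.add (hφ.comp hH)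
  have hgG : ∀ x, grad G x = grad F x + deriv φ (H x) • grad H x := fun x =>
    aux_grad_add_comp F H φ x (hF.differentiable (by simp)).differentiableAt
      (hH.differentiable (by simp)).differentiableAt
      (hφ.differentiable (by simp)).differentiableAt
  -- there is a nonconstant closed trajectory of `G`
  obtain ⟨x, τ, hτ, hτ1, hx, hxτ, t1, ht1⟩ : ∃ (x : ℝ → E) (τ : ℝ), 0 < τ ∧ τ ≤ 1 ∧ IsTraj G x ∧
      (∀ t, x (t + τ) = x t) ∧ ∃ t, x t ≠ x 0 := by
    by_contra hcon
    push Not at hcon
    have hadm : Adm ({x | H x < β} ∩ Metric.ball (0 : E) R) (m + μ) := by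
      refine ⟨G, hGs, ?_, ?_, ⟨{x | H x ≤ β'}, ?_, ?_, ?_⟩, hcon⟩
      · intro x
        have h1 := hF0 x
        have h2 := hφ01 (H x)
        exact ⟨add_nonneg h1.1 h2.1, add_le_add h1.2 h2.2⟩
      · -- zero near a point
        have key : ∀ z, H z < α → (∀ᶠ x in 𝓝 z, F x = 0) → ∃ z : E, ∀ᶠ x in 𝓝 z, G x = 0 := by
          intro z hzα hzF
          refine ⟨z, ?_⟩
          have h1 : ∀ᶠ x in 𝓝 z, H x < α := hH.continuous.continuousAt.eventually_lt_const hzα
          filter_upwards [h1, hzF] with x hx hxF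
          rw [hG]
          simp only []
          rw [hxF, hφlo _ hx.le, add_zero]
        rcases hm0.lt_or_eq with hm1 | hm1
        · obtain ⟨z, hz⟩ := hz
          apply key z _ hz
          have hzC : z ∈ C := by
            by_contra hzC
            have h1 := hCm z hzC
            rw [hz.self_of_nhds] at h1
            linarith
          exact (hCU hzC).1
        · apply key z0 hz0
          apply Filter.Eventually.of_forall
          intro x
          have := hF0 x
          rw [← hm1] at this
          exact le_antisymm this.2 this.1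
      · -- compact
        apply Metric.isCompact_of_isClosed_isBounded
        · exact isClosed_le hH.continuous continuous_const
        · apply (Metric.isBounded_ball (x := (0 : E)) (r := R)).subset
          intro x hx
          apply hR
          simp only [mem_ofPred_eq] at hx ⊢
          linarith
      · intro x hx
        simp only [mem_ofPred_eq] at hx
        refine ⟨?_, hR ?_⟩
        · simp only [mem_ofPred_eq]; linarith
        · simp only [mem_ofPred_eq]; linarith
      · intro x hx
        simp only [mem_ofPred_eq, not_le] at hx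
        rw [hG]
        simp only []
        rw [hCm x (hFC x (by linarith)), hφhi _ hx.le]
    have h1 : m + μ ≤ capH R H β :=
      le_csSup (bddAbove_adm R _ inter_subset_right) hadm
    have h2 : capH R H α - T * (β - α) < m := hmlt
    rw [hμ] at h1
    linarith
  -- `H` along the trajectory
  have hHd : ∀ t, HasDerivAt (fun t => H (x t)) (fderiv ℝ H (x t) (Complex.I • grad G (x t))) t := by
    intro t
    exact ((hH.differentiable (by simp)).differentiableAt.hasFDerivAt).comp_hasDerivAt t (hx t)
  have hu0 : ∀ t, α < H (x t) → deriv (fun t => H (x t)) t = 0 := by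
    intro t ht
    rw [(hHd t).deriv, ← inner_grad, hgG, hgF _ ht.le, zero_add, aux_inner_I_smul]
  by_cases hall : ∀ t, H (x t) ≤ α
  · exfalso
    apply ht1
    apply hper x τ hτ hτ1 _ hxτ
    intro t
    have h := hx t
    rw [hgG, hφdlo _ (hall t), zero_smul, add_zero] at h
    exact h
  · push Not at hall
    obtain ⟨t0, ht0⟩ := hall
    have hconst : ∀ t, H (x t) = H (x t0) :=
      aux_const (fun t => H (x t)) α (fun t => (hHd t).differentiableAt) hu0 t0 ht0
    have hc0 : ∀ t, H (x t) = H (x 0) := fun t => (hconst t).trans (hconst 0).symm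
    have hb : α < H (x 0) := by rw [hconst 0]; exact ht0
    set κ : ℝ := deriv φ (H (x 0)) with hκ
    have hxd : ∀ t, HasDerivAt x (κ • (Complex.I • grad H (x t))) t := by
      intro t
      have h := hx t
      rw [hgG, hgF _ (by rw [hc0 t]; exact hb.le), zero_add, hc0 t, smul_comm] at h
      exact h
    have hκ0 : κ ≠ 0 := by
      intro h0
      apply ht1
      have h : ∀ t, HasDerivAt x 0 t := by
        intro t
        have := hxd t
        rwa [h0, zero_smul] at this
      exact is_const_of_deriv_eq_zero (fun t => (h t).differentiableAt) (fun t => (h t).deriv) t1 0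
    have hκpos : 0 < κ := lt_of_le_of_ne (hφd0 _) hκ0.symm
    have hbβ : H (x 0) < β' := by
      by_contra hcon
      exact hκ0 (hφdhi _ (not_lt.1 hcon))
    refine ⟨fun s => x (s / κ), κ * τ, mul_pos hκpos hτ, ?_, ?_, ?_, ?_, ?_, ?_, κ * t1, ?_⟩
    · have h1 : κ ≤ μ * C1 / (β' - α) := hφb _
      have h2 : μ * C1 / (β' - α) = 4 * C1 * T := by
        have h3 : β' - α = (β - α) / 2 := by rw [hβ']; ring
        have h4 : β - α ≠ 0 := (sub_pos.2 hαβ).ne'
        rw [h3, hμ]
        field_simp
        ring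
      calc κ * τ ≤ κ * 1 := mul_le_mul_of_nonneg_left hτ1 hκpos.le
        _ = κ := mul_one κ
        _ ≤ 4 * C1 * T := h2 ▸ h1
    · intro s
      have h1 : HasDerivAt (fun s : ℝ => s / κ) (1 / κ) s := (hasDerivAt_id s).div_const κ
      have h2 := (hxd (s / κ)).scomp s h1
      rw [smul_smul, one_div, inv_mul_cancel₀ hκ0, one_smul] at h2
      exact h2
    · intro t
      have h1 : (t + κ * τ) / κ = t / κ + τ := by field_simp
      show x ((t + κ * τ) / κ) = x (t / κ)
      rw [h1, hxτ]
    · intro t
      show H (x (t / κ)) = H (x (0 / κ))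
      rw [zero_div, hc0]
    · show α < H (x (0 / κ))
      rw [zero_div]; exact hb
    · show H (x (0 / κ)) < β
      rw [zero_div]; linarith
    · show x (κ * t1 / κ) ≠ x (0 / κ)
      rw [zero_div, mul_div_cancel_left₀ _ hκ0]
      exact ht1

end

end Pool.Agent.Helper906_NullSet
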